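import Mathlib

set_option autoImplicit false

/-!
# ZrL, module C1: connectedness of complements

`conn_diff`: for `x ≠ y` in `C \ S` consider `z_t = (x + y) / 2 + t * I * (y - x)`, `t` real, `|t| < ε` so small that `z_t ∈ C` (`C` open, the mid point is in `C`). The two segments `[x, z_t]`,
`[z_t, y]` lie in `C`. For `p ∈ S` there is at most one `t` with `p ∈ [x, z_t]` (as `p ≠ x`: `(p - x) / (y - x)` has argument determining `t`: `(z_t - x) / (y - x) = 1 / 2 + t * I`, so `p = x + r (1/2 + t I)(y - x)` with `r > 0` real determines `r`, then `t`)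
and at most one with `p ∈ [z_t, y]`; so all but countably many `t` are good, and `Ioo (-ε) ε` is not countable. The union of the two segments is preconnected. Use `isPreconnected_of_forall_pair`. (Compare the proof of `Set.Countable.isPathConnected_compl_of_one_lt_rank` in
Mathlib.Analysis.Normed.Module.Connected.)

`conn_an`: for `x, y` in the set the function `h w = D (x + w • (y - x))` is analytic on the open convex set `Ω = {w : ℂ | x + w • (y - x) ∈ O}`, `0, 1 ∈ Ω`, `h 0 ≠ 0`, so its zeros in `Ω` are isolated (`AnalyticOnNhd.eqOn_zero_or_eventually_ne_zero_of_preconnected` or similar), hence form a countable set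
(`Ω` is second countable / a countable union of compact sets); `Ω \ zeros` is preconnected by `conn_diff`, and its image under `w ↦ x + w • (y - x)` contains `x`, `y`.

`dense_an`: identity theorem (`AnalyticOnNhd.eqOn_zero_of_preconnected_of_eventuallyEq_zero`).
-/

noncomputable section

namespace ZrL

open Filter Topology Set

theorem C1_indep {x : ℂ} (hx : x ≠ 0) : LinearIndependent ℝ ![x, Complex.I * x] := by
  rw [LinearIndependent.pair_iff' hx]
  intro a ha
  have h1 : (a : ℂ) * x = Complex.I * x := by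
    rw [← ha, Complex.real_smul]
  have h2 : (a : ℂ) = Complex.I := mul_right_cancel₀ hx h1
  have h3 := congrArg Complex.im h2
  simp at h3

theorem conn_diff {C : Set ℂ} (hC : IsOpen C) (hc : Convex ℝ C) {S : Set ℂ} (hS : S.Countable) :
    IsPreconnected (C \ S) := by
  refine isPreconnected_of_forall_pair fun a ha b hb => ?_
  rcases eq_or_ne a b with rfl | hab
  · exact ⟨{a}, by simpa using ha, rfl, rfl, isPreconnected_singleton⟩
  let c := (2 : ℝ)⁻¹ • (a + b)
  let x := (2 : ℝ)⁻¹ • (b - a)
  have Ia : c - x = a := by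
    simp only [c, x]
    module
  have Ib : c + x = b := by
    simp only [c, x]
    module
  have x_ne_zero : x ≠ 0 := by simpa [x] using sub_ne_zero.2 hab.symm
  let y := Complex.I * x
  have hy : LinearIndependent ℝ ![x, y] := C1_indep x_ne_zero
  have hcC : c ∈ C := by
    have h1 := hc ha.1 hb.1 (by norm_num : (0 : ℝ) ≤ 2⁻¹) (by norm_num : (0 : ℝ) ≤ 2⁻¹) (by norm_num)
    rwa [← smul_add] at h1
  have A : Set.Countable {t : ℝ | (segment ℝ (c + x) (c + t • y) ∩ S).Nonempty} := by
    apply countable_ofPred_nonempty_of_disjoint _ (fun t ↦ inter_subset_right) hS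
    intro t t' htt'
    apply disjoint_iff_inter_eq_empty.2
    have N : {c + x} ∩ S = ∅ := by
      simpa only [singleton_inter_eq_empty, Ib] using hb.2
    rw [inter_assoc, inter_comm S, inter_assoc, inter_self, ← inter_assoc, ← subset_empty_iff, ← N]
    apply inter_subset_inter_left
    apply Eq.subset
    apply segment_inter_eq_endpoint_of_linearIndependent_of_ne hy htt'.symm
  have B : Set.Countable {t : ℝ | (segment ℝ (c - x) (c + t • y) ∩ S).Nonempty} := by
    apply countable_ofPred_nonempty_of_disjoint _ (fun t ↦ inter_subset_right) hS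
    intro t t' htt'
    apply disjoint_iff_inter_eq_empty.2
    have N : {c - x} ∩ S = ∅ := by
      simpa only [singleton_inter_eq_empty, Ia] using ha.2
    rw [inter_assoc, inter_comm S, inter_assoc, inter_self, ← inter_assoc, ← subset_empty_iff, ← N]
    apply inter_subset_inter_left
    rw [sub_eq_add_neg _ x]
    apply Eq.subset
    apply segment_inter_eq_endpoint_of_linearIndependent_of_ne _ htt'.symm
    convert! hy.units_smul ![-1, 1]
    simp [← List.ofFn_inj]
  have hopen : IsOpen {t : ℝ | c + t • y ∈ C} := by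
    apply hC.preimage
    fun_prop
  obtain ⟨t, ht1, ht⟩ := ((A.union B).dense_compl ℝ).inter_open_nonempty _ hopen ⟨0, by simpa using hcC⟩
  simp only [compl_union, mem_inter_iff, mem_compl_iff, mem_ofPred_eq, not_nonempty_iff_eq_empty] at ht
  have ht1' : c + t • y ∈ C := ht1
  refine ⟨segment ℝ a (c + t • y) ∪ segment ℝ b (c + t • y), ?_, Or.inl (left_mem_segment ℝ _ _),
    Or.inr (left_mem_segment ℝ _ _), ?_⟩
  · rintro z (hz | hz)
    · refine ⟨hc.segment_subset ha.1 ht1' hz, fun hzS => ?_⟩
      have h1 := ht.2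
      rw [Ia] at h1
      have h2 : z ∈ segment ℝ a (c + t • y) ∩ S := ⟨hz, hzS⟩
      rw [h1] at h2
      exact h2
    · refine ⟨hc.segment_subset hb.1 ht1' hz, fun hzS => ?_⟩
      have h1 := ht.1
      rw [Ib] at h1
      have h2 : z ∈ segment ℝ b (c + t • y) ∩ S := ⟨hz, hzS⟩
      rw [h1] at h2
      exact h2
  · exact IsPreconnected.union (c + t • y) (right_mem_segment ℝ _ _) (right_mem_segment ℝ _ _)
      (convex_segment _ _).isPreconnected (convex_segment _ _).isPreconnected

variable {E : Type*} [NormedAddCommGroup E] [NormedSpace ℂ E]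

/-- the zeros of an analytic function, which is not identically zero, on an open convex plane set are countable -/
theorem C1_zeros {Ω : Set ℂ} (hc : Convex ℝ Ω) {h : ℂ → ℂ} (hh : AnalyticOnNhd ℂ h Ω)
    {w0 : ℂ} (hw0 : w0 ∈ Ω) (h0 : h w0 ≠ 0) : {w | w ∈ Ω ∧ h w = 0}.Countable := by
  have hdisc : DiscreteTopology {w | w ∈ Ω ∧ h w = 0} := by
    rw [discreteTopology_subtype_iff]
    intro w hw
    rcases (hh w hw.1).eventually_eq_zero_or_eventually_ne_zero with h1 | h1
    · exfalso
      exact h0 (hh.eqOn_zero_of_preconnected_of_eventuallyEq_zero hc.isPreconnected hw.1 h1 hw0)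
    · rw [← disjoint_iff, disjoint_principal_right]
      filter_upwards [h1] with z hz hz2
      exact hz hz2.2
  exact (HereditarilyLindelofSpace.isLindelof _).countable hdisc

theorem conn_an {O : Set E} (hO : IsOpen O) (hc : Convex ℝ O) {D : E → ℂ} (hD : AnalyticOnNhd ℂ D O) :
    IsPreconnected {x | x ∈ O ∧ D x ≠ 0} := by
  refine isPreconnected_of_forall_pair fun x hx y hy => ?_
  have hg : Continuous fun w : ℂ => x + w • (y - x) := by fun_prop
  have hΩo : IsOpen ((fun w : ℂ => x + w • (y - x)) ⁻¹' O) := hO.preimage hg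
  have hΩc : Convex ℝ ((fun w : ℂ => x + w • (y - x)) ⁻¹' O) := by
    intro a ha b hb s t hs ht hst
    have h1 := hc ha hb hs ht hst
    have h2 : s • (x + a • (y - x)) + t • (x + b • (y - x)) = x + (s • a + t • b) • (y - x) := by
      have h3 : x = s • x + t • x := by rw [← add_smul, hst, one_smul]
      rw [smul_add, smul_add, add_smul, smul_assoc, smul_assoc]
      nth_rewrite 5 [h3]
      abel
    change x + (s • a + t • b) • (y - x) ∈ O
    rw [← h2]
    exact h1
  have hh : AnalyticOnNhd ℂ (fun w : ℂ => D (x + w • (y - x))) ((fun w : ℂ => x + w • (y - x)) ⁻¹' O) := by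
    intro w hw
    have h1 : AnalyticAt ℂ (fun w : ℂ => x + w • (y - x)) w :=
      analyticAt_const.add (analyticAt_id.smul analyticAt_const)
    have h2 : AnalyticAt ℂ D ((fun w : ℂ => x + w • (y - x)) w) := hD _ hw
    exact AnalyticAt.fun_comp_of_eq h2 h1 rfl
  have h0 : (0 : ℂ) ∈ ((fun w : ℂ => x + w • (y - x)) ⁻¹' O) := by
    change x + (0 : ℂ) • (y - x) ∈ O
    simpa using hx.1
  have h1 : (1 : ℂ) ∈ ((fun w : ℂ => x + w • (y - x)) ⁻¹' O) := by
    change x + (1 : ℂ) • (y - x) ∈ O
    simpa using hy.1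
  have hcount := C1_zeros hΩc hh h0 (by simpa using hx.2)
  have hpre := conn_diff hΩo hΩc hcount
  refine ⟨_, ?_, ?_, ?_, hpre.image _ hg.continuousOn⟩
  · rintro _ ⟨w, ⟨hw1, hw2⟩, rfl⟩
    exact ⟨hw1, fun h => hw2 ⟨hw1, h⟩⟩
  · exact ⟨0, ⟨h0, fun h => hx.2 (by simpa using h.2)⟩, by simp⟩
  · exact ⟨1, ⟨h1, fun h => hy.2 (by simpa using h.2)⟩, by simp⟩

theorem dense_an {O : Set E} (hO : IsOpen O) (hc : Convex ℝ O) {D : E → ℂ} (hD : AnalyticOnNhd ℂ D O) {x0 : E}
    (hx0 : x0 ∈ O) (h0 : D x0 ≠ 0) {x : E} (hx : x ∈ O) : x ∈ closure {x | x ∈ O ∧ D x ≠ 0} := by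
  by_contra hcon
  have h1 : ∀ᶠ z in 𝓝 x, z ∉ {x | x ∈ O ∧ D x ≠ 0} := by
    rw [mem_closure_iff_frequently] at hcon
    exact not_frequently.1 hcon
  have h2 : D =ᶠ[𝓝 x] 0 := by
    filter_upwards [h1, hO.mem_nhds hx] with z hz hzO
    by_contra hne
    exact hz ⟨hzO, hne⟩
  exact h0 (hD.eqOn_zero_of_preconnected_of_eventuallyEq_zero hc.isPreconnected hx h2 hx0)

end ZrL
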