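import Pool.Agent.helper60.ZrL.LB
import Pool.Agent.helper60.Zr.M31

set_option autoImplicit false

/-!
# ZrL, module FA: final forms

`result_lower`: `hg.red hm.ne` (Zr/M26), `Mult.lead` (Zr/M17), `lower_bound`.

`result_pair`: `HasSys.transfer` (TI) along `h : Equ f g φ ψ V W` (its fields are exactly the hypotheses; `hZ` from `h.zs`) gives the system for `g`; `result_lower`: `finrank K M ≤ e * m`; so `e * (k - 1) < e * m`, `k - 1 < m`, `k ≤ m`.

`result_near`: the germs `F t` are reduced germs (`RedGerm`); `F s` is not identically zero near `0` (`Mult.ne`), so no `F t` is (`Equ.zero_imp` of Zr/M26 for `Equ (F 0) (F t)` and `Equ (F 0) (F s)`), so all are `Red` and have leading forms (`exists_lead`, `Mult` from `lead_order`). The system for `F 0` is transferred to `F t` (`htop t`). `semicont` (Zr/M10):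
multiplicity of `F t` at most `k` for `t` near `s`. `lower_bound` for `F t`: `finrank K M ≤ e * m_t`, so `k - 1 < m_t`. Hence `m_t = k`: `Mult (F t) k` (`lead_order`: the derivatives of order `< k` vanish and those of order `< k + 1` do not all vanish).
-/

noncomputable section

namespace ZrL

open Filter Topology Set

variable {K M : Type*} [Field K] [AddCommGroup M] [Module K M] [FiniteDimensional K M]
variable {E : Type*} [NormedAddCommGroup E] [NormedSpace ℂ E] [FiniteDimensional ℂ E]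

theorem result_lower {g : E → ℂ} (hg : Zr.RedGerm g) {m : ℕ} (hm : Zr.Mult g m) {e : ℕ}
    (hs : HasSys K M {x | g x = 0} e) : Module.finrank K M ≤ e * m := by
  have hg' := hg.red hm.ne
  obtain ⟨Q, hQ⟩ := hm.lead hg'
  exact lower_bound hg' hQ hs

/-- a bound for the product with a factor bounds the factor -/
theorem FA_le {e k m n : ℕ} (h1 : n ≤ e * m) (h2 : e * (k - 1) < n) : k ≤ m := by
  by_contra hcon
  rw [not_le] at hcon
  have h3 : m ≤ k - 1 := by omega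
  have h4 := Nat.mul_le_mul_left e h3
  omega

theorem result_pair {f g : E → ℂ} (hf : Zr.RedGerm f) (hg : Zr.RedGerm g) {φ ψ : E → E} {V W : Set E}
    (h : Zr.Equ f g φ ψ V W) {k m : ℕ} (hk : Zr.Mult f k) (hm : Zr.Mult g m) {e : ℕ}
    (hs : HasSys K M {x | f x = 0} e) (hbig : e * (k - 1) < Module.finrank K M) : k ≤ m := by
  have h1 : HasSys K M {x | g x = 0} e :=
    HasSys.transfer h.hV h.hW h.mφ h.mψ h.li h.ri h.cφ h.cψ h.z0 (fun z hz => h.zs z hz) hs
  exact FA_le (result_lower hg hm h1) hbig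

theorem result_near {F : ℝ → E → ℂ} {U : Set E} (hU : IsOpen U) (h0 : (0 : E) ∈ U)
    (hF : ContinuousOn (fun p : ℝ × E => F p.1 p.2) (Icc (0:ℝ) 1 ×ˢ U))
    (ha : ∀ t ∈ Icc (0:ℝ) 1, AnalyticOnNhd ℂ (F t) U) (hr : ∀ t ∈ Icc (0:ℝ) 1, Zr.RedGerm (F t))
    (htop : ∀ t ∈ Icc (0:ℝ) 1, ∃ (φ ψ : E → E) (V W : Set E), Zr.Equ (F 0) (F t) φ ψ V W) {s : ℝ}
    (hs : s ∈ Icc (0:ℝ) 1) {k : ℕ} (hk : Zr.Mult (F s) k) {e : ℕ} (hsys : HasSys K M {x | F 0 x = 0} e)
    (hbig : e * (k - 1) < Module.finrank K M) :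
    ∃ η : ℝ, 0 < η ∧ ∀ t ∈ Icc (0:ℝ) 1, |t - s| < η → Zr.Mult (F t) k := by
  have hne : ∀ t ∈ Icc (0:ℝ) 1, ¬ ∀ᶠ x in 𝓝 (0 : E), F t x = 0 := by
    intro t ht h1
    obtain ⟨φ, ψ, V, W, hE⟩ := htop t ht
    obtain ⟨φ', ψ', V', W', hE'⟩ := htop s hs
    exact hk.ne (hE'.zero_imp (hE.symm.zero_imp h1))
  have hred : ∀ t ∈ Icc (0:ℝ) 1, Zr.Red (F t) := fun t ht => (hr t ht).red (hne t ht)
  have hsys' : ∀ t ∈ Icc (0:ℝ) 1, HasSys K M {x | F t x = 0} e := by
    intro t ht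
    obtain ⟨φ, ψ, V, W, h⟩ := htop t ht
    exact HasSys.transfer h.hV h.hW h.mφ h.mψ h.li h.ri h.cφ h.cψ h.z0 (fun z hz => h.zs z hz) hsys
  obtain ⟨P, hP⟩ := hk.lead (hred s hs)
  obtain ⟨η, hη, h2⟩ := Zr.semicont hU h0 hF ha hs hP
  refine ⟨η, hη, fun t ht hts => ?_⟩
  obtain ⟨k', P', -, hP'⟩ := Zr.red_lead (hred t ht)
  have hle : k' ≤ k := h2 t ht hts k' P' hP'
  have hge : k ≤ k' := FA_le (lower_bound (hred t ht) hP' (hsys' t ht)) hbig
  have hkk : k' = k := le_antisymm hle hge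
  subst hkk
  refine ⟨(Zr.lead_order (hred t ht).1 hP' k').2 le_rfl, fun h3 => ?_⟩
  have h4 : k' + 1 ≤ k' := (Zr.lead_order (hred t ht).1 hP' (k' + 1)).1 fun i hi => by
    rcases Nat.lt_succ_iff_lt_or_eq.1 hi with h5 | h5
    · exact (Zr.lead_order (hred t ht).1 hP' k').2 le_rfl i h5
    · rw [h5]
      exact h3
  omega

end ZrL
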