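import Pool.Agent.helper60.ZrL.C1
import Pool.Agent.helper60.Zr.M7

set_option autoImplicit false

/-!
# ZrL, module Box: the box

`Box g R ρ`: on the box `‖h‖ < R`, `‖w‖ ≤ ρ` in `H × ℂ` the function `g` is analytic, its zeros satisfy `‖w‖ < ρ / 2`, and the regular zeros are dense in the zeros.

`Box.reg_open`: analytic functions are continuous. `Box.fib_fin`: isolated zeros of `w ↦ g (h, w)` on the compact disc (not identically zero, no zeros on `‖w‖ = ρ`; `wd_zeros` (M3) after rescaling, or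
`residues` (RB2) give the finite set directly). `Box.fib_conn`: image of `ball 0 ρ \ S` (`conn_diff`) under `w ↦ (h, w)`.
-/

noncomputable section

namespace ZrL

open Filter Topology Set

variable {H : Type*} [NormedAddCommGroup H] [NormedSpace ℂ H]

structure Box (g : H × ℂ → ℂ) (R ρ : ℝ) : Prop where
  hR : 0 < R
  hρ : 0 < ρ
  hRρ : R ≤ ρ / 4
  an : ∀ h : H, ‖h‖ < R → ∀ w : ℂ, ‖w‖ ≤ ρ → AnalyticAt ℂ g (h, w)
  ne : ∀ h : H, ‖h‖ < R → ∀ w : ℂ, ρ / 2 ≤ ‖w‖ → ‖w‖ ≤ ρ → g (h, w) ≠ 0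
  red : ∀ h : H, ‖h‖ < R → ∀ w : ℂ, ‖w‖ ≤ ρ → g (h, w) = 0 → (h, w) ∈ closure {q | g q = 0 ∧ fderiv ℂ g q ≠ 0}

/-- the open box minus the zeros of `g` -/
def Reg (g : H × ℂ → ℂ) (R ρ : ℝ) : Set (H × ℂ) := {q | ‖q.1‖ < R ∧ ‖q.2‖ < ρ ∧ g q ≠ 0}

/-- the fibre over `h` -/
def Fib (g : H × ℂ → ℂ) (ρ : ℝ) (h : H) : Set (H × ℂ) := {q | q.1 = h ∧ ‖q.2‖ < ρ ∧ g q ≠ 0}

/-- all zeros over `h` are simple -/
def Simp (g : H × ℂ → ℂ) (ρ : ℝ) (h : H) : Prop := ∀ w : ℂ, ‖w‖ ≤ ρ → g (h, w) = 0 → fderiv ℂ g (h, w) (0, 1) ≠ 0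

theorem Box.reg_open {g : H × ℂ → ℂ} {R ρ : ℝ} (hB : Box g R ρ) : IsOpen (Reg g R ρ) := by
  rw [isOpen_iff_mem_nhds]
  rintro ⟨h, w⟩ ⟨h1, h2, h3⟩
  have hc : ContinuousAt g (h, w) := (hB.an h h1 w h2.le).continuousAt
  have e1 : ∀ᶠ q : H × ℂ in 𝓝 (h, w), ‖q.1‖ < R :=
    (continuous_fst.norm.tendsto (h, w)).eventually (gt_mem_nhds h1)
  have e2 : ∀ᶠ q : H × ℂ in 𝓝 (h, w), ‖q.2‖ < ρ :=
    (continuous_snd.norm.tendsto (h, w)).eventually (gt_mem_nhds h2)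
  filter_upwards [e1, e2, hc.eventually_ne h3] with q h4 h5 h6
  exact ⟨h4, h5, h6⟩

theorem Box.an_fib {g : H × ℂ → ℂ} {R ρ : ℝ} (hB : Box g R ρ) {h : H} (hh : ‖h‖ < R) :
    AnalyticOnNhd ℂ (fun w : ℂ => g (h, w)) (Metric.closedBall 0 ρ) := by
  intro w hw
  have hw' : ‖w‖ ≤ ρ := by simpa using hw
  have h1 : AnalyticAt ℂ (fun w : ℂ => ((h, w) : H × ℂ)) w := analyticAt_const.prod analyticAt_id
  exact (hB.an h hh w hw').fun_comp h1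

theorem Box.fib_fin {g : H × ℂ → ℂ} {R ρ : ℝ} (hB : Box g R ρ) {h : H} (hh : ‖h‖ < R) :
    {w : ℂ | ‖w‖ ≤ ρ ∧ g (h, w) = 0}.Finite := by
  by_contra hinf
  obtain ⟨x, hx, hacc⟩ := Set.Infinite.exists_accPt_of_subset_isCompact hinf
    (isCompact_closedBall (0 : ℂ) ρ) (by
      intro w hw
      simpa using hw.1)
  rw [accPt_iff_frequently_nhdsNE] at hacc
  have hf : ∃ᶠ z in 𝓝[≠] x, g (h, z) = 0 := hacc.mono fun y hy => hy.2
  have hc : IsPreconnected (Metric.closedBall (0 : ℂ) ρ) := (convex_closedBall (0 : ℂ) ρ).isPreconnected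
  have h1 := (hB.an_fib hh).eqOn_zero_of_preconnected_of_frequently_eq_zero hc hx hf
  have hn : ‖(ρ : ℂ)‖ = ρ := by
    rw [Complex.norm_real, Real.norm_of_nonneg hB.hρ.le]
  have h2 : g (h, (ρ : ℂ)) = 0 := h1 (by simp [abs_of_pos hB.hρ])
  exact hB.ne h hh (ρ : ℂ) (by rw [hn]; linarith [hB.hρ]) hn.le h2

theorem Box.fib_conn {g : H × ℂ → ℂ} {R ρ : ℝ} (hB : Box g R ρ) {h : H} (hh : ‖h‖ < R) : IsPreconnected (Fib g ρ h) := by
  have h1 := conn_diff (C := Metric.ball (0 : ℂ) ρ) Metric.isOpen_ball (convex_ball (0 : ℂ) ρ)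
    (hB.fib_fin hh).countable
  have h2 : Fib g ρ h = (fun w : ℂ => ((h, w) : H × ℂ)) '' (Metric.ball (0 : ℂ) ρ \ {w : ℂ | ‖w‖ ≤ ρ ∧ g (h, w) = 0}) := by
    ext q
    obtain ⟨a, w⟩ := q
    constructor
    · rintro ⟨h3, h4, h5⟩
      change a = h at h3
      subst h3
      refine ⟨w, ⟨?_, fun h6 => h5 h6.2⟩, rfl⟩
      simpa using h4
    · rintro ⟨w', ⟨h3, h4⟩, h5⟩
      rw [← h5]
      have h6 : ‖w'‖ < ρ := by simpa using h3
      exact ⟨rfl, h6, fun h7 => h4 ⟨h6.le, h7⟩⟩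
  rw [h2]
  exact h1.image _ (by fun_prop)

end ZrL
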