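import Pool.Agent.helper60.ZrL.Defs

set_option autoImplicit false

/-!
# ZrL, module CR: extension of flat sections from a dense open set with locally connected trace

For `x ∈ X` choose a chart `O` (`IsLocSys.chart`: for every `u`, `w ↦ P x w u` is a flat section over `O ∩ X`), then (`hc`) `O' ∈ 𝓝 x`, `O' ⊆ O ∩ X`, `O' ∩ Y` preconnected; it is not empty (`x ∈ closure Y`). Pick `y0 ∈ O' ∩ Y`, `c := (P x y0).symm (s y0)`: on `O' ∩ Y` the flat sections `s` and `w ↦ P x w c` agree at `y0`, so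
everywhere (`IsSec.unique`). Thus for every `x ∈ X` there is `c` with `∀ᶠ w in 𝓝 x, w ∈ Y → s w = P x w c`. Define `s' x := c` (choice) for `x ∈ X`. For `x ∈ Y`: the property at `w = x` gives `s x = P x x c = c` (`IsLocSys.self`; `x ∈ Y` and the eventual property holds at `x` itself). `s'` is flat at `x`: by `IsLocSys` at `x`
(`X` open: `𝓝[X] x = 𝓝 x`), for `x'` near `x`: `∀ᶠ w in 𝓝 x', P x' w (P x x' c) = P x w c`, and `∀ᶠ w in 𝓝 x', w ∈ Y → s w = P x w c` (`eventually_eventually_nhds`), and `∀ᶠ w in 𝓝 x', w ∈ Y → s w = P x' w (s' x')`. As `x' ∈ closure Y` there is such a `w ∈ Y`: `P x' w (s' x') = P x' w (P x x' c)`, so `s' x' = P x x' c = P x x' (s' x)`.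
-/

noncomputable section

namespace ZrL

open Filter Topology Set

variable {T K M : Type*} [TopologicalSpace T] [Field K] [AddCommGroup M] [Module K M]

theorem cross {X Y : Set T} (hX : IsOpen X) {P : T → T → (M ≃ₗ[K] M)} (hP : IsLocSys X P) (hY : IsOpen Y) (hYX : Y ⊆ X)
    (hd : X ⊆ closure Y) (hc : ∀ x ∈ X, ∀ O ∈ 𝓝 x, ∃ O' ∈ 𝓝 x, O' ⊆ O ∧ IsPreconnected (O' ∩ Y)) {s : T → M}
    (hs : IsSec P Y s) : ∃ s' : T → M, IsSec P X s' ∧ ∀ y ∈ Y, s' y = s y := by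
  have key : ∀ x ∈ X, ∃ c : M, ∀ᶠ w in 𝓝 x, w ∈ Y → s w = P x w c := by
    intro x hx
    obtain ⟨O, hO, hxO, hch⟩ := hP.chart hx
    obtain ⟨O', hO', hO'O, hpre⟩ := hc x hx (O ∩ X) (inter_mem (hO.mem_nhds hxO) (hX.mem_nhds hx))
    obtain ⟨y0, hy0, hy0Y⟩ := mem_closure_iff_nhds.1 (hd hx) O' hO'
    refine ⟨(P x y0).symm (s y0), ?_⟩
    filter_upwards [hO'] with w hw hwY
    exact IsSec.unique (hs.mono inter_subset_right) ((hch ((P x y0).symm (s y0))).mono (fun z hz => hO'O hz.1)) hpre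
      ⟨hy0, hy0Y⟩ (by simp) ⟨hw, hwY⟩
  choose! c hc' using key
  refine ⟨c, fun x hx => ?_, fun y hy => ?_⟩
  · rw [hX.nhdsWithin_eq hx]
    have h1 : ∀ᶠ y in 𝓝 x, ∀ᶠ w in 𝓝[X] y, ∀ u : M, P y w (P x y u) = P x w u := by
      have := hP x hx
      rwa [hX.nhdsWithin_eq hx] at this
    have h2 := (hc' x hx).eventually_nhds
    filter_upwards [h1, h2, hX.mem_nhds hx] with y hy1 hy2 hyX
    rw [hX.nhdsWithin_eq hyX] at hy1
    have hf : ∃ᶠ w in 𝓝 y, w ∈ Y := mem_closure_iff_frequently.1 (hd hyX)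
    obtain ⟨w, hwY, ⟨hw1, hw2⟩, hw3⟩ := (hf.and_eventually ((hy1.and hy2).and (hc' y hyX))).exists
    have e1 := hw2 hwY
    have e2 := hw3 hwY
    rw [← hw1 (c x)] at e1
    exact (P y w).injective (e2.symm.trans e1)
  · have h1 := (hc' y (hYX hy)).self_of_nhds hy
    rw [h1, hP.self (hYX hy)]

end ZrL
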