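import Pool.Agent.helper60.ZrL.LH

set_option autoImplicit false

/-!
# ZrL, module CT: continuation of a flat section over one generic fibre

`w₁ := 3 / 4 * ρ` (a point with `ρ / 2 ≤ ‖w₁‖ < ρ`). `T = {q | ‖q.1‖ < R ∧ ‖q.2 - w₁‖ < ρ / 8}` is open, convex and contained in `Reg g R ρ` (`Box.ne`). By `convex_sec` (T2) there is a flat section `σ` over `T` with `σ (a, w₁) = s (a, w₁)`.
Say `h` is good if there is a flat section over the fibre `Fib g ρ h` with value `σ (h, w₁)` at `(h, w₁)`. `B₀ = {h | h ∈ ball 0 R ∧ D h ≠ 0}` is preconnected (`conn_an`, C1). For `b ∈ B₀` let `ε` be as in `loc_triv` (LH): if some `b' ∈ ball b ε` is good then there is a flat section `s'` over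
`{q | q.1 ∈ ball b ε, ‖q.2‖ < ρ, g q ≠ 0}` with `s' (b', w₁) = σ (b', w₁)`; on the convex set `{q ∈ T | q.1 ∈ ball b ε}` both are flat sections, so `s' (h, w₁) = σ (h, w₁)` for all `h ∈ ball b ε` (`IsSec.unique`), and every `h ∈ ball b ε` is good (`CT_loc`). So `(h good)` is locally constant on `B₀` (`IsPreconnected.induction₂`), `a` is good
(`s` itself), so all `h ∈ B₀` are good. Define `s' (h, w) := t (h, w)` for `h ∈ B₀`, where `t` is any flat section over `Fib g ρ h` with `t (h, w₁) = σ (h, w₁)` (independent of the choice: `Box.fib_conn`, `IsSec.unique`). By uniqueness `s'` is equal to the section of `CT_loc` over `ball b ε ∩ B₀`, so `s'` is a flat section;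
`s' (a, w) = s (a, w)` for `‖w‖ < ρ`, `g (a, w) ≠ 0` (uniqueness on the fibre).
-/

noncomputable section

namespace ZrL

open Filter Topology Set

variable {K M : Type*} [Field K] [AddCommGroup M] [Module K M]
variable {H : Type*} [NormedAddCommGroup H] [NormedSpace ℂ H] [FiniteDimensional ℂ H]

/-- the base point of the fibres -/
private def CT_w (ρ : ℝ) : ℂ := ((3 / 4 * ρ : ℝ) : ℂ)

private theorem CT_w_norm {ρ : ℝ} (hρ : 0 < ρ) : ‖CT_w ρ‖ = 3 / 4 * ρ := by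
  unfold CT_w
  rw [Complex.norm_real, Real.norm_of_nonneg (by positivity)]

private theorem CT_disc {ρ : ℝ} (hρ : 0 < ρ) {w : ℂ} (hw : w ∈ Metric.ball (CT_w ρ) (ρ / 8)) :
    ρ / 2 ≤ ‖w‖ ∧ ‖w‖ < ρ := by
  rw [mem_ball_iff_norm] at hw
  have h1 := CT_w_norm hρ
  have h2 : ‖CT_w ρ‖ ≤ ‖w‖ + ‖w - CT_w ρ‖ := by
    have := norm_sub_le w (w - CT_w ρ)
    rwa [sub_sub_cancel] at this
  have h3 : ‖w‖ ≤ ‖CT_w ρ‖ + ‖w - CT_w ρ‖ := by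
    have := norm_add_le (CT_w ρ) (w - CT_w ρ)
    rwa [add_sub_cancel] at this
  constructor <;> linarith

private theorem CT_mem {ρ : ℝ} (hρ : 0 < ρ) : CT_w ρ ∈ Metric.ball (CT_w ρ) (ρ / 8) :=
  Metric.mem_ball_self (by positivity)

private theorem CT_conn (b : H) (ε : ℝ) (ρ : ℝ) :
    IsPreconnected (Metric.ball b ε ×ˢ Metric.ball (CT_w ρ) (ρ / 8)) :=
  ((convex_ball b ε).isPreconnected).prod ((convex_ball (CT_w ρ) (ρ / 8)).isPreconnected)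

/-- the section `σ` along the base points is continued over a neighbourhood of a generic `b` -/
private theorem CT_loc {g : H × ℂ → ℂ} {R ρ : ℝ} (hB : Box g R ρ) {P : H × ℂ → H × ℂ → (M ≃ₗ[K] M)}
    (hP : IsLocSys (Reg g R ρ) P) {σ : H × ℂ → M}
    (hσ : IsSec P (Metric.ball (0 : H) R ×ˢ Metric.ball (CT_w ρ) (ρ / 8)) σ) {b : H} (hb : ‖b‖ < R) (hs : Simp g ρ b) :
    ∃ ε : ℝ, 0 < ε ∧ Metric.ball b ε ⊆ Metric.ball 0 R ∧ ∀ b' ∈ Metric.ball b ε,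
      (∃ t : H × ℂ → M, IsSec P (Fib g ρ b') t ∧ t (b', CT_w ρ) = σ (b', CT_w ρ)) → ∃ s' : H × ℂ → M,
        IsSec P {q | q.1 ∈ Metric.ball b ε ∧ ‖q.2‖ < ρ ∧ g q ≠ 0} s' ∧
          ∀ h ∈ Metric.ball b ε, s' (h, CT_w ρ) = σ (h, CT_w ρ) := by
  obtain ⟨ε, hε, hεR, hl⟩ := loc_triv hB hP hb hs
  refine ⟨ε, hε, hεR, fun b' hb' => ?_⟩
  rintro ⟨t, ht, htσ⟩
  obtain ⟨s', hs', hst⟩ := hl b' hb' t ht
  have hw := CT_disc hB.hρ (CT_mem hB.hρ)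
  refine ⟨s', hs', fun h hh => ?_⟩
  have hsub : Metric.ball b ε ×ˢ Metric.ball (CT_w ρ) (ρ / 8) ⊆
      {q : H × ℂ | q.1 ∈ Metric.ball b ε ∧ ‖q.2‖ < ρ ∧ g q ≠ 0} := by
    rintro ⟨x, w⟩ ⟨hx, hw1⟩
    have h1 := CT_disc hB.hρ hw1
    exact ⟨hx, h1.2, hB.ne x (mem_ball_zero_iff.1 (hεR hx)) w h1.1 h1.2.le⟩
  have hsub2 : Metric.ball b ε ×ˢ Metric.ball (CT_w ρ) (ρ / 8) ⊆
      Metric.ball (0 : H) R ×ˢ Metric.ball (CT_w ρ) (ρ / 8) := prod_mono_left hεR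
  refine (hs'.mono hsub).unique (hσ.mono hsub2) (CT_conn b ε ρ) (x := (b', CT_w ρ)) ⟨hb', CT_mem hB.hρ⟩ ?_
    ⟨hh, CT_mem hB.hρ⟩
  rw [hst (CT_w ρ) hw.1 hw.2, htσ]

theorem contin {g : H × ℂ → ℂ} {R ρ : ℝ} (hB : Box g R ρ) {P : H × ℂ → H × ℂ → (M ≃ₗ[K] M)}
    (hP : IsLocSys (Reg g R ρ) P) {D : H → ℂ} (hD : AnalyticOnNhd ℂ D (Metric.ball 0 R))
    (hs : ∀ h ∈ Metric.ball (0 : H) R, D h ≠ 0 → Simp g ρ h) {a : H} (ha : ‖a‖ < R) (hDa : D a ≠ 0) {s : H × ℂ → M}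
    (h : IsSec P (Fib g ρ a) s) :
    ∃ s' : H × ℂ → M, IsSec P {q | ‖q.1‖ < R ∧ D q.1 ≠ 0 ∧ ‖q.2‖ < ρ ∧ g q ≠ 0} s' ∧
      ∀ w : ℂ, ‖w‖ < ρ → g (a, w) ≠ 0 → s' (a, w) = s (a, w) := by
  classical
  have hw := CT_disc hB.hρ (CT_mem hB.hρ)
  have haR : a ∈ Metric.ball (0 : H) R := mem_ball_zero_iff.2 ha
  -- the section along the base points
  obtain ⟨σ, hσ, hσa⟩ : ∃ σ : H × ℂ → M, IsSec P (Metric.ball (0 : H) R ×ˢ Metric.ball (CT_w ρ) (ρ / 8)) σ ∧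
      σ (a, CT_w ρ) = s (a, CT_w ρ) := by
    refine convex_sec hB.reg_open hP (Metric.isOpen_ball.prod Metric.isOpen_ball)
      ((convex_ball _ _).prod (convex_ball _ _)) ?_ ⟨haR, CT_mem hB.hρ⟩ _
    rintro ⟨x, w⟩ ⟨hx, hw1⟩
    have h1 := CT_disc hB.hρ hw1
    have hx' := mem_ball_zero_iff.1 hx
    exact ⟨hx', h1.2, hB.ne x hx' w h1.1 h1.2.le⟩
  -- good points
  set B0 : Set H := {x | x ∈ Metric.ball (0 : H) R ∧ D x ≠ 0} with hB0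
  set Good : H → Prop := fun b => ∃ t : H × ℂ → M, IsSec P (Fib g ρ b) t ∧ t (b, CT_w ρ) = σ (b, CT_w ρ) with hGood
  have hfib : ∀ b ε, ∀ x ∈ Metric.ball b ε,
      Fib g ρ x ⊆ {q : H × ℂ | q.1 ∈ Metric.ball b ε ∧ ‖q.2‖ < ρ ∧ g q ≠ 0} := by
    rintro b ε x hx q ⟨h1, h2, h3⟩
    refine ⟨?_, h2, h3⟩
    rw [h1]
    exact hx
  have hloc : ∀ b ∈ B0, ∃ ε : ℝ, 0 < ε ∧ ∀ b' ∈ Metric.ball b ε, Good b' → ∃ s' : H × ℂ → M,
        IsSec P {q | q.1 ∈ Metric.ball b ε ∧ ‖q.2‖ < ρ ∧ g q ≠ 0} s' ∧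
          ∀ h ∈ Metric.ball b ε, s' (h, CT_w ρ) = σ (h, CT_w ρ) := by
    intro b hb
    obtain ⟨ε, h1, -, h2⟩ := CT_loc hB hP hσ (mem_ball_zero_iff.1 hb.1) (hs b hb.1 hb.2)
    exact ⟨ε, h1, h2⟩
  have hconn : IsPreconnected B0 := conn_an Metric.isOpen_ball (convex_ball _ _) hD
  have haB : a ∈ B0 := ⟨haR, hDa⟩
  have hgood : ∀ b ∈ B0, Good b := by
    intro b hb
    have key := hconn.induction₂ (P := fun x y => (Good x ↔ Good y)) (fun x hx => ?_)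
      (fun x y z _ _ _ h1 h2 => h1.trans h2) (fun x y _ _ h1 => h1.symm) haB hb
    · exact key.1 ⟨s, h, hσa.symm⟩
    · obtain ⟨ε, hε, h1⟩ := hloc x hx
      have h2 : ∀ y ∈ Metric.ball x ε, ∀ z ∈ Metric.ball x ε, Good y → Good z := by
        intro y hy z hz hgy
        obtain ⟨s', h3, h4⟩ := h1 y hy hgy
        exact ⟨s', h3.mono (hfib x ε z hz), h4 z hz⟩
      filter_upwards [mem_nhdsWithin_of_mem_nhds (Metric.ball_mem_nhds x hε)] with y hy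
      exact ⟨h2 x (Metric.mem_ball_self hε) y hy, h2 y hy x (Metric.mem_ball_self hε)⟩
  choose! t ht htσ using hgood
  have hfm : ∀ x : H, ‖x‖ < R → (x, CT_w ρ) ∈ Fib g ρ x := fun x hx => ⟨rfl, hw.2, hB.ne x hx _ hw.1 hw.2.le⟩
  refine ⟨fun q => t q.1 q, ?_, ?_⟩
  · rintro x ⟨hx1, hx2, hx3, hx4⟩
    have hxB : x.1 ∈ B0 := ⟨mem_ball_zero_iff.2 hx1, hx2⟩
    obtain ⟨ε, hε, h1⟩ := hloc x.1 hxB
    obtain ⟨s', h2, h3⟩ := h1 x.1 (Metric.mem_ball_self hε) ⟨t x.1, ht x.1 hxB, htσ x.1 hxB⟩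
    have heq : ∀ q : H × ℂ, q.1 ∈ Metric.ball x.1 ε → ‖q.1‖ < R → D q.1 ≠ 0 → ‖q.2‖ < ρ → g q ≠ 0 →
        t q.1 q = s' q := by
      intro q hq0 hq1 hq2 hq3 hq4
      have hqB : q.1 ∈ B0 := ⟨mem_ball_zero_iff.2 hq1, hq2⟩
      refine (ht q.1 hqB).unique (h2.mono (hfib x.1 ε q.1 hq0)) (hB.fib_conn hq1) (hfm q.1 hq1) ?_ ⟨rfl, hq3, hq4⟩
      rw [htσ q.1 hqB, h3 q.1 hq0]
    have h4 := h2 x ⟨Metric.mem_ball_self hε, hx3, hx4⟩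
    rw [eventually_nhdsWithin_iff] at h4 ⊢
    have h5 : ∀ᶠ y : H × ℂ in 𝓝 x, y.1 ∈ Metric.ball x.1 ε :=
      continuous_fst.continuousAt.eventually (Metric.ball_mem_nhds x.1 hε)
    filter_upwards [h4, h5] with y h6 h7
    rintro ⟨hy1, hy2, hy3, hy4⟩
    show t y.1 y = P x y (t x.1 x)
    rw [heq y h7 hy1 hy2 hy3 hy4, heq x (Metric.mem_ball_self hε) hx1 hx2 hx3 hx4]
    exact h6 ⟨h7, hy3, hy4⟩
  · intro w hw1 hw2
    show t a (a, w) = s (a, w)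
    refine (ht a haB).unique h (hB.fib_conn ha) (hfm a ha) ?_ ⟨rfl, hw1, hw2⟩
    rw [htσ a haB, hσa]

end ZrL
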