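import Pool.Agent.helper60.ZrL.Box
import Pool.Agent.helper60.Zr.RD

set_option autoImplicit false

/-!
# ZrL, module DI: an analytic function on the base whose non-zeros are points with simple zeros over them

Compare Zr/RD.lean (module RD), whose lemmas `RD_Z`, ... you can use with `E := H × ℂ`, `v := ((0 : H), (1 : ℂ))`, `x := ((h : H), (0 : ℂ))`, circle radius `r := 3 / 4 * ρ`: `(h, a) + w • (0, 1) = (h, a + w)`. For `‖(h, a)‖ < R` (so `‖h‖ < R`, `‖a‖ < R ≤ ρ / 4`) and `‖w‖ = r`: `ρ / 2 ≤ ‖a + w‖ ≤ ρ`, so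
`psum_an` (RB1) with `α := R` applies to `f := g` (analytic, nonzero there), and `p ↦ psum g v r p (h, 0)` is analytic in `h ∈ ball 0 R` for every `p`.
By `residues` (RB2) applied to `w ↦ g (h, w)` (radius `r`): `psum g v r p (h, 0) = ∑ w ∈ Z h, (m h w) * w ^ p` with `Z h` = the zeros of `g (h, ·)` in the disc `‖w‖ < r`, equivalently `‖w‖ ≤ ρ` (`Box.ne`). For `p = 0` this is a natural number, continuous in `h`, so constant on the (connected) ball, equal to `n0`; so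
`(Z h).card ≤ n0`. Let `d` be the maximum of `(Z h).card` over `‖h‖ < R`. `D h := symm (discP d) (fun p => psum g v r p (h, 0))` is analytic on the ball, and `D h ≠ 0` iff `(Z h).card = d` (`symm_lt`, `symm_disc_ne` in RC). Hence `D` is not identically zero.

`D h ≠ 0 → Simp g ρ h`: let `(Z h).card = d` and suppose `w0 ∈ Z h`, `fderiv ℂ g (h, w0) (0, 1) = 0`. `wd_zeros` (M3), applied to `w ↦ g (h, ρ * w)` (rescaled to the unit disc), gives: for small `η > 0` the winding number of `θ ↦ g (h, w0 + η * cis θ)` is `≥ 2` (multiple zero). Fix `η` so small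
that the discs of radius `η` around the `d` points of `Z h` are disjoint. For `h'` near `h`: this winding number is the same (`Wd.close` or `Wd.htpy`, compactness of the circle), there is a zero of `g (h', ·)` in each of the `d` discs (`M7_persist`), so exactly one in each (card at most `d`). By `generic_simple` (M5; `B` := the open set
`{‖h‖ < R, ‖w‖ < ρ}`, where the regular zeros are dense by `Box.red`; centre `x = (h, 0)`, `v := (0, 3 / 4 * ρ)`) there is `a` arbitrarily small such that all zeros on the disc `(h, 0) + a + w • v`, `‖w‖ ≤ 1` have nonzero derivative in the direction `v`; the points of this disc are `(h + a.1, a.2 + 3 / 4 * ρ * w)`, so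
all zeros of `g (h + a.1, ·)` with `‖w‖ ≤ ρ` are simple if `a` is small. So over `h' = h + a.1` near `h` there is exactly one zero in the disc around `w0` and it is simple, and (`wd_zeros` applied to the disc of radius `η` around `w0`) the winding number is `1`: contradiction.
-/

noncomputable section

namespace ZrL

open Filter Topology Set Zr

variable {H : Type*} [NormedAddCommGroup H] [NormedSpace ℂ H] [FiniteDimensional ℂ H]

omit [FiniteDimensional ℂ H] in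
theorem DI_pt (x : H × ℂ) (r : ℂ) (w : ℂ) : x + w • ((0 : H), r) = (x.1, x.2 + w * r) := by
  ext
  · simp
  · simp

omit [FiniteDimensional ℂ H] in
theorem DI_fst {R : ℝ} {x : H × ℂ} (hx : ‖x‖ < R) : ‖x.1‖ < R ∧ ‖x.2‖ < R :=
  ⟨lt_of_le_of_lt (norm_fst_le x) hx, lt_of_le_of_lt (norm_snd_le x) hx⟩

omit [FiniteDimensional ℂ H] in
theorem DI_an {g : H × ℂ → ℂ} {R ρ : ℝ} (hB : Box g R ρ) {x : H × ℂ} (hx : ‖x‖ < R) {w : ℂ} (hw : ‖w‖ ≤ 1) :
    AnalyticAt ℂ g (x + w • ((0 : H), ((3 / 4 * ρ : ℝ) : ℂ))) := by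
  obtain ⟨h1, h2⟩ := DI_fst hx
  rw [DI_pt]
  refine hB.an _ h1 _ ?_
  have h3 : ‖w * ((3 / 4 * ρ : ℝ) : ℂ)‖ ≤ 3 / 4 * ρ := by
    rw [norm_mul, Complex.norm_real, Real.norm_eq_abs, abs_of_pos (by have := hB.hρ; positivity)]
    have := hB.hρ
    nlinarith
  have h4 := norm_add_le x.2 (w * ((3 / 4 * ρ : ℝ) : ℂ))
  have h5 := hB.hRρ
  linarith

omit [FiniteDimensional ℂ H] in
theorem DI_ne {g : H × ℂ → ℂ} {R ρ : ℝ} (hB : Box g R ρ) {x : H × ℂ} (hx : ‖x‖ < R) {w : ℂ} (hw : ‖w‖ = 1) :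
    g (x + w • ((0 : H), ((3 / 4 * ρ : ℝ) : ℂ))) ≠ 0 := by
  obtain ⟨h1, h2⟩ := DI_fst hx
  rw [DI_pt]
  have h3 : ‖w * ((3 / 4 * ρ : ℝ) : ℂ)‖ = 3 / 4 * ρ := by
    rw [norm_mul, Complex.norm_real, Real.norm_eq_abs, abs_of_pos (by have := hB.hρ; positivity), hw, one_mul]
  have h5 := hB.hRρ
  refine hB.ne _ h1 _ ?_ ?_
  · have h4 : ‖w * ((3 / 4 * ρ : ℝ) : ℂ)‖ ≤ ‖x.2 + w * ((3 / 4 * ρ : ℝ) : ℂ)‖ + ‖x.2‖ := by
      calc ‖w * ((3 / 4 * ρ : ℝ) : ℂ)‖ = ‖(x.2 + w * ((3 / 4 * ρ : ℝ) : ℂ)) - x.2‖ := by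
            rw [add_sub_cancel_left]
        _ ≤ _ := norm_sub_le _ _
    linarith
  · have h4 := norm_add_le x.2 (w * ((3 / 4 * ρ : ℝ) : ℂ))
    linarith

omit [FiniteDimensional ℂ H] in
/-- zeros on a disc over `x` are zeros over `x.1` -/
theorem DI_shift {g : H × ℂ → ℂ} {R ρ : ℝ} (hB : Box g R ρ) {x : H × ℂ} (hx : ‖x‖ < R) {w : ℂ} (hw : ‖w‖ ≤ 1)
    (h0 : g (x + w • ((0 : H), ((3 / 4 * ρ : ℝ) : ℂ))) = 0) :
    ‖w + x.2 / ((3 / 4 * ρ : ℝ) : ℂ)‖ < 1 ∧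
      g (((x.1, 0) : H × ℂ) + (w + x.2 / ((3 / 4 * ρ : ℝ) : ℂ)) • ((0 : H), ((3 / 4 * ρ : ℝ) : ℂ))) = 0 := by
  have hρ := hB.hρ
  have hr : (0 : ℝ) < 3 / 4 * ρ := by positivity
  have hrc : ((3 / 4 * ρ : ℝ) : ℂ) ≠ 0 := by exact_mod_cast hr.ne'
  obtain ⟨h1, h2⟩ := DI_fst hx
  rw [DI_pt] at h0
  have e1 : (w + x.2 / ((3 / 4 * ρ : ℝ) : ℂ)) * ((3 / 4 * ρ : ℝ) : ℂ) = x.2 + w * ((3 / 4 * ρ : ℝ) : ℂ) := by
    rw [add_mul, div_mul_cancel₀ _ hrc, add_comm]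
  have h5 := hB.hRρ
  have h3 : ‖w * ((3 / 4 * ρ : ℝ) : ℂ)‖ ≤ 3 / 4 * ρ := by
    rw [norm_mul, Complex.norm_real, Real.norm_eq_abs, abs_of_pos hr]
    nlinarith
  have h4 : ‖x.2 + w * ((3 / 4 * ρ : ℝ) : ℂ)‖ ≤ ρ := by
    have h4 := norm_add_le x.2 (w * ((3 / 4 * ρ : ℝ) : ℂ))
    linarith
  have h6 : ‖x.2 + w * ((3 / 4 * ρ : ℝ) : ℂ)‖ < ρ / 2 := by
    by_contra hcon
    push Not at hcon
    exact hB.ne _ h1 _ hcon h4 h0
  constructor
  · have h7 : ‖w + x.2 / ((3 / 4 * ρ : ℝ) : ℂ)‖ * (3 / 4 * ρ) < ρ / 2 := by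
      rw [← e1, norm_mul, Complex.norm_real, Real.norm_eq_abs, abs_of_pos hr] at h6
      exact h6
    by_contra hcon
    push Not at hcon
    nlinarith
  · rw [DI_pt]
    show g (x.1, 0 + (w + x.2 / ((3 / 4 * ρ : ℝ) : ℂ)) * ((3 / 4 * ρ : ℝ) : ℂ)) = 0
    rw [zero_add, e1]
    exact h0

/-- a double zero over `h` splits -/
theorem DI_simple {g : H × ℂ → ℂ} {R ρ : ℝ} (hB : Box g R ρ) {h : H} (hh : ‖h‖ < R) {Z : Finset ℂ}
    (hZ : ∀ w, w ∈ Z ↔ ‖w‖ < 1 ∧ g (((h, 0) : H × ℂ) + w • ((0 : H), ((3 / 4 * ρ : ℝ) : ℂ))) = 0)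
    (hmax : ∀ x : H × ℂ, ‖x‖ < R → ∀ S : Finset ℂ,
      (∀ s ∈ S, ‖s‖ ≤ 1 ∧ g (x + s • ((0 : H), ((3 / 4 * ρ : ℝ) : ℂ))) = 0) → S.card ≤ Z.card)
    {w0 : ℂ} (hw0 : w0 ∈ Z) :
    fderiv ℂ g (((h, 0) : H × ℂ) + w0 • ((0 : H), ((3 / 4 * ρ : ℝ) : ℂ))) ((0 : H), ((3 / 4 * ρ : ℝ) : ℂ)) ≠ 0 := by
  classical
  intro hfd
  obtain ⟨v, hv⟩ : ∃ v : H × ℂ, v = ((0 : H), ((3 / 4 * ρ : ℝ) : ℂ)) := ⟨_, rfl⟩
  obtain ⟨b, hb⟩ : ∃ b : H × ℂ, b = (h, 0) := ⟨_, rfl⟩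
  have hbn : ‖b‖ < R := by
    rw [hb, Prod.norm_def]
    simp only [norm_zero]
    exact max_lt hh hB.hR
  have hAn : ∀ x : H × ℂ, ‖x‖ < R → ∀ w : ℂ, ‖w‖ ≤ 1 → AnalyticAt ℂ g (x + w • v) := by
    intro x hx w hw
    rw [hv]
    exact DI_an hB hx hw
  have hNe : ∀ x : H × ℂ, ‖x‖ < R → ∀ w : ℂ, ‖w‖ = 1 → g (x + w • v) ≠ 0 := by
    intro x hx w hw
    rw [hv]
    exact DI_ne hB hx hw
  rw [← hv] at hfd hZ hmax
  rw [← hb] at hfd hZ
  have hρ := hB.hρ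
  -- the open box
  let B : Set (H × ℂ) := {q | ‖q.1‖ < R ∧ ‖q.2‖ < ρ}
  have hBo : IsOpen B := by
    have h1 : IsOpen {q : H × ℂ | ‖q.1‖ < R} := isOpen_lt (by fun_prop) (by fun_prop)
    have h2 : IsOpen {q : H × ℂ | ‖q.2‖ < ρ} := isOpen_lt (by fun_prop) (by fun_prop)
    exact h1.inter h2
  have hBan : ∀ y ∈ B, AnalyticAt ℂ g y := fun y hy => hB.an y.1 hy.1 y.2 hy.2.le
  have hBred : ∀ y ∈ B, g y = 0 → y ∈ closure {q | g q = 0 ∧ fderiv ℂ g q ≠ 0} :=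
    fun y hy h0 => hB.red y.1 hy.1 y.2 hy.2.le h0
  have hbB : ∀ w : ℂ, ‖w‖ ≤ 1 → b + w • v ∈ B := by
    intro w hw
    rw [hb, hv, DI_pt]
    refine ⟨hh, ?_⟩
    show ‖0 + w * ((3 / 4 * ρ : ℝ) : ℂ)‖ < ρ
    rw [zero_add, norm_mul, Complex.norm_real, Real.norm_eq_abs, abs_of_pos (by positivity)]
    nlinarith
  obtain ⟨Z', m, hZ', -, -, hm2, hloc, -⟩ := wd_zeros (h := fun w => g (b + w • v))
    (fun w hw => M7_an (hAn b hbn w hw)) (hNe b hbn)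
  obtain ⟨hw1, hw2⟩ := (hZ w0).1 hw0
  have hw0' : w0 ∈ Z' := (hZ' w0).2 ⟨hw1, hw2⟩
  have hm2' : 2 ≤ m w0 := by
    refine hm2 w0 hw0' ?_
    rw [M7_deriv (hAn b hbn w0 hw1.le)]
    exact hfd
  -- the radius
  have hsmall : ∀ c : ℝ, 0 < c → ∀ᶠ η : ℝ in 𝓝[>] 0, η < c := fun c hc =>
    Filter.mem_of_superset (Ioo_mem_nhdsGT hc) (fun η hη => hη.2)
  have hpos : ∀ᶠ η : ℝ in 𝓝[>] 0, 0 < η := self_mem_nhdsWithin
  have hsep : ∀ᶠ η : ℝ in 𝓝[>] 0, ∀ p ∈ Z ×ˢ Z, p.1 ≠ p.2 → 2 * η < ‖p.1 - p.2‖ := by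
    rw [Filter.eventually_all_finset]
    intro p _
    by_cases h : p.1 = p.2
    · exact Filter.Eventually.of_forall (fun η h' => absurd h h')
    · have := norm_pos_iff.2 (sub_ne_zero.2 h)
      filter_upwards [hsmall (‖p.1 - p.2‖ / 2) (by positivity)] with η hη _
      linarith
  obtain ⟨η, hη0, hη1, hηsep, hηW⟩ :=
    (hpos.and ((hsmall (1 - ‖w0‖) (by linarith)).and (hsep.and (hloc w0 hw0')))).exists
  have hηc : ‖(η : ℂ)‖ = η := by rw [Complex.norm_real, Real.norm_eq_abs, abs_of_pos hη0]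
  have hsep' : ∀ w ∈ Z, ∀ w' ∈ Z, w ≠ w' → 2 * η < ‖w - w'‖ := fun w hw w' hw' hne =>
    hηsep (w, w') (Finset.mem_product.2 ⟨hw, hw'⟩) hne
  have hK : IsCompact (Metric.sphere w0 η) := isCompact_sphere _ _
  have hK1 : ∀ w ∈ Metric.sphere w0 η, ‖w‖ < 1 := by
    intro w hw
    have h1 : ‖w - w0‖ = η := by rwa [mem_sphere_iff_norm] at hw
    have h2 : ‖w‖ ≤ ‖w - w0‖ + ‖w0‖ := by
      calc ‖w‖ = ‖(w - w0) + w0‖ := by rw [sub_add_cancel]
        _ ≤ _ := norm_add_le _ _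
    linarith
  have hK0 : ∀ w ∈ Metric.sphere w0 η, g (b + w • v) ≠ 0 := by
    intro w hw h0
    have h1 : ‖w - w0‖ = η := by rwa [mem_sphere_iff_norm] at hw
    have h2 : w ∈ Z := (hZ w).2 ⟨hK1 w hw, h0⟩
    have h3 : w ≠ w0 := by
      rintro rfl
      rw [sub_self, norm_zero] at h1
      linarith
    have := hsep' w h2 w0 hw0 h3
    linarith
  have hγc : Continuous (fun θ : ℝ => w0 + (η : ℂ) * cis θ) := continuous_const.add (continuous_const.mul cis_cont)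
  have E1 := M7_wd (G := g) hBo (fun y hy => (hBan y hy).continuousAt) (γ := fun θ : ℝ => w0 + (η : ℂ) * cis θ)
    hγc (fun θ => by simp only [cis_per]) (b := b) (v := v) hK
    (fun θ => by
      rw [mem_sphere_iff_norm, add_sub_cancel_left, norm_mul, hηc, cis_norm, mul_one])
    (fun w hw => hbB w (hK1 w hw).le) hK0 hηW
  have E2 : ∀ᶠ b' in 𝓝 b, ∀ w ∈ Z, ∃ w' ∈ Metric.ball w η, ‖w'‖ ≤ 1 ∧ g (b' + w' • v) = 0 := by
    rw [Filter.eventually_all_finset]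
    intro w hw
    obtain ⟨h1, h2⟩ := (hZ w).1 hw
    exact M7_persist hBo hBan hbB (hNe b hbn) h1.le h2 (Metric.ball_mem_nhds w hη0)
  have E3 : ∀ᶠ b' in 𝓝 b, ‖b'‖ < R := (continuous_norm.tendsto b).eventually (gt_mem_nhds hbn)
  obtain ⟨ε, hε, hεb⟩ := Metric.eventually_nhds_iff_ball.1 (E1.and (E2.and E3))
  obtain ⟨a, ha, -, -, haS⟩ := generic_simple hBo hBan hBred hbB (hNe b hbn) hε
  obtain ⟨F1, F2, F3⟩ := hεb (b + a) (by rwa [mem_ball_iff_norm, add_sub_cancel_left])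
  choose! c hc using F2
  have hin : ∀ z : ℂ, ‖z‖ ≤ 1 → ‖w0 + (η : ℂ) * z‖ ≤ 1 := by
    intro z hz
    have h1 := norm_add_le w0 ((η : ℂ) * z)
    rw [norm_mul, hηc] at h1
    nlinarith
  obtain ⟨Z2, m2, hZ2, -, hm21, -, -, hW2⟩ := wd_zeros (h := fun z : ℂ => g (b + a + (w0 + (η : ℂ) * z) • v))
    (fun z hz => M5_an (hAn _ F3 _ (hin z hz))) (fun z hz => by
      obtain ⟨θ, rfl⟩ := exists_cis hz
      exact F1.ne θ)
  have hcard2 : ∑ z ∈ Z2, (m2 z : ℤ) = Z2.card := by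
    rw [Finset.card_eq_sum_ones]
    push_cast
    refine Finset.sum_congr rfl (fun z hz => ?_)
    obtain ⟨h1, h2⟩ := (hZ2 z).1 hz
    have h3 : m2 z = 1 := by
      refine hm21 z hz ?_
      rw [M5_deriv (hAn _ F3 _ (hin z h1.le))]
      refine mul_ne_zero ?_ (haS _ (hin z h1.le) h2)
      exact_mod_cast hη0.ne'
    rw [h3]
    norm_num
  have huniq := F1.uniq hW2
  rw [hcard2] at huniq
  -- counting the zeros over `b + a`
  have hcinj : ∀ w ∈ Z, ∀ w' ∈ Z, c w = c w' → w = w' := by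
    intro w hw w' hw' he
    by_contra hne
    have h1 := hsep' w hw w' hw' hne
    have h2 : ‖c w - w‖ < η := by
      have := (hc w hw).1
      rwa [mem_ball_iff_norm] at this
    have h3 : ‖c w' - w'‖ < η := by
      have := (hc w' hw').1
      rwa [mem_ball_iff_norm] at this
    have h4 : ‖w - w'‖ ≤ ‖c w' - w'‖ + ‖c w - w‖ := by
      calc ‖w - w'‖ = ‖(c w' - w') - (c w - w)‖ := by
            congr 1
            rw [he]
            ring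
        _ ≤ _ := norm_sub_le _ _
    linarith
  have hηne : (η : ℂ) ≠ 0 := by exact_mod_cast hη0.ne'
  have hS1 : ((Z.erase w0).image c).card = Z.card - 1 := by
    rw [Finset.card_image_of_injOn, Finset.card_erase_of_mem hw0]
    intro w hw w' hw' he
    exact hcinj w (Finset.mem_of_mem_erase (by exact_mod_cast hw)) w'
      (Finset.mem_of_mem_erase (by exact_mod_cast hw')) he
  have hS2 : (Z2.image (fun z => w0 + (η : ℂ) * z)).card = Z2.card := by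
    refine Finset.card_image_of_injective _ ?_
    intro z z' he
    have h1 : (η : ℂ) * z = (η : ℂ) * z' := add_left_cancel he
    exact mul_left_cancel₀ hηne h1
  have hdisj : Disjoint ((Z.erase w0).image c) (Z2.image (fun z => w0 + (η : ℂ) * z)) := by
    rw [Finset.disjoint_left]
    intro s hs1 hs2
    obtain ⟨w, hw, rfl⟩ := Finset.mem_image.1 hs1
    obtain ⟨z, hz, he⟩ := Finset.mem_image.1 hs2
    have hwZ := Finset.mem_of_mem_erase hw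
    have hne := Finset.ne_of_mem_erase hw
    have h1 := hsep' w hwZ w0 hw0 hne
    have h2 : ‖c w - w‖ < η := by
      have := (hc w hwZ).1
      rwa [mem_ball_iff_norm] at this
    have hz1 := ((hZ2 z).1 hz).1
    have h3 : ‖(η : ℂ) * z‖ < η := by
      rw [norm_mul, hηc]
      nlinarith
    have h4 : ‖w - w0‖ ≤ ‖(η : ℂ) * z‖ + ‖c w - w‖ := by
      calc ‖w - w0‖ = ‖(η : ℂ) * z - (c w - w)‖ := by
            congr 1
            rw [← he]
            ring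
        _ ≤ _ := norm_sub_le _ _
    linarith
  have hfin := hmax (b + a) F3 (((Z.erase w0).image c) ∪ (Z2.image (fun z => w0 + (η : ℂ) * z))) (by
    intro s hs
    rcases Finset.mem_union.1 hs with hs | hs
    · obtain ⟨w, hw, rfl⟩ := Finset.mem_image.1 hs
      exact (hc w (Finset.mem_of_mem_erase hw)).2
    · obtain ⟨z, hz, rfl⟩ := Finset.mem_image.1 hs
      obtain ⟨h1, h2⟩ := (hZ2 z).1 hz
      exact ⟨hin z h1.le, h2⟩)
  rw [Finset.card_union_of_disjoint hdisj, hS1, hS2] at hfin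
  have hZ1 : 1 ≤ Z.card := Finset.card_pos.2 ⟨w0, hw0⟩
  have h5 : (2 : ℤ) ≤ (Z2.card : ℤ) := by
    rw [← huniq]
    exact_mod_cast hm2'
  omega

theorem disc_fn {g : H × ℂ → ℂ} {R ρ : ℝ} (hB : Box g R ρ) :
    ∃ D : H → ℂ, AnalyticOnNhd ℂ D (Metric.ball 0 R) ∧ (∃ h ∈ Metric.ball (0 : H) R, D h ≠ 0) ∧
      ∀ h ∈ Metric.ball (0 : H) R, D h ≠ 0 → Simp g ρ h := by
  classical
  obtain ⟨v, hv⟩ : ∃ v : H × ℂ, v = ((0 : H), ((3 / 4 * ρ : ℝ) : ℂ)) := ⟨_, rfl⟩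
  have hAn : ∀ x : H × ℂ, ‖x‖ < R → ∀ w : ℂ, ‖w‖ ≤ 1 → AnalyticAt ℂ g (x + w • v) := by
    intro x hx w hw
    rw [hv]
    exact DI_an hB hx hw
  have hNe : ∀ x : H × ℂ, ‖x‖ < R → ∀ w : ℂ, ‖w‖ = 1 → g (x + w • v) ≠ 0 := by
    intro x hx w hw
    rw [hv]
    exact DI_ne hB hx hw
  have hR := hB.hR
  have hρ := hB.hρ
  have hn : ∀ h : H, ‖h‖ < R → ‖((h, 0) : H × ℂ)‖ < R := by
    intro h hh
    rw [Prod.norm_def]
    simp only [norm_zero]
    exact max_lt hh hR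
  have hps : ∀ p, AnalyticOnNhd ℂ (psum g v 1 p) (Metric.ball 0 R) := fun p =>
    psum_an one_pos (fun x hx w hw => hAn x hx w hw.le) (fun x hx w hw => hNe x hx w hw) p
  let F : ℕ → H → ℂ := fun p h => psum g v 1 p (h, 0)
  have hF : ∀ p, AnalyticOnNhd ℂ (F p) (Metric.ball 0 R) := by
    intro p h hh
    have h1 : AnalyticAt ℂ (fun h : H => ((h, 0) : H × ℂ)) h := analyticAt_id.prod analyticAt_const
    have h2 : ((h, 0) : H × ℂ) ∈ Metric.ball (0 : H × ℂ) R := by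
      rw [mem_ball_zero_iff]
      exact hn h (by simpa using hh)
    exact AnalyticAt.comp (g := psum g v 1 p) (f := fun h : H => ((h, 0) : H × ℂ)) (hps p _ h2) h1
  have hZe : ∀ h : H, ∃ (Z : Finset ℂ) (m : ℂ → ℕ), ‖h‖ < R →
      ((∀ w, w ∈ Z ↔ ‖w‖ < 1 ∧ g (((h, 0) : H × ℂ) + w • v) = 0) ∧
      (∀ w ∈ Z, 1 ≤ m w) ∧ ∀ p, F p h = ∑ w ∈ Z, (m w : ℂ) * w ^ p) := by
    intro h
    by_cases hh : ‖h‖ < R
    · obtain ⟨Z, m, h1⟩ := RD_Z (f := g) (x := ((h, 0) : H × ℂ)) (v := v) one_pos (hAn _ (hn h hh))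
        (fun w hw => hNe _ (hn h hh) w hw)
      exact ⟨Z, m, fun _ => h1⟩
    · exact ⟨∅, 0, fun h => absurd h hh⟩
  choose Z m hZm using hZe
  have hF0 : ∀ h : H, ‖h‖ < R → F 0 h = ((∑ w ∈ Z h, m h w : ℕ) : ℂ) := by
    intro h hh
    rw [(hZm h hh).2.2 0]
    push_cast
    simp
  have hpre : IsPreconnected (Metric.ball (0 : H) R) := by
    let _ : NormedSpace ℝ H := NormedSpace.restrictScalars ℝ ℂ H
    exact (convex_ball (0 : H) R).isPreconnected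
  have hconst : ∀ h : H, ‖h‖ < R → ∑ w ∈ Z h, m h w = ∑ w ∈ Z 0, m 0 w := by
    intro h hh
    refine hpre.induction₂ (P := fun a b => ∑ w ∈ Z a, m a w = ∑ w ∈ Z b, m b w) (fun a ha => ?_)
      (fun a b c _ _ _ h1 h2 => h1.trans h2) (fun a b _ _ h1 => h1.symm) (by simpa using hh) (by simpa using hR)
    have h1 : ContinuousAt (F 0) a := (hF 0 a ha).continuousAt
    have h2 : ∀ᶠ b in 𝓝[Metric.ball 0 R] a, dist (F 0 b) (F 0 a) < 1 :=
      (h1.eventually (Metric.ball_mem_nhds _ one_pos)).filter_mono nhdsWithin_le_nhds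
    filter_upwards [h2, self_mem_nhdsWithin] with b h3 hb
    have hb' : ‖b‖ < R := by simpa using hb
    have ha' : ‖a‖ < R := by simpa using ha
    rw [hF0 b hb', hF0 a ha', dist_eq_norm] at h3
    have h4 : (((∑ w ∈ Z b, m b w : ℕ) : ℂ) - ((∑ w ∈ Z a, m a w : ℕ) : ℂ)) =
        ((((∑ w ∈ Z b, m b w : ℕ) : ℤ) - ((∑ w ∈ Z a, m a w : ℕ) : ℤ) : ℤ) : ℂ) := by
      push_cast
      ring
    rw [h4, Complex.norm_intCast] at h3
    have h5 : |(((∑ w ∈ Z b, m b w : ℕ) : ℤ) - ((∑ w ∈ Z a, m a w : ℕ) : ℤ))| < 1 := by exact_mod_cast h3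
    rw [Int.abs_lt_one_iff] at h5
    omega
  obtain ⟨n0, hn0⟩ : ∃ n0, n0 = ∑ w ∈ Z 0, m 0 w := ⟨_, rfl⟩
  have hcard : ∀ h : H, ‖h‖ < R → (Z h).card ≤ n0 := by
    intro h hh
    rw [hn0, ← hconst h hh]
    have := Finset.card_nsmul_le_sum (Z h) (fun w => m h w) 1 (hZm h hh).2.1
    simpa using this
  obtain ⟨h1, hh1, hmax⟩ : ∃ h1 : H, ‖h1‖ < R ∧ ∀ h : H, ‖h‖ < R → (Z h).card ≤ (Z h1).card := by
    have hne' : {n : ℕ | ∃ h : H, ‖h‖ < R ∧ (Z h).card = n}.Nonempty := ⟨_, 0, by simpa using hR, rfl⟩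
    have hbd : BddAbove {n : ℕ | ∃ h : H, ‖h‖ < R ∧ (Z h).card = n} := by
      refine ⟨n0, ?_⟩
      rintro n ⟨h, hh, rfl⟩
      exact hcard h hh
    obtain ⟨h1, hh1, h2⟩ := Nat.sSup_mem hne' hbd
    refine ⟨h1, hh1, fun h hh => ?_⟩
    rw [h2]
    exact le_csSup hbd ⟨h, hh, rfl⟩
  obtain ⟨d, hd⟩ : ∃ d, (Z h1).card = d := ⟨_, rfl⟩
  rw [hd] at hmax
  refine ⟨fun h => symm (discP d) (fun p => F p h), RD_an _ hF, ⟨h1, by simpa using hh1, ?_⟩, ?_⟩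
  · exact (RD_sym (hZm h1 hh1).2.1 (hZm h1 hh1).2.2 hd).1
  · intro h hh hD
    have hh' : ‖h‖ < R := by simpa using hh
    have hcd : (Z h).card = d := by
      by_contra hcx
      exact hD (symm_lt (Z h) (m h) (hZm h hh').2.2 (lt_of_le_of_ne (hmax h hh') hcx)).1
    intro u hu hgu hfd
    have hu2 : ‖u‖ < ρ / 2 := by
      by_contra hcon
      push Not at hcon
      exact hB.ne h hh' u hcon hu hgu
    have hr : (0 : ℝ) < 3 / 4 * ρ := by positivity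
    have hrc : ((3 / 4 * ρ : ℝ) : ℂ) ≠ 0 := by exact_mod_cast hr.ne'
    have hpt : ((h, 0) : H × ℂ) + (u / ((3 / 4 * ρ : ℝ) : ℂ)) • v = (h, u) := by
      rw [hv, DI_pt]
      show (h, 0 + u / ((3 / 4 * ρ : ℝ) : ℂ) * ((3 / 4 * ρ : ℝ) : ℂ)) = (h, u)
      rw [zero_add, div_mul_cancel₀ _ hrc]
    have hw1 : ‖u / ((3 / 4 * ρ : ℝ) : ℂ)‖ < 1 := by
      rw [norm_div, Complex.norm_real, Real.norm_eq_abs, abs_of_pos hr, div_lt_one hr]
      linarith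
    have hwZ : u / ((3 / 4 * ρ : ℝ) : ℂ) ∈ Z h := ((hZm h hh').1 _).2 ⟨hw1, by rw [hpt]; exact hgu⟩
    have key := DI_simple hB hh' (Z := Z h) (by rw [← hv]; exact (hZm h hh').1) (by
      rw [← hv]
      intro x hx S hS
      rw [hcd]
      refine le_trans ?_ (hmax x.1 (DI_fst hx).1)
      rw [← Finset.card_image_of_injective S (add_left_injective (x.2 / ((3 / 4 * ρ : ℝ) : ℂ)))]
      refine Finset.card_le_card ?_
      intro s hs
      obtain ⟨t, ht, rfl⟩ := Finset.mem_image.1 hs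
      obtain ⟨ht1, ht2⟩ := hS t ht
      have hsh := DI_shift hB hx ht1 (by rw [← hv]; exact ht2)
      rw [← hv] at hsh
      exact ((hZm x.1 (DI_fst hx).1).1 _).2 hsh) hwZ
    rw [← hv, hpt] at key
    apply key
    have hvs : v = ((3 / 4 * ρ : ℝ) : ℂ) • ((0 : H), (1 : ℂ)) := by
      rw [hv]
      ext
      · simp
      · simp
    rw [hvs, map_smul, hfd, smul_zero]

end ZrL
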