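import Mathlib

set_option autoImplicit false

/-!
# ZrL (MP_8ee7fe_ag): local systems near a hypersurface germ, definitions

A local system of rank `d` on a set `X` is given by its parallel transport between nearby points: a function `P x y : M ≃ₗ[K] M` (`M` a vector space of dimension `d`,
used as the fibre at every point), with the cocycle rule `P y w ∘ P x y = P x w` for `y` near `x` and `w` near `y`. Its flat sections over `A` are the functions
`s : A → M` with `s y = P x y (s x)` for `y` near `x`.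
-/

noncomputable section

namespace ZrL

open Filter Topology Set

variable {T K M : Type*} [TopologicalSpace T] [Field K] [AddCommGroup M] [Module K M]

/-- `P` is (the parallel transport between nearby points of) a local system on `X` with fibre `M` -/
def IsLocSys (X : Set T) (P : T → T → (M ≃ₗ[K] M)) : Prop :=
  ∀ x ∈ X, ∀ᶠ y in 𝓝[X] x, ∀ᶠ w in 𝓝[X] y, ∀ u : M, P y w (P x y u) = P x w u

/-- `s` is a flat section over `A` -/
def IsSec (P : T → T → (M ≃ₗ[K] M)) (A : Set T) (s : T → M) : Prop :=
  ∀ x ∈ A, ∀ᶠ y in 𝓝[A] x, s y = P x y (s x)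

/-- the values at `x` of the flat sections over `A` -/
def Val (P : T → T → (M ≃ₗ[K] M)) (A : Set T) (x : T) : Submodule K M where
  carrier := {u | ∃ s : T → M, IsSec P A s ∧ s x = u}
  add_mem' := by
    rintro a b ⟨s, hs, rfl⟩ ⟨s', hs', rfl⟩
    refine ⟨fun y => s y + s' y, fun y hy => ?_, rfl⟩
    filter_upwards [hs y hy, hs' y hy] with w h1 h2
    rw [h1, h2, map_add]
  zero_mem' := ⟨fun _ => 0, fun y _ => Eventually.of_forall fun w => by rw [map_zero], rfl⟩
  smul_mem' := by
    rintro c a ⟨s, hs, rfl⟩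
    refine ⟨fun y => c • s y, fun y hy => ?_, rfl⟩
    filter_upwards [hs y hy] with w h1
    rw [h1, map_smul]

theorem mem_Val {P : T → T → (M ≃ₗ[K] M)} {A : Set T} {x : T} {u : M} :
    u ∈ Val P A x ↔ ∃ s : T → M, IsSec P A s ∧ s x = u := Iff.rfl

theorem IsSec.mono {P : T → T → (M ≃ₗ[K] M)} {A B : Set T} {s : T → M} (h : IsSec P A s) (hBA : B ⊆ A) :
    IsSec P B s := fun x hx => (h x (hBA hx)).filter_mono (nhdsWithin_mono x hBA)

theorem IsLocSys.mono {P : T → T → (M ≃ₗ[K] M)} {X Y : Set T} (h : IsLocSys X P) (hYX : Y ⊆ X) : IsLocSys Y P :=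
  fun x hx => ((h x (hYX hx)).filter_mono (nhdsWithin_mono x hYX)).mono fun y hy =>
    hy.filter_mono (nhdsWithin_mono y hYX)

theorem IsLocSys.self {P : T → T → (M ≃ₗ[K] M)} {X : Set T} (h : IsLocSys X P) {x : T} (hx : x ∈ X) (u : M) :
    P x x u = u := by
  have h1 := (h x hx).self_of_nhdsWithin hx
  have h2 := h1.self_of_nhdsWithin hx u
  exact (P x x).injective h2

/-- two flat sections over a preconnected set which agree at one point agree everywhere -/
theorem IsSec.unique {P : T → T → (M ≃ₗ[K] M)} {A : Set T} {s s' : T → M} (hs : IsSec P A s) (hs' : IsSec P A s')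
    (hA : IsPreconnected A) {x : T} (hx : x ∈ A) (h : s x = s' x) {y : T} (hy : y ∈ A) : s y = s' y := by
  have key := hA.induction₂ (P := fun a b => (s a = s' a ↔ s b = s' b)) (fun a ha => ?_)
    (fun a b c _ _ _ h1 h2 => h1.trans h2) (fun a b _ _ h1 => h1.symm) hx hy
  · exact key.1 h
  · filter_upwards [hs a ha, hs' a ha] with b h1 h2
    rw [h1, h2, (P a b).injective.eq_iff]

/-- a flat section over a preconnected set which vanishes at one point vanishes everywhere -/
theorem IsSec.zero {P : T → T → (M ≃ₗ[K] M)} {A : Set T} {s : T → M} (hs : IsSec P A s)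
    (hA : IsPreconnected A) {x : T} (hx : x ∈ A) (h : s x = 0) {y : T} (hy : y ∈ A) : s y = 0 :=
  hs.unique (s' := fun _ => 0) (fun a _ => Eventually.of_forall fun b => by rw [map_zero]) hA hx h hy

theorem IsSec.congr {P : T → T → (M ≃ₗ[K] M)} {A : Set T} {s s' : T → M} (hs : IsSec P A s)
    (h : ∀ x ∈ A, s' x = s x) : IsSec P A s' := by
  intro x hx
  filter_upwards [hs x hx, self_mem_nhdsWithin] with y h1 h2
  rw [h y h2, h x hx, h1]

/-- flat sections over two open sets which agree on the intersection can be glued -/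
theorem IsSec.glue {P : T → T → (M ≃ₗ[K] M)} {A B : Set T} {s s' : T → M} (hs : IsSec P A s) (hs' : IsSec P B s')
    (hA : IsOpen A) (hB : IsOpen B) (h : ∀ x ∈ A ∩ B, s x = s' x) :
    ∃ t : T → M, IsSec P (A ∪ B) t ∧ (∀ x ∈ A, t x = s x) ∧ ∀ x ∈ B, t x = s' x := by
  classical
  have hA' : ∀ x ∈ A, (if x ∈ A then s x else s' x) = s x := fun x hx => if_pos hx
  have hB' : ∀ x ∈ B, (if x ∈ A then s x else s' x) = s' x := by
    intro x hx
    by_cases hxA : x ∈ A
    · rw [if_pos hxA]
      exact h x ⟨hxA, hx⟩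
    · rw [if_neg hxA]
  refine ⟨fun x => if x ∈ A then s x else s' x, ?_, hA', hB'⟩
  rintro x (hx | hx)
  · have h1 := hs x hx
    rw [hA.nhdsWithin_eq hx] at h1
    refine Filter.Eventually.filter_mono nhdsWithin_le_nhds ?_
    filter_upwards [h1, hA.mem_nhds hx] with y h2 h3
    rw [hA' y h3, hA' x hx, h2]
  · have h1 := hs' x hx
    rw [hB.nhdsWithin_eq hx] at h1
    refine Filter.Eventually.filter_mono nhdsWithin_le_nhds ?_
    filter_upwards [h1, hB.mem_nhds hx] with y h2 h3
    rw [hB' y h3, hB' x hx, h2]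

/-- charts: near every point there is a flat section through every vector -/
theorem IsLocSys.chart {P : T → T → (M ≃ₗ[K] M)} {X : Set T} (h : IsLocSys X P) {x : T} (hx : x ∈ X) :
    ∃ O : Set T, IsOpen O ∧ x ∈ O ∧ ∀ u : M, IsSec P (O ∩ X) (fun w => P x w u) := by
  obtain ⟨O, hO, hxO, h1⟩ := mem_nhdsWithin.1 (h x hx)
  refine ⟨O, hO, hxO, fun u y hy => ?_⟩
  have h2 : ∀ᶠ w in 𝓝[X] y, ∀ u : M, P y w (P x y u) = P x w u := h1 hy
  filter_upwards [h2.filter_mono (nhdsWithin_mono y inter_subset_right)] with w h3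
  exact (h3 u).symm

/-- the local system has defect at most `e` at the point `q` of `Z`: the flat sections over a punctured neighbourhood `O \ Z` of `q` have
values in a subspace of codimension at most `e` -/
def Defect (P : T → T → (M ≃ₗ[K] M)) (Z : Set T) (e : ℕ) (q : T) : Prop :=
  ∃ O ∈ 𝓝 q, ∀ x ∈ O \ Z, Module.finrank K M ≤ Module.finrank K (Val P (O \ Z) x) + e

end ZrL
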