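import Pool.Agent.helper60.ZrL.RT
import Pool.Agent.helper60.ZrL.C1

set_option autoImplicit false

/-!
# ZrL, module GF: a generic fibre all of whose zeros lie in a dense set

Let `b ∈ ball 0 R` with `D b ≠ 0` (so `Simp g ρ b`), `r0, ε, Z, z` from `roots` (RT). Shrink `ε` such that `D h ≠ 0` on `ball b ε` (`D` is continuous at `b`). For `p ∈ Z` let `U p = {h ∈ ball b ε | (h, z p h) ∈ G}`. `U p` is open: if `h1 ∈ U p`, `O` as in `hG` for `q = (h1, z p h1)`: for `h` near `h1`, `(h, z p h) ∈ O` (continuity of `z p`)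
and it is a zero of `g`. `U p` is dense in `ball b ε`: for `h1 ∈ ball b ε` the point `(h1, z p h1)` is in the closure of `{q ∈ G | g q = 0}` (`hd`; `‖z p h1‖ < ρ`), so there is `q = (h, w) ∈ G`, `g q = 0`, arbitrarily close to it; then `w = z p' h` for some `p' ∈ Z`, and `p' = p`, because `‖w - p‖ < 2 * r0` while `‖z p' h - p‖ > 7 * r0` otherwise; so `h ∈ U p`.
A finite intersection of open dense subsets of the ball is not empty (induction over the `Finset`). Any `a` in it works (`g (a, w) = 0`, `‖w‖ ≤ ρ` implies `w = z p a`).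
-/

noncomputable section

namespace ZrL

open Filter Topology Set

variable {H : Type*} [NormedAddCommGroup H] [NormedSpace ℂ H] [FiniteDimensional ℂ H]

theorem gen_fibre {g : H × ℂ → ℂ} {R ρ : ℝ} (hB : Box g R ρ) {D : H → ℂ} (hD : AnalyticOnNhd ℂ D (Metric.ball 0 R))
    (hD0 : ∃ h ∈ Metric.ball (0 : H) R, D h ≠ 0) (hs : ∀ h ∈ Metric.ball (0 : H) R, D h ≠ 0 → Simp g ρ h)
    {G : Set (H × ℂ)} (hG : ∀ q ∈ G, g q = 0 → ∃ O ∈ 𝓝 q, ∀ q' ∈ O, g q' = 0 → q' ∈ G)
    (hd : ∀ h : H, ‖h‖ < R → ∀ w : ℂ, ‖w‖ < ρ → g (h, w) = 0 → (h, w) ∈ closure {q | q ∈ G ∧ g q = 0}) :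
    ∃ a : H, ‖a‖ < R ∧ D a ≠ 0 ∧ ∀ w : ℂ, ‖w‖ ≤ ρ → g (a, w) = 0 → (a, w) ∈ G := by
  obtain ⟨b, hbR, hDb⟩ := hD0
  have hbR' : ‖b‖ < R := mem_ball_zero_iff.1 hbR
  obtain ⟨r0, ε0, Z, z, hr0, hε0, hball, hZ, hsep, hin, hcont, hnear, hzero⟩ := roots hB hbR' (hs b hbR hDb)
  have hρ := hB.hρ
  obtain ⟨ε1, hε1, hD1⟩ := Metric.eventually_nhds_iff_ball.1 ((hD b hbR).continuousAt.eventually_ne hDb)
  have hW0 : Metric.ball b (min ε0 ε1) ⊆ Metric.ball b ε0 := Metric.ball_subset_ball (min_le_left _ _)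
  have hW1 : Metric.ball b (min ε0 ε1) ⊆ Metric.ball b ε1 := Metric.ball_subset_ball (min_le_right _ _)
  -- the zeros are in the open disc
  have hzn : ∀ p ∈ Z, ∀ h ∈ Metric.ball b ε0, ‖z p h‖ < ρ / 2 := by
    intro p hp h hh
    have h1 := hnear p hp h hh
    have h2 := hin p hp
    have h3 : ‖z p h‖ ≤ ‖z p h - p‖ + ‖p‖ := by
      have := norm_add_le (z p h - p) p
      rwa [sub_add_cancel] at this
    linarith
  have hz0 : ∀ p ∈ Z, ∀ h ∈ Metric.ball b ε0, g (h, z p h) = 0 := by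
    intro p hp h hh
    have h1 := hzn p hp h hh
    exact (hzero h hh (z p h) (by linarith)).2 ⟨p, hp, rfl⟩
  have key : ∀ S : Finset ℂ, S ⊆ Z → ∃ W : Set H, IsOpen W ∧ W.Nonempty ∧ W ⊆ Metric.ball b (min ε0 ε1) ∧
      ∀ h ∈ W, ∀ p ∈ S, (h, z p h) ∈ G := by
    intro S
    induction S using Finset.induction_on with
    | empty =>
      intro _
      refine ⟨Metric.ball b (min ε0 ε1), Metric.isOpen_ball, ⟨b, Metric.mem_ball_self (lt_min hε0 hε1)⟩,
        subset_rfl, ?_⟩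
      intro h _ p hp
      exact absurd hp (Finset.notMem_empty p)
    | insert p S hpS ih =>
      intro hSZ
      obtain ⟨W, hWo, ⟨h1, hh1⟩, hWs, hWG⟩ := ih ((Finset.subset_insert p S).trans hSZ)
      have hp : p ∈ Z := hSZ (Finset.mem_insert_self p S)
      have hh1' : h1 ∈ Metric.ball b ε0 := hW0 (hWs hh1)
      have hh1R : ‖h1‖ < R := mem_ball_zero_iff.1 (hball hh1')
      have hcl := hd h1 hh1R (z p h1) (by linarith [hzn p hp h1 hh1']) (hz0 p hp h1 hh1')
      have hnb : W ×ˢ Metric.ball (z p h1) r0 ∈ 𝓝 (h1, z p h1) :=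
        prod_mem_nhds (hWo.mem_nhds hh1) (Metric.ball_mem_nhds _ hr0)
      obtain ⟨⟨h2, w⟩, hmem, hqG, hq0⟩ := mem_closure_iff_nhds.1 hcl _ hnb
      have hh2 : h2 ∈ W := hmem.1
      have hw : ‖w - z p h1‖ < r0 := by
        have := hmem.2
        simpa [dist_eq_norm] using this
      have hh2' : h2 ∈ Metric.ball b ε0 := hW0 (hWs hh2)
      have hwp : ‖w - p‖ < 2 * r0 := by
        have h3 := norm_add_le (w - z p h1) (z p h1 - p)
        rw [sub_add_sub_cancel] at h3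
        have h4 := hnear p hp h1 hh1'
        linarith
      have hwρ : ‖w‖ ≤ ρ := by
        have h3 := norm_add_le (w - p) p
        rw [sub_add_cancel] at h3
        have h4 := hin p hp
        linarith
      obtain ⟨p', hp', hwp'⟩ := (hzero h2 hh2' w hwρ).1 hq0
      have hpp : p' = p := by
        by_contra hne
        have h3 := hsep p' hp' p hp hne
        have h4 := hnear p' hp' h2 hh2'
        rw [← hwp'] at h4
        have h5 := norm_sub_le (w - p) (w - p')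
        have h6 : w - p - (w - p') = p' - p := by ring
        rw [h6] at h5
        linarith
      rw [hpp] at hwp'
      rw [hwp'] at hqG
      obtain ⟨O, hO, hOG⟩ := hG _ hqG (hz0 p hp h2 hh2')
      have hca : ContinuousAt (z p) h2 := (hcont p hp).continuousAt (Metric.isOpen_ball.mem_nhds hh2')
      have hcb : ContinuousAt (fun h : H => (h, z p h)) h2 := continuousAt_id.prodMk hca
      have hev1 : ∀ᶠ h in 𝓝 h2, h ∈ W := hWo.mem_nhds hh2
      have hev2 : ∀ᶠ h in 𝓝 h2, (h, z p h) ∈ O := hcb.eventually hO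
      have hev : ∀ᶠ h in 𝓝 h2, h ∈ W ∧ (h, z p h) ∈ O := hev1.and hev2
      obtain ⟨V, hV, hVo, hVm⟩ := eventually_nhds_iff.1 hev
      refine ⟨V, hVo, ⟨h2, hVm⟩, fun h hh => hWs (hV h hh).1, ?_⟩
      intro h hh q hq
      rcases Finset.mem_insert.1 hq with rfl | hq
      · exact hOG _ (hV h hh).2 (hz0 q hp h (hW0 (hWs (hV h hh).1)))
      · exact hWG h (hV h hh).1 q hq
  obtain ⟨W, -, ⟨a, ha⟩, hWs, hWG⟩ := key Z subset_rfl
  have ha0 : a ∈ Metric.ball b ε0 := hW0 (hWs ha)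
  refine ⟨a, mem_ball_zero_iff.1 (hball ha0), hD1 a (hW1 (hWs ha)), ?_⟩
  intro w hw hgw
  obtain ⟨p, hp, rfl⟩ := (hzero a ha0 w hw).1 hgw
  exact hWG a ha p hp

end ZrL
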