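import Pool.Agent.helper60.ZrL.Sys

set_option autoImplicit false

/-!
# ZrL, module TI: topological invariance of `HasSys`

`W0 := interior W ∩ ψ ⁻¹' (interior V)` and `V0 := interior V ∩ φ ⁻¹' (interior W)` are open neighbourhoods of `0` (`ContinuousOn.isOpen_inter_preimage`; `ψ 0 = ψ (φ 0) = 0`), `φ : V0 → W0` and `ψ : W0 → V0` are inverse to each other and continuous at the points of these sets, and for `y ∈ W0`: `y ∈ Z' ↔ ψ y ∈ Z`.
Let `N, P` be as in `h`. `P' y y' := P (ψ y) (ψ y')`, `N' := W0 ∩ ψ ⁻¹' N`-ish (`N' = {y ∈ W0 | ψ y ∈ interior N}` is a neighbourhood of `0`).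
`IsLocSys (N' \ Z') P'`: for `y ∈ N' \ Z'`: `ψ` tends to `𝓝[N \ Z] (ψ y)` along `𝓝[N' \ Z'] y` (`ContinuousAt`, and `ψ` maps `N' \ Z'` to `N \ Z`; `tendsto_nhdsWithin_iff`); pull back the nested `∀ᶠ`.
Density: for `y` near `0`, `y ∈ Z'`: `ψ y ∈ Z` is near `0`, so `ψ y ∈ closure {q | q ∈ Z ∧ Defect P Z e q}`; points `q` of this set near `ψ y` are in `V0`, and `φ q ∈ Z'`, `Defect P' Z' e (φ q)`: if `O ∈ 𝓝 q` is as in `Defect P Z e q` take `O' := {y ∈ W0 | ψ y ∈ O}` (a neighbourhood of `φ q`, since `ψ` is continuous at `φ q`, `ψ (φ q) = q`); for `y ∈ O' \ Z'`: `ψ y ∈ O \ Z`, and if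
`s` is a flat section over `O \ Z` for `P` then `s ∘ ψ` is a flat section over `O' \ Z'` for `P'`, so `Val P (O \ Z) (ψ y) ≤ Val P' (O' \ Z') y`; finrank is monotone (`Submodule.finrank_mono`).
Sections: if `O' ∈ 𝓝 0` and `s'` is a flat section over `O' \ Z'` for `P'` then `s' ∘ φ` is a flat section over `{x ∈ V0 | φ x ∈ O'} \ Z` for `P` (`ψ (φ x) = x` on `V0`), so `∀ᶠ x in 𝓝 0, x ∉ Z → s' (φ x) = 0`; pull back by `ψ`: `∀ᶠ y in 𝓝 0, y ∉ Z' → s' y = 0` (`φ (ψ y) = y`).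
-/

noncomputable section

namespace ZrL

open Filter Topology Set

variable {K M : Type*} [Field K] [AddCommGroup M] [Module K M] [FiniteDimensional K M]

theorem HasSys.transfer {E E' : Type*} [NormedAddCommGroup E] [NormedAddCommGroup E'] {Z V : Set E} {Z' W : Set E'}
    {φ : E → E'} {ψ : E' → E} (hV : V ∈ 𝓝 (0 : E)) (hW : W ∈ 𝓝 (0 : E')) (mφ : MapsTo φ V W) (mψ : MapsTo ψ W V)
    (li : LeftInvOn ψ φ V) (ri : RightInvOn ψ φ W) (cφ : ContinuousOn φ V) (cψ : ContinuousOn ψ W) (z0 : φ 0 = 0)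
    (hZ : ∀ z ∈ V, (z ∈ Z ↔ φ z ∈ Z')) {e : ℕ} (h : HasSys K M Z e) : HasSys K M Z' e := by
  obtain ⟨N, P, hN, hP, hD, hS⟩ := h
  have h0V : (0 : E) ∈ V := mem_of_mem_nhds hV
  have hψ0 : ψ 0 = 0 := by
    have h1 := li h0V
    rwa [z0] at h1
  obtain ⟨V0, hV0⟩ : ∃ V0 : Set E, V0 = interior V ∩ φ ⁻¹' interior W := ⟨_, rfl⟩
  obtain ⟨W0, hW0⟩ : ∃ W0 : Set E', W0 = interior W ∩ ψ ⁻¹' interior V := ⟨_, rfl⟩
  have oV0 : IsOpen V0 := by
    rw [hV0]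
    exact (cφ.mono interior_subset).isOpen_inter_preimage isOpen_interior isOpen_interior
  have oW0 : IsOpen W0 := by
    rw [hW0]
    exact (cψ.mono interior_subset).isOpen_inter_preimage isOpen_interior isOpen_interior
  have z0V : (0 : E) ∈ V0 := by
    rw [hV0]
    refine ⟨mem_interior_iff_mem_nhds.2 hV, ?_⟩
    show φ 0 ∈ interior W
    rw [z0]
    exact mem_interior_iff_mem_nhds.2 hW
  have z0W : (0 : E') ∈ W0 := by
    rw [hW0]
    refine ⟨mem_interior_iff_mem_nhds.2 hW, ?_⟩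
    show ψ 0 ∈ interior V
    rw [hψ0]
    exact mem_interior_iff_mem_nhds.2 hV
  have V0V : ∀ x ∈ V0, x ∈ V := fun x hx => by
    rw [hV0] at hx
    exact interior_subset hx.1
  have W0W : ∀ y ∈ W0, y ∈ W := fun y hy => by
    rw [hW0] at hy
    exact interior_subset hy.1
  have liV : ∀ x ∈ V0, ψ (φ x) = x := fun x hx => li (V0V x hx)
  have riW : ∀ y ∈ W0, φ (ψ y) = y := fun y hy => ri (W0W y hy)
  have mφ0 : ∀ x ∈ V0, φ x ∈ W0 := by
    intro x hx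
    have h1 := liV x hx
    rw [hV0] at hx
    rw [hW0]
    refine ⟨hx.2, ?_⟩
    show ψ (φ x) ∈ interior V
    rw [h1]
    exact hx.1
  have mψ0 : ∀ y ∈ W0, ψ y ∈ V0 := by
    intro y hy
    have h1 := riW y hy
    rw [hW0] at hy
    rw [hV0]
    refine ⟨hy.2, ?_⟩
    show φ (ψ y) ∈ interior W
    rw [h1]
    exact hy.1
  have aφ : ∀ x ∈ V0, ContinuousAt φ x := by
    intro x hx
    rw [hV0] at hx
    exact cφ.continuousAt (mem_interior_iff_mem_nhds.1 hx.1)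
  have aψ : ∀ y ∈ W0, ContinuousAt ψ y := by
    intro y hy
    rw [hW0] at hy
    exact cψ.continuousAt (mem_interior_iff_mem_nhds.1 hy.1)
  have zφ : ∀ x ∈ V0, (x ∈ Z ↔ φ x ∈ Z') := fun x hx => hZ x (V0V x hx)
  have zψ : ∀ y ∈ W0, (ψ y ∈ Z ↔ y ∈ Z') := by
    intro y hy
    have h1 := zφ (ψ y) (mψ0 y hy)
    rwa [riW y hy] at h1
  have tψ0 : Tendsto ψ (𝓝 0) (𝓝 0) := by
    have h1 : Tendsto ψ (𝓝 0) (𝓝 (ψ 0)) := aψ 0 z0W
    rwa [hψ0] at h1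
  have tφ0 : Tendsto φ (𝓝 0) (𝓝 0) := by
    have h1 : Tendsto φ (𝓝 0) (𝓝 (φ 0)) := aφ 0 z0V
    rwa [z0] at h1
  -- pull back along `ψ`
  have tψ : ∀ (A : Set E') (B : Set E), A ⊆ W0 → MapsTo ψ A B → ∀ y ∈ A,
      Tendsto ψ (𝓝[A] y) (𝓝[B] (ψ y)) := fun A B hA hm y hy =>
    (aψ y (hA hy)).continuousWithinAt.tendsto_nhdsWithin hm
  have tφ : ∀ (A : Set E) (B : Set E'), A ⊆ V0 → MapsTo φ A B → ∀ x ∈ A,
      Tendsto φ (𝓝[A] x) (𝓝[B] (φ x)) := fun A B hA hm x hx =>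
    (aφ x (hA hx)).continuousWithinAt.tendsto_nhdsWithin hm
  have secψ : ∀ (A : Set E') (B : Set E) (s : E → M), A ⊆ W0 → MapsTo ψ A B → IsSec P B s →
      IsSec (fun y y' => P (ψ y) (ψ y')) A (fun y => s (ψ y)) := by
    intro A B s hA hm hs y hy
    exact (tψ A B hA hm y hy).eventually (hs (ψ y) (hm hy))
  refine ⟨W0 ∩ ψ ⁻¹' N, fun y y' => P (ψ y) (ψ y'), inter_mem (oW0.mem_nhds z0W) (tψ0 hN), ?_, ?_, ?_⟩
  · have hm : MapsTo ψ ((W0 ∩ ψ ⁻¹' N) \ Z') (N \ Z) := by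
      intro y hy
      exact ⟨hy.1.2, fun h1 => hy.2 ((zψ y hy.1.1).1 h1)⟩
    have hsub : (W0 ∩ ψ ⁻¹' N) \ Z' ⊆ W0 := fun y hy => hy.1.1
    intro y hy
    have h1 := (tψ _ _ hsub hm y hy).eventually (hP (ψ y) (hm hy))
    filter_upwards [h1, self_mem_nhdsWithin] with y1 h2 h3
    exact (tψ _ _ hsub hm y1 h3).eventually h2
  · have hkey : ∀ q ∈ V0, q ∈ Z → Defect P Z e q →
        φ q ∈ Z' ∧ Defect (fun y y' => P (ψ y) (ψ y')) Z' e (φ q) := by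
      rintro q hq hqZ ⟨O, hO, hOd⟩
      refine ⟨(zφ q hq).1 hqZ, W0 ∩ ψ ⁻¹' O, ?_, ?_⟩
      · refine inter_mem (oW0.mem_nhds (mφ0 q hq)) ?_
        have h1 : Tendsto ψ (𝓝 (φ q)) (𝓝 (ψ (φ q))) := aψ (φ q) (mφ0 q hq)
        rw [liV q hq] at h1
        exact h1 hO
      · intro y hy
        have hm : MapsTo ψ ((W0 ∩ ψ ⁻¹' O) \ Z') (O \ Z) := by
          intro w hw
          exact ⟨hw.1.2, fun h1 => hw.2 ((zψ w hw.1.1).1 h1)⟩
        have hle : Val P (O \ Z) (ψ y) ≤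
            Val (fun y y' => P (ψ y) (ψ y')) ((W0 ∩ ψ ⁻¹' O) \ Z') y := by
          rintro u ⟨s, hs, hu⟩
          exact ⟨fun w => s (ψ w), secψ _ _ s (fun w hw => hw.1.1) hm hs, hu⟩
        have h1 := hOd (ψ y) (hm hy)
        have h2 := Submodule.finrank_mono hle
        omega
    filter_upwards [tψ0.eventually hD, oW0.mem_nhds z0W] with y h1 h2 h3
    have h4 : ψ y ∈ closure (V0 ∩ {q | q ∈ Z ∧ Defect P Z e q}) :=
      oV0.inter_closure ⟨mψ0 y h2, h1 ((zψ y h2).2 h3)⟩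
    have h5 := mem_closure_image (aφ (ψ y) (mψ0 y h2)) h4
    rw [riW y h2] at h5
    refine closure_mono ?_ h5
    rintro _ ⟨q, hq, rfl⟩
    exact hkey q hq.1 hq.2.1 hq.2.2
  · intro O' hO' s' hs'
    have hOn : V0 ∩ φ ⁻¹' O' ∈ 𝓝 (0 : E) := inter_mem (oV0.mem_nhds z0V) (tφ0 hO')
    have hm : MapsTo φ ((V0 ∩ φ ⁻¹' O') \ Z) (O' \ Z') := by
      intro x hx
      exact ⟨hx.1.2, fun h1 => hx.2 ((zφ x hx.1.1).2 h1)⟩
    have hsub : (V0 ∩ φ ⁻¹' O') \ Z ⊆ V0 := fun x hx => hx.1.1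
    have hs : IsSec P ((V0 ∩ φ ⁻¹' O') \ Z) (fun x => s' (φ x)) := by
      intro x hx
      have h1 := (tφ _ _ hsub hm x hx).eventually (hs' (φ x) (hm hx))
      filter_upwards [h1, self_mem_nhdsWithin] with w h2 h3
      have h4 : s' (φ w) = P (ψ (φ x)) (ψ (φ w)) (s' (φ x)) := h2
      rw [liV x hx.1.1, liV w h3.1.1] at h4
      exact h4
    filter_upwards [tψ0.eventually (hS _ hOn _ hs), oW0.mem_nhds z0W] with y h1 h2 h3
    have h4 := h1 (fun h5 => h3 ((zψ y h2).1 h5))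
    rwa [riW y h2] at h4

end ZrL
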