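import Pool.Agent.helper60.ZrL.LF
import Pool.Agent.helper60.ZrL.TI
import Pool.Agent.helper60.Zr.M9

set_option autoImplicit false

/-!
# ZrL, module LB: the multiplicity is at least `finrank K M / e`

`lower_prod`: suppose `e * m < finrank K M`. Let `N, P` be as in `h`. Choose `ρ > 0` small: `{‖q‖ ≤ ρ} ⊆ N` and inside the neighbourhoods of `0` from `Red g` (analytic, regular zeros dense) and from the density condition of `h`; `g (0, w) ≠ 0` for `0 < ‖w‖ ≤ ρ` (leading form: `Q (0, 1) ≠ 0`, `Lead.approx`, as in `RD_setup` of Zr/RD), and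
`Wd (fun θ => g (0, ρ * cis θ)) m` (`lead_wd` of Zr/M6 with `v = (0, 1)`: `(r * cis θ) • (0, 1) = (0, r * cis θ)`). Then choose `R ≤ ρ / 4` such that `g (h, w) ≠ 0` for `‖h‖ < R`, `ρ / 2 ≤ ‖w‖ ≤ ρ` (compactness, `RD_cpt`). So `Box g R ρ`. `Reg g R ρ ⊆ N \ {g = 0}` gives the local system (`IsLocSys.mono`). `lef` (LF) gives a flat section `s`
over `Reg g R ρ = O \ {g = 0}`, `O = {q | ‖q.1‖ < R ∧ ‖q.2‖ < ρ} ∈ 𝓝 0`, without zeros there. By the last condition of `h`: `∀ᶠ q in 𝓝 0, g q ≠ 0 → s q = 0`; but `q = (0, w)` with `w ≠ 0` small has `g q ≠ 0`: contradiction.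

`lower_bound`: choose `v` with `Q v ≠ 0` (`Lead.ne`; `v ≠ 0` if `1 ≤ m`, `Lead.one_le` of Zr/M9 with `g 0 = 0`; indeed `Q 0 = 0 ^ m * Q 0 = 0`) and a continuous linear functional `l` with `l v = 1` (`exists_dual_vector` or `SeparatingDual.exists_eq_one`); `Θ : (LinearMap.ker l.toLinearMap) × ℂ ≃L[ℂ] E`, `(h, w) ↦ h + w • v` (for instance from
`ContinuousLinearEquiv.equivOfRightInverse`). `g ∘ Θ` is `Red` (analytic; closure of regular zeros: `fderiv ℂ (g ∘ Θ) q = (fderiv ℂ g (Θ q)).comp Θ`, nonzero iff `fderiv ℂ g (Θ q)` is), `Lead (g ∘ Θ) m (Q ∘ Θ)` (constants: `‖Θ q‖ ≤ C ‖q‖`), and `HasSys` is transferred by `HasSys.transfer` (TI) with `φ := Θ.symm`, `ψ := Θ`, `V = W = univ`.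
Apply `lower_prod`.
-/

noncomputable section

namespace ZrL

open Filter Topology Set

variable {K M : Type*} [Field K] [AddCommGroup M] [Module K M] [FiniteDimensional K M]

theorem lower_prod {H : Type*} [NormedAddCommGroup H] [NormedSpace ℂ H] [FiniteDimensional ℂ H] {g : H × ℂ → ℂ}
    (hg : Zr.Red g) {m : ℕ} {Q : H × ℂ → ℂ} (hm : Zr.Lead g m Q) (hQ : Q (0, 1) ≠ 0) {e : ℕ}
    (h : HasSys K M {q | g q = 0} e) : Module.finrank K M ≤ e * m := by
  by_contra hlt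
  push Not at hlt
  obtain ⟨N, P, hN, hP, hdens, hsec⟩ := h
  -- the neighbourhood where everything is good
  obtain ⟨r0, hr0, hball⟩ := Metric.eventually_nhds_iff_ball.1
    (hg.1.eventually_analyticAt.and (hg.2.2.and (hdens.and hN)))
  -- no zeros on the axis
  obtain ⟨r5, hr5, hax⟩ : ∃ r5 : ℝ, 0 < r5 ∧ ∀ w : ℂ, ‖w‖ < r5 → w ≠ 0 → g (0, w) ≠ 0 := by
    obtain ⟨C, hC, r1, hr1, hap⟩ := hm.approx
    have hM : 0 < ‖Q (0, 1)‖ := norm_pos_iff.2 hQ
    refine ⟨min r1 (‖Q (0, 1)‖ / C), lt_min hr1 (by positivity), fun w hw hw0 h0 => ?_⟩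
    have h1 : ((0 : H), w) = w • ((0 : H), (1 : ℂ)) := by
      rw [Prod.smul_mk, smul_zero, smul_eq_mul, mul_one]
    have hn : ‖((0 : H), w)‖ = ‖w‖ := by simp [Prod.norm_def]
    have h2 := hap (0, w) (by rw [hn]; exact lt_of_lt_of_le hw (min_le_left _ _))
    rw [h0, zero_sub, norm_neg, hn] at h2
    rw [h1, hm.hom, norm_mul, norm_pow, pow_succ] at h2
    have hw1 : 0 < ‖w‖ := norm_pos_iff.2 hw0
    have hw2 : 0 < ‖w‖ ^ m := by positivity
    have h5 : ‖w‖ ^ m * ‖Q (0, 1)‖ ≤ ‖w‖ ^ m * (C * ‖w‖) := by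
      calc _ ≤ _ := h2
        _ = _ := by ring
    have h6 := le_of_mul_le_mul_left h5 hw2
    have h7 : ‖w‖ < ‖Q (0, 1)‖ / C := lt_of_lt_of_le hw (min_le_right _ _)
    rw [lt_div_iff₀ hC] at h7
    linarith
  -- the radius
  have hwd := Zr.lead_wd hg.1 hm hQ
  have hsmall : ∀ᶠ r : ℝ in 𝓝[>] 0, r < min r0 r5 :=
    (gt_mem_nhds (lt_min hr0 hr5)).filter_mono nhdsWithin_le_nhds
  have hpos : ∀ᶠ r : ℝ in 𝓝[>] 0, 0 < r := self_mem_nhdsWithin
  obtain ⟨ρ, hρw, hρs, hρ⟩ := (hwd.and (hsmall.and hpos)).exists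
  have hρ0 : ρ < r0 := lt_of_lt_of_le hρs (min_le_left _ _)
  have hρ5 : ρ < r5 := lt_of_lt_of_le hρs (min_le_right _ _)
  have hW : Zr.Wd (fun θ => g (0, ρ * Zr.cis θ)) m := by
    have e1 : (fun θ => g ((ρ * Zr.cis θ) • ((0 : H), (1 : ℂ)))) = fun θ => g (0, ρ * Zr.cis θ) := by
      funext θ
      rw [Prod.smul_mk, smul_zero, smul_eq_mul, mul_one]
    rw [← e1]
    exact hρw
  -- compactness
  have hK2 : IsCompact (Metric.closedBall (0:ℂ) ρ ∩ {w : ℂ | ρ / 2 ≤ ‖w‖}) :=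
    (isCompact_closedBall _ _).inter_right (isClosed_le continuous_const continuous_norm)
  have a2 := Zr.RD_cpt (x0 := (0 : H × ℂ)) (v := ((0 : H), (1 : ℂ))) hK2 (q := fun z => g z ≠ 0) (by
    intro w hw
    have hwρ : ‖w‖ ≤ ρ := by simpa using hw.1
    have hw2 : ρ / 2 ≤ ‖w‖ := hw.2
    have e1 : (0 : H × ℂ) + w • ((0 : H), (1 : ℂ)) = (0, w) := by
      rw [zero_add, Prod.smul_mk, smul_zero, smul_eq_mul, mul_one]
    rw [e1]
    have hn : ‖((0 : H), w)‖ = ‖w‖ := by simp [Prod.norm_def]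
    have hin : ((0 : H), w) ∈ Metric.ball (0 : H × ℂ) r0 := by
      rw [mem_ball_zero_iff, hn]
      linarith
    refine (hball _ hin).1.continuousAt.eventually_ne (hax w (by linarith) ?_)
    rintro rfl
    rw [norm_zero] at hw2
    linarith)
  obtain ⟨R1, hR1, hR1'⟩ := Metric.eventually_nhds_iff_ball.1 a2
  set R : ℝ := min R1 (ρ / 4) with hRdef
  have hR : 0 < R := lt_min hR1 (by positivity)
  have hRR1 : R ≤ R1 := min_le_left _ _
  have hRρ : R ≤ ρ / 4 := min_le_right _ _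
  have hmem : ∀ (a : H) (w : ℂ), ‖a‖ < R → ‖w‖ ≤ ρ → (a, w) ∈ Metric.ball (0 : H × ℂ) r0 := by
    intro a w ha hw
    rw [mem_ball_zero_iff, Prod.norm_def]
    exact max_lt (by simp only; linarith) (by simp only; linarith)
  have hB : Box g R ρ := {
    hR := hR
    hρ := hρ
    hRρ := hRρ
    an := fun a ha w hw => (hball _ (hmem a w ha hw)).1
    ne := fun a ha w hw1 hw2 => by
      have h1 := hR1' (a, 0) (by
        rw [mem_ball_zero_iff, Prod.norm_def]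
        exact max_lt (by simp only; linarith) (by simp only [norm_zero]; exact hR1)) w
        ⟨by simpa using hw2, hw1⟩
      have e1 : (a, (0 : ℂ)) + w • ((0 : H), (1 : ℂ)) = (a, w) := by
        rw [Prod.smul_mk, smul_zero, smul_eq_mul, mul_one, Prod.mk_add_mk, add_zero, zero_add]
      rw [e1] at h1
      exact h1
    red := fun a ha w hw h0 => (hball _ (hmem a w ha hw)).2.1 h0 }
  have hP' : IsLocSys (Reg g R ρ) P := by
    refine hP.mono ?_
    rintro ⟨a, w⟩ ⟨h1, h2, h3⟩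
    exact ⟨(hball _ (hmem a w h1 h2.le)).2.2.2, h3⟩
  obtain ⟨s, hs, hs0⟩ := lef hB hP' hW
    (fun a ha w hw h0 => (hball _ (hmem a w ha hw.le)).2.2.1 h0) hlt
  set O : Set (H × ℂ) := {q | ‖q.1‖ < R ∧ ‖q.2‖ < ρ} with hO
  have hOn : O ∈ 𝓝 (0 : H × ℂ) := by
    have e1 : ∀ᶠ q : H × ℂ in 𝓝 0, ‖q.1‖ < R := by
      have := (continuous_fst.norm.tendsto (0 : H × ℂ))
      simp only [Prod.fst_zero, norm_zero] at this
      exact this.eventually (gt_mem_nhds hR)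
    have e2 : ∀ᶠ q : H × ℂ in 𝓝 0, ‖q.2‖ < ρ := by
      have := (continuous_snd.norm.tendsto (0 : H × ℂ))
      simp only [Prod.snd_zero, norm_zero] at this
      exact this.eventually (gt_mem_nhds hρ)
    exact e1.and e2
  have hRO : Reg g R ρ = O \ {q | g q = 0} := by
    ext q
    constructor
    · rintro ⟨h1, h2, h3⟩
      exact ⟨⟨h1, h2⟩, h3⟩
    · rintro ⟨⟨h1, h2⟩, h3⟩
      exact ⟨h1, h2, h3⟩
  have hfin := hsec O hOn s (by rw [← hRO]; exact hs)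
  obtain ⟨r6, hr6, hr6'⟩ := Metric.eventually_nhds_iff_ball.1 hfin
  set t : ℝ := min r6 ρ / 2 with ht
  have ht0 : 0 < t := by
    have : 0 < min r6 ρ := lt_min hr6 hρ
    positivity
  have ht6 : t < r6 := by
    have : min r6 ρ ≤ r6 := min_le_left _ _
    linarith
  have htρ : t < ρ := by
    have : min r6 ρ ≤ ρ := min_le_right _ _
    linarith
  have htn : ‖((t : ℝ) : ℂ)‖ = t := by
    rw [Complex.norm_real, Real.norm_of_nonneg ht0.le]
  have hg0 : g (0, ((t : ℝ) : ℂ)) ≠ 0 := by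
    apply hax
    · rw [htn]
      linarith
    · rw [Ne, Complex.ofReal_eq_zero]
      exact ht0.ne'
  have hz := hr6' (0, ((t : ℝ) : ℂ)) (by
    rw [mem_ball_zero_iff, Prod.norm_def]
    exact max_lt (by simp only [norm_zero]; exact hr6) (by simp only; rw [htn]; exact ht6)) hg0
  exact hs0 (0, ((t : ℝ) : ℂ)) ⟨by simp only [norm_zero]; exact hR, by simp only; rw [htn]; exact htρ, hg0⟩ hz

/-- composition with a linear isomorphism: reducedness -/
theorem LB_red {E E' : Type*} [NormedAddCommGroup E] [NormedSpace ℂ E] [NormedAddCommGroup E'] [NormedSpace ℂ E']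
    {g : E → ℂ} (hg : Zr.Red g) (Θ : E' ≃L[ℂ] E) : Zr.Red (g ∘ Θ) := by
  refine ⟨?_, ?_, ?_⟩
  · have h1 : AnalyticAt ℂ (fun x : E' => Θ x) 0 := (Θ : E' →L[ℂ] E).analyticAt 0
    have h2 : AnalyticAt ℂ g (Θ 0) := by
      rw [map_zero]
      exact hg.1
    exact h2.comp h1
  · show g (Θ 0) = 0
    rw [map_zero]
    exact hg.2.1
  · have hc : Tendsto Θ (𝓝 0) (𝓝 0) := by
      have := Θ.continuous.tendsto 0
      rwa [map_zero] at this
    filter_upwards [hc.eventually hg.2.2] with y hy h0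
    have h1 : y ∈ Θ ⁻¹' closure {q | g q = 0 ∧ fderiv ℂ g q ≠ 0} := hy h0
    have h2 : Θ ⁻¹' closure {q | g q = 0 ∧ fderiv ℂ g q ≠ 0} =
        closure (Θ ⁻¹' {q | g q = 0 ∧ fderiv ℂ g q ≠ 0}) := Θ.toHomeomorph.preimage_closure _
    rw [h2] at h1
    refine closure_mono ?_ h1
    rintro q ⟨h3, h4⟩
    refine ⟨h3, fun h5 => h4 ?_⟩
    rw [Θ.comp_right_fderiv] at h5
    ext z
    have h6 := congrArg (fun L : E' →L[ℂ] ℂ => L (Θ.symm z)) h5
    simpa using h6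

/-- composition with a linear isomorphism: leading forms -/
theorem LB_lead {E E' : Type*} [NormedAddCommGroup E] [NormedSpace ℂ E] [NormedAddCommGroup E'] [NormedSpace ℂ E']
    {g : E → ℂ} {m : ℕ} {Q : E → ℂ} (hm : Zr.Lead g m Q) (Θ : E' ≃L[ℂ] E) : Zr.Lead (g ∘ Θ) m (Q ∘ Θ) where
  diff := hm.diff.comp Θ.differentiable
  hom := fun c x => by
    show Q (Θ (c • x)) = c ^ m * Q (Θ x)
    rw [map_smul, hm.hom]
  ne := by
    obtain ⟨x, hx⟩ := hm.ne
    refine ⟨Θ.symm x, ?_⟩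
    show Q (Θ (Θ.symm x)) ≠ 0
    rwa [Θ.apply_symm_apply]
  approx := by
    obtain ⟨C, hC, r, hr, hap⟩ := hm.approx
    set k : ℝ := ‖(Θ : E' →L[ℂ] E)‖ + 1 with hk
    have hk0 : 0 < k := by positivity
    have hle : ∀ x : E', ‖Θ x‖ ≤ k * ‖x‖ := by
      intro x
      have h1 := (Θ : E' →L[ℂ] E).le_opNorm x
      have h2 : 0 ≤ ‖x‖ := norm_nonneg x
      calc ‖Θ x‖ ≤ ‖(Θ : E' →L[ℂ] E)‖ * ‖x‖ := h1
        _ ≤ k * ‖x‖ := mul_le_mul_of_nonneg_right (by linarith) h2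
    refine ⟨C * k ^ (m + 1), by positivity, r / k, by positivity, fun x hx => ?_⟩
    rw [lt_div_iff₀ hk0] at hx
    have h1 := hap (Θ x) (lt_of_le_of_lt (hle x) (by linarith))
    refine h1.trans ?_
    have h2 : ‖Θ x‖ ^ (m + 1) ≤ (k * ‖x‖) ^ (m + 1) := pow_le_pow_left₀ (norm_nonneg _) (hle x) _
    rw [mul_pow] at h2
    calc C * ‖Θ x‖ ^ (m + 1) ≤ C * (k ^ (m + 1) * ‖x‖ ^ (m + 1)) := mul_le_mul_of_nonneg_left h2 hC.le
      _ = _ := by ring

theorem lower_bound {E : Type*} [NormedAddCommGroup E] [NormedSpace ℂ E] [FiniteDimensional ℂ E] {g : E → ℂ}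
    (hg : Zr.Red g) {m : ℕ} {Q : E → ℂ} (hm : Zr.Lead g m Q) {e : ℕ} (h : HasSys K M {q | g q = 0} e) :
    Module.finrank K M ≤ e * m := by
  obtain ⟨v, hv⟩ := hm.ne
  have hm1 : 1 ≤ m := hm.one_le hg.2.1
  have hv0 : v ≠ 0 := by
    rintro rfl
    have h1 := hm.hom 0 (0 : E)
    rw [smul_zero, zero_pow (by omega), zero_mul] at h1
    exact hv h1
  obtain ⟨l, hl⟩ := SeparatingDual.exists_eq_one (R := ℂ) hv0
  have hri : Function.RightInverse (ContinuousLinearMap.toSpanSingleton ℂ v) l := by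
    intro c
    simp [hl]
  set Ψ := ContinuousLinearEquiv.equivOfRightInverse l (ContinuousLinearMap.toSpanSingleton ℂ v) hri with hΨ
  set Θ := (Ψ.trans (ContinuousLinearEquiv.prodComm ℂ ℂ (LinearMap.ker (l : E →ₗ[ℂ] ℂ)))).symm with hΘ
  have hΘv : Θ (0, 1) = v := by
    rw [hΘ]
    show Ψ.symm ((1 : ℂ), (0 : LinearMap.ker (l : E →ₗ[ℂ] ℂ))) = v
    rw [hΨ]
    simp
  have h1 : HasSys K M {q | (g ∘ Θ) q = 0} e := by
    refine HasSys.transfer (φ := Θ.symm) (ψ := Θ) (V := univ) (W := univ) univ_mem univ_mem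
      (mapsTo_univ _ _) (mapsTo_univ _ _) (fun x _ => Θ.apply_symm_apply x) (fun x _ => Θ.symm_apply_apply x)
      Θ.symm.continuous.continuousOn Θ.continuous.continuousOn (map_zero _) ?_ h
    intro z _
    show g z = 0 ↔ g (Θ (Θ.symm z)) = 0
    rw [Θ.apply_symm_apply]
  refine lower_prod (LB_red hg Θ) (LB_lead hm Θ) ?_ h1
  show Q (Θ (0, 1)) ≠ 0
  rwa [hΘv]

end ZrL
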