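import Pool.Agent.helper60.ZrL.PL
import Pool.Agent.helper60.ZrL.DI
import Pool.Agent.helper60.ZrL.CT
import Pool.Agent.helper60.ZrL.CR
import Pool.Agent.helper60.ZrL.GF

set_option autoImplicit false

/-!
# ZrL, module LF: a nonzero flat section over the box minus the zeros

Let `D` be as in `disc_fn` (DI), `V = {q | g q = 0}`, `G = {q | g q = 0 ∧ Defect P V e q}`; `hG` of `gen_fibre` (GF): if `O ∈ 𝓝 q` is as in `Defect` then the interior of `O` works for every zero `q'` in it. So there is `a`, `‖a‖ < R`, `D a ≠ 0`, all zeros over `a` in `G`.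
`S` = the finset of zeros `w` of `g (a, ·)` with `‖w‖ ≤ ρ` (`Box.fib_fin`; they satisfy `‖w‖ < ρ / 2`). `S.card ≤ m`: the winding number of `θ ↦ g (h, ρ * cis θ)` is the same for `h = 0` and `h = a` (`Wd.htpy` of Zr/M1 along `h = t • a`, `g` is continuous and nonzero on `‖h‖ < R`, `‖w‖ = ρ`), so it is `m` for `a`, and `M7_card` (Zr/M7) with `b := (a, 0)`, `v := (0, ρ)`,
zeros rescaled by `ρ`.
The plane local system `P_a w w' := P (a, w) (a, w')` is a local system on the open set `X_a = {w | ‖w‖ < ρ ∧ g (a, w) ≠ 0}` (pull back by the continuous map `w ↦ (a, w)`, which maps `X_a` into `Reg g R ρ`). `planar` (PL) with `C = ball 0 ρ`, `X = X_a`, `w0 := 3 / 4 * ρ`: hypothesis `hd` for `p ∈ S`: `(a, p) ∈ G` gives `O ∈ 𝓝 (a, p)`; take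
`O' = {w | (a, w) ∈ O} ∩ (ball 0 ρ) ∩ (a small disc around p without other points of S)`; for `x ∈ O' \ {p}`: `(a, x) ∈ O \ V`, and a flat section `s` over `O \ V` gives the flat section `w ↦ s (a, w)` of `P_a` over `O' \ {p}`, so `Val P (O \ V) (a, x) ≤ Val P_a (O' \ {p}) x` (`Submodule.finrank_mono`).
Hence `finrank K M ≤ finrank (Val P_a (ball 0 ρ \ S) w0) + e * m`, and by `hem` this `Val` is not trivial: a flat section `t` of `P_a` over `ball 0 ρ \ S` with `t w0 ≠ 0`. `s q := t q.2` is a flat section over `Fib g ρ a`. `contin` (CT): a flat section over `Y = {q | ‖q.1‖ < R ∧ D q.1 ≠ 0 ∧ ‖q.2‖ < ρ ∧ g q ≠ 0}` with the value `t w0 ≠ 0` at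
`(a, w0)`. `cross` (CR) with `X = Reg g R ρ`: `Y` is open, `X ⊆ closure Y` and the trace condition by `dense_an`, `conn_an` (C1) applied on small balls `O' ⊆ O ∩ X` (balls of `H × ℂ` are convex) to `q ↦ D q.1` (`Y ∩ O' = {q ∈ O' | D q.1 ≠ 0}`; for density: `D` does not vanish identically near any point of the ball of `H`, by `dense_an` on `ball 0 R`).
So there is a flat section `s'` over `Reg g R ρ`, `s' (a, w0) ≠ 0`. It has no zeros: `T = {q | ‖q.1‖ < R ∧ ‖q.2 - w0‖ < ρ / 8} ⊆ Reg g R ρ` is convex, so `s' ≠ 0` on `T` (`IsSec.zero`), and for every `h`, `‖h‖ < R`, the fibre `Fib g ρ h` is preconnected (`Box.fib_conn`) and contains `(h, w0)`.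
-/

noncomputable section

namespace ZrL

open Filter Topology Set

variable {K M : Type*} [Field K] [AddCommGroup M] [Module K M] [FiniteDimensional K M]
variable {H : Type*} [NormedAddCommGroup H] [NormedSpace ℂ H] [FiniteDimensional ℂ H]

omit [FiniteDimensional K M] in
theorem LF_sys {T T' : Type*} [TopologicalSpace T] [TopologicalSpace T'] {P : T → T → (M ≃ₗ[K] M)} {X : Set T}
    {X' : Set T'} {φ : T' → T} (hφ : Continuous φ) (hm : MapsTo φ X' X) (hP : IsLocSys X P) :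
    IsLocSys X' fun w w' => P (φ w) (φ w') := by
  intro x hx
  have ht : ∀ y, Tendsto φ (𝓝[X'] y) (𝓝[X] (φ y)) := fun y =>
    hφ.continuousWithinAt.tendsto_nhdsWithin hm
  filter_upwards [(ht x).eventually (hP (φ x) (hm hx))] with y hy
  exact (ht y).eventually hy

omit [FiniteDimensional K M] in
theorem LF_sec {T T' : Type*} [TopologicalSpace T] [TopologicalSpace T'] {P : T → T → (M ≃ₗ[K] M)} {A : Set T}
    {A' : Set T'} {φ : T' → T} (hφ : Continuous φ) (hm : MapsTo φ A' A) {s : T → M} (hs : IsSec P A s) :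
    IsSec (fun w w' => P (φ w) (φ w')) A' fun w => s (φ w) := by
  intro x hx
  have ht : Tendsto φ (𝓝[A'] x) (𝓝[A] (φ x)) := hφ.continuousWithinAt.tendsto_nhdsWithin hm
  exact ht.eventually (hs (φ x) (hm hx))

omit [FiniteDimensional ℂ H] in
theorem LF_wd {g : H × ℂ → ℂ} {R ρ : ℝ} (hB : Box g R ρ) {m : ℕ} (hm : Zr.Wd (fun θ => g (0, ρ * Zr.cis θ)) m)
    {a : H} (ha : ‖a‖ < R) : Zr.Wd (fun θ => g (a, ρ * Zr.cis θ)) m := by
  have hn : ∀ θ : ℝ, ‖(ρ : ℂ) * Zr.cis θ‖ = ρ := by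
    intro θ
    rw [norm_mul, Zr.cis_norm, mul_one, Complex.norm_real, Real.norm_of_nonneg hB.hρ.le]
  have ht : ∀ t ∈ Icc (0 : ℝ) 1, ‖(t : ℂ) • a‖ < R := by
    intro t ht
    rw [norm_smul, Complex.norm_real, Real.norm_of_nonneg ht.1]
    calc t * ‖a‖ ≤ 1 * ‖a‖ := mul_le_mul_of_nonneg_right ht.2 (norm_nonneg _)
      _ < R := by rw [one_mul]; exact ha
  have hcis := Zr.cis_cont
  have key := Zr.Wd.htpy (H := fun θ t => g ((t : ℂ) • a, ρ * Zr.cis θ)) (k := m) ?_ ?_ ?_ ?_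
  · simpa using key
  · rintro ⟨θ, t⟩ ⟨-, ht'⟩
    have h1 : ContinuousAt g ((t : ℂ) • a, (ρ : ℂ) * Zr.cis θ) := (hB.an _ (ht t ht') _ (hn θ).le).continuousAt
    have h2 : Continuous fun p : ℝ × ℝ => (((p.2 : ℂ) • a, (ρ : ℂ) * Zr.cis p.1) : H × ℂ) := by fun_prop
    exact (ContinuousAt.comp (f := fun p : ℝ × ℝ => (((p.2 : ℂ) • a, (ρ : ℂ) * Zr.cis p.1) : H × ℂ)) (g := g)
      (x := (θ, t)) h1 h2.continuousAt).continuousWithinAt
  · intro t ht' θ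
    have h1 := hn θ
    exact hB.ne _ (ht t ht') _ (by rw [h1]; linarith [hB.hρ]) h1.le
  · intro t _ θ
    simp only [Zr.cis_per]
  · simpa using hm

omit [FiniteDimensional ℂ H] in
theorem LF_card {g : H × ℂ → ℂ} {R ρ : ℝ} (hB : Box g R ρ) {m : ℕ} (hm : Zr.Wd (fun θ => g (0, ρ * Zr.cis θ)) m)
    {a : H} (ha : ‖a‖ < R) (S : Finset ℂ) (hS : ∀ w ∈ S, ‖w‖ ≤ ρ ∧ g (a, w) = 0) : S.card ≤ m := by
  classical
  have hρ : (ρ : ℂ) ≠ 0 := Complex.ofReal_ne_zero.mpr hB.hρ.ne'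
  have hv : ∀ w : ℂ, ((a, 0) : H × ℂ) + w • ((0, (ρ : ℂ)) : H × ℂ) = (a, ρ * w) := by
    intro w
    rw [Prod.smul_mk, Prod.mk_add_mk, smul_zero, add_zero, zero_add, smul_eq_mul, mul_comm]
  have hinj : Function.Injective fun w : ℂ => w / (ρ : ℂ) := fun x y hxy => by
    have h1 : x / (ρ : ℂ) = y / (ρ : ℂ) := hxy
    exact (div_left_inj' hρ).mp h1
  have h1 := Zr.M7_card (g := g) (b := ((a, 0) : H × ℂ)) (v := ((0, (ρ : ℂ)) : H × ℂ)) (N := m) ?_ ?_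
    (S.image fun w : ℂ => w / (ρ : ℂ)) ?_
  · rw [Finset.card_image_of_injective _ hinj] at h1
    exact_mod_cast h1
  · intro w hw
    rw [hv]
    refine hB.an a ha _ ?_
    rw [norm_mul, Complex.norm_real, Real.norm_of_nonneg hB.hρ.le]
    calc ρ * ‖w‖ ≤ ρ * 1 := mul_le_mul_of_nonneg_left hw hB.hρ.le
      _ = ρ := mul_one _
  · simp only [hv]
    exact LF_wd hB hm ha
  · intro w hw
    obtain ⟨z, hz, rfl⟩ := Finset.mem_image.mp hw
    obtain ⟨h2, h3⟩ := hS z hz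
    constructor
    · rw [norm_div, Complex.norm_real, Real.norm_of_nonneg hB.hρ.le, div_le_one hB.hρ]
      exact h2
    · rw [hv, mul_div_cancel₀ _ hρ]
      exact h3

omit [FiniteDimensional ℂ H] in
/-- a flat section over one fibre with a nonzero value -/
theorem LF_fibre {g : H × ℂ → ℂ} {R ρ : ℝ} (hB : Box g R ρ) {P : H × ℂ → H × ℂ → (M ≃ₗ[K] M)}
    (hP : IsLocSys (Reg g R ρ) P) {e m : ℕ} (hm : Zr.Wd (fun θ => g (0, ρ * Zr.cis θ)) m)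
    (hem : e * m < Module.finrank K M) {a : H} (ha : ‖a‖ < R)
    (hdef : ∀ w : ℂ, ‖w‖ ≤ ρ → g (a, w) = 0 → Defect P {q | g q = 0} e (a, w)) {w0 : ℂ} (hw0 : ‖w0‖ < ρ)
    (hgw0 : g (a, w0) ≠ 0) :
    ∃ s : H × ℂ → M, IsSec P (Fib g ρ a) s ∧ s (a, w0) ≠ 0 := by
  classical
  obtain ⟨S, hS⟩ : ∃ S : Finset ℂ, ∀ w, w ∈ S ↔ ‖w‖ ≤ ρ ∧ g (a, w) = 0 :=
    ⟨(hB.fib_fin ha).toFinset, fun w => by rw [Set.Finite.mem_toFinset]; rfl⟩
  have hcard := LF_card hB hm ha S fun w hw => (hS w).mp hw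
  obtain ⟨φ, hφ⟩ : ∃ φ : ℂ → H × ℂ, φ = fun w => (a, w) := ⟨_, rfl⟩
  have hφc : Continuous φ := by rw [hφ]; fun_prop
  have hX : IsOpen (φ ⁻¹' Reg g R ρ) := hB.reg_open.preimage hφc
  have hsys : IsLocSys (φ ⁻¹' Reg g R ρ) fun w w' => P (φ w) (φ w') := LF_sys hφc (fun _ h => h) hP
  have hlt : ∀ p ∈ S, ‖p‖ < ρ := by
    intro p hp
    obtain ⟨h1, h2⟩ := (hS p).mp hp
    by_contra hcon
    exact hB.ne a ha p (by linarith [hB.hρ, not_lt.mp hcon]) h1 h2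
  have hmem : ∀ w : ℂ, w ∈ Metric.ball (0 : ℂ) ρ → w ∉ S → g (φ w) ≠ 0 := by
    intro w hw hwS h
    rw [hφ] at h
    exact hwS ((hS w).mpr ⟨(mem_ball_zero_iff.mp hw).le, h⟩)
  have hCX : Metric.ball (0 : ℂ) ρ \ S ⊆ φ ⁻¹' Reg g R ρ := by
    rintro w ⟨hw, hwS⟩
    have h1 := hmem w hw hwS
    refine ⟨?_, ?_, h1⟩
    · rw [hφ]; exact ha
    · rw [hφ]; exact mem_ball_zero_iff.mp hw
  have hpl := planar (e := e) hX hsys (C := Metric.ball (0 : ℂ) ρ) Metric.isOpen_ball (convex_ball _ _)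
    (S := S) (fun p hp => mem_ball_zero_iff.mpr (hlt p hp)) hCX ?_ (w0 := w0)
    ⟨mem_ball_zero_iff.mpr hw0, fun h => hgw0 ((hS w0).mp h).2⟩
  swap
  · intro p hp
    obtain ⟨h1, h2⟩ := (hS p).mp hp
    obtain ⟨O, hO, hdO⟩ := hdef p h1 h2
    have hO' : φ ⁻¹' O ∈ 𝓝 p := by
      refine hφc.continuousAt.preimage_mem_nhds ?_
      rw [hφ]; exact hO
    have hE : ((S.erase p : Finset ℂ) : Set ℂ)ᶜ ∈ 𝓝 p :=
      (S.erase p).finite_toSet.isClosed.isOpen_compl.mem_nhds fun h => (Finset.mem_erase.mp h).1 rfl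
    have hb : Metric.ball (0 : ℂ) ρ ∈ 𝓝 p := Metric.isOpen_ball.mem_nhds (mem_ball_zero_iff.mpr (hlt p hp))
    refine ⟨φ ⁻¹' O ∩ (Metric.ball (0 : ℂ) ρ ∩ ((S.erase p : Finset ℂ) : Set ℂ)ᶜ),
      inter_mem hO' (inter_mem hb hE), fun x hx => ?_⟩
    have hmaps : MapsTo φ ((φ ⁻¹' O ∩ (Metric.ball (0 : ℂ) ρ ∩ ((S.erase p : Finset ℂ) : Set ℂ)ᶜ)) \ {p})
        (O \ {q | g q = 0}) := by
      rintro y ⟨⟨hy1, hy2, hy3⟩, hy4⟩
      refine ⟨hy1, hmem y hy2 fun h => hy3 ?_⟩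
      exact Finset.mem_coe.mpr (Finset.mem_erase.mpr ⟨hy4, h⟩)
    have h3 := hdO (φ x) (hmaps hx)
    have h4 : Val P (O \ {q | g q = 0}) (φ x) ≤ Val (fun w w' => P (φ w) (φ w'))
        ((φ ⁻¹' O ∩ (Metric.ball (0 : ℂ) ρ ∩ ((S.erase p : Finset ℂ) : Set ℂ)ᶜ)) \ {p}) x := by
      rintro u ⟨s, hs, hu⟩
      exact ⟨fun w => s (φ w), LF_sec hφc hmaps hs, hu⟩
    have h5 := Submodule.finrank_mono h4
    omega
  have h6 : e * S.card ≤ e * m := Nat.mul_le_mul_left _ hcard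
  have h7 : Val (fun w w' => P (φ w) (φ w')) (Metric.ball (0 : ℂ) ρ \ S) w0 ≠ ⊥ := by
    intro h
    rw [h, finrank_bot] at hpl
    omega
  obtain ⟨u, ⟨t, ht, htu⟩, hu0⟩ := (Submodule.ne_bot_iff _).mp h7
  refine ⟨fun q => t q.2, ?_, by rw [← htu] at hu0; exact hu0⟩
  rintro q hq
  obtain ⟨hq1, hq2, hq3⟩ := hq
  have hq' : q = φ q.2 := by rw [hφ]; exact Prod.ext hq1 rfl
  have hmaps : MapsTo (Prod.snd : H × ℂ → ℂ) (Fib g ρ a) (Metric.ball (0 : ℂ) ρ \ S) := by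
    rintro y ⟨hy1, hy2, hy3⟩
    refine ⟨mem_ball_zero_iff.mpr hy2, fun h => hy3 ?_⟩
    have h8 := ((hS y.2).mp h).2
    have h9 : y = (a, y.2) := Prod.ext hy1 rfl
    rw [h9]; exact h8
  have ht' : Tendsto (Prod.snd : H × ℂ → ℂ) (𝓝[Fib g ρ a] q) (𝓝[Metric.ball (0 : ℂ) ρ \ S] q.2) :=
    continuous_snd.continuousWithinAt.tendsto_nhdsWithin hmaps
  filter_upwards [ht'.eventually (ht q.2 (hmaps ⟨hq1, hq2, hq3⟩)), self_mem_nhdsWithin] with y hy hyF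
  have hy' : y = φ y.2 := by rw [hφ]; exact Prod.ext hyF.1 rfl
  rw [← hq', ← hy'] at hy
  exact hy

theorem lef {g : H × ℂ → ℂ} {R ρ : ℝ} (hB : Box g R ρ) {P : H × ℂ → H × ℂ → (M ≃ₗ[K] M)}
    (hP : IsLocSys (Reg g R ρ) P) {e m : ℕ} (hm : Zr.Wd (fun θ => g (0, ρ * Zr.cis θ)) m)
    (hd : ∀ h : H, ‖h‖ < R → ∀ w : ℂ, ‖w‖ < ρ → g (h, w) = 0 →
      (h, w) ∈ closure {q | g q = 0 ∧ Defect P {q | g q = 0} e q})
    (hem : e * m < Module.finrank K M) :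
    ∃ s : H × ℂ → M, IsSec P (Reg g R ρ) s ∧ ∀ q ∈ Reg g R ρ, s q ≠ 0 := by
  have hw : ‖((3 / 4 * ρ : ℝ) : ℂ)‖ = 3 / 4 * ρ := by
    rw [Complex.norm_real, Real.norm_of_nonneg (by linarith [hB.hρ])]
  obtain ⟨w0, hw0⟩ : ∃ w0 : ℂ, w0 = ((3 / 4 * ρ : ℝ) : ℂ) := ⟨_, rfl⟩
  rw [← hw0] at hw
  have hρ := hB.hρ
  have hwlt : ‖w0‖ < ρ := by rw [hw]; linarith
  have hg0 : ∀ h : H, ‖h‖ < R → g (h, w0) ≠ 0 := fun h hh =>
    hB.ne h hh w0 (by rw [hw]; linarith) hwlt.le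
  obtain ⟨D, hD, hD0, hs⟩ := disc_fn hB
  obtain ⟨a, ha, hDa, hG⟩ := gen_fibre hB hD hD0 hs (G := {q | Defect P {q | g q = 0} e q}) (by
      rintro q ⟨O, hO, hdO⟩ _
      refine ⟨interior O, interior_mem_nhds.mpr hO, fun q' hq' _ => ⟨O, ?_, hdO⟩⟩
      exact mem_interior_iff_mem_nhds.mp hq') (fun h hh w hw1 hw2 => by
      refine closure_mono ?_ (hd h hh w hw1 hw2)
      rintro q ⟨h1, h2⟩
      exact ⟨h2, h1⟩)
  obtain ⟨s, hsF, hs0⟩ := LF_fibre hB hP hm hem ha hG hwlt (hg0 a ha)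
  obtain ⟨s', hs', hss'⟩ := contin hB hP hD hs ha hDa hsF
  have hDc : ∀ h : H, ‖h‖ < R → ContinuousAt D h := fun h hh =>
    (hD h (mem_ball_zero_iff.mpr hh)).continuousAt
  have hYo : IsOpen {q : H × ℂ | ‖q.1‖ < R ∧ D q.1 ≠ 0 ∧ ‖q.2‖ < ρ ∧ g q ≠ 0} := by
    rw [isOpen_iff_mem_nhds]
    rintro q ⟨h1, h2, h3, h4⟩
    have h5 : ContinuousAt (fun q : H × ℂ => D q.1) q :=
      ContinuousAt.comp (f := fun q : H × ℂ => q.1) (g := D) (hDc q.1 h1) continuous_fst.continuousAt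
    filter_upwards [hB.reg_open.mem_nhds (⟨h1, h3, h4⟩ : q ∈ Reg g R ρ), h5.eventually_ne h2] with q' h6 h7
    exact ⟨h6.1, h7, h6.2.1, h6.2.2⟩
  have hYX : {q : H × ℂ | ‖q.1‖ < R ∧ D q.1 ≠ 0 ∧ ‖q.2‖ < ρ ∧ g q ≠ 0} ⊆ Reg g R ρ :=
    fun q hq => ⟨hq.1, hq.2.2.1, hq.2.2.2⟩
  obtain ⟨h0, hh0, hDh0⟩ := hD0
  obtain ⟨t, ht, htY⟩ := cross hB.reg_open hP hYo hYX (by
      intro x hx
      rw [Metric.mem_closure_iff]
      intro ε hε
      obtain ⟨r, hr, hball⟩ := Metric.mem_nhds_iff.mp (hB.reg_open.mem_nhds hx)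
      have h1 := dense_an Metric.isOpen_ball (convex_ball (0 : H) R) hD hh0 hDh0
        (x := x.1) (mem_ball_zero_iff.mpr hx.1)
      rw [Metric.mem_closure_iff] at h1
      obtain ⟨h, ⟨hh1, hh2⟩, hh3⟩ := h1 (min ε r) (lt_min hε hr)
      have h2 : dist x (h, x.2) = dist x.1 h := by
        rw [Prod.dist_eq, dist_self, max_eq_left dist_nonneg]
      have h3 : (h, x.2) ∈ Reg g R ρ := hball (by
        rw [Metric.mem_ball, dist_comm, h2]
        exact hh3.trans_le (min_le_right _ _))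
      refine ⟨(h, x.2), ⟨h3.1, hh2, h3.2.1, h3.2.2⟩, ?_⟩
      rw [h2]
      exact hh3.trans_le (min_le_left _ _)) (by
      intro x hx O hO
      obtain ⟨r, hr, hball⟩ := Metric.mem_nhds_iff.mp (inter_mem hO (hB.reg_open.mem_nhds hx))
      refine ⟨Metric.ball x r, Metric.ball_mem_nhds x hr, fun q hq => (hball hq).1, ?_⟩
      have h1 : Metric.ball x r ∩ {q : H × ℂ | ‖q.1‖ < R ∧ D q.1 ≠ 0 ∧ ‖q.2‖ < ρ ∧ g q ≠ 0} =
          {q : H × ℂ | q ∈ Metric.ball x r ∧ (fun q : H × ℂ => D q.1) q ≠ 0} := by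
        ext q
        constructor
        · rintro ⟨h2, h3⟩
          exact ⟨h2, h3.2.1⟩
        · rintro ⟨h2, h3⟩
          have h4 := (hball h2).2
          exact ⟨h2, h4.1, h3, h4.2.1, h4.2.2⟩
      rw [h1]
      refine conn_an Metric.isOpen_ball (convex_ball x r) fun q hq => ?_
      have h5 := (hball hq).2.1
      exact AnalyticAt.fun_comp (f := fun q : H × ℂ => q.1) (g := D) (hD q.1 (mem_ball_zero_iff.mpr h5))
        analyticAt_fst) hs'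
  have hta : t (a, w0) ≠ 0 := by
    rw [htY (a, w0) ⟨ha, hDa, hwlt, hg0 a ha⟩, hss' w0 hwlt (hg0 a ha)]
    exact hs0
  refine ⟨t, ht, fun q hq h0q => hta ?_⟩
  -- along the fibre
  have h1 : t (q.1, w0) = 0 := by
    refine (ht.mono (B := Fib g ρ q.1) ?_).zero (hB.fib_conn hq.1) (x := q) ⟨rfl, hq.2.1, hq.2.2⟩ h0q
      ⟨rfl, hwlt, hg0 q.1 hq.1⟩
    rintro y ⟨hy1, hy2, hy3⟩
    exact ⟨by rw [hy1]; exact hq.1, hy2, hy3⟩
  -- along the base points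
  have h2 : IsPreconnected ((fun h : H => ((h, w0) : H × ℂ)) '' Metric.ball 0 R) :=
    (convex_ball (0 : H) R).isPreconnected.image _ (by fun_prop)
  refine (ht.mono (B := (fun h : H => ((h, w0) : H × ℂ)) '' Metric.ball 0 R) ?_).zero h2
    (x := (q.1, w0)) ⟨q.1, mem_ball_zero_iff.mpr hq.1, rfl⟩ h1 ⟨a, mem_ball_zero_iff.mpr ha, rfl⟩
  rintro y ⟨h, hh, rfl⟩
  have hh' := mem_ball_zero_iff.mp hh
  exact ⟨hh', hwlt, hg0 h hh'⟩

end ZrL
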