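import Pool.Agent.helper60.ZrL.T2

set_option autoImplicit false

/-!
# ZrL, module LH2: step 2 of the local triviality (retraction along the rays from the zeros)
-/

noncomputable section

namespace ZrL

open Filter Topology Set

variable {K M : Type*} [Field K] [AddCommGroup M] [Module K M]
variable {H : Type*} [NormedAddCommGroup H] [NormedSpace ℂ H]

/-- a point on the segment between `w` and its radial image -/
theorem LH2_ray {c w : ℂ} {r s t : ℝ} (hd : 0 < ‖w - c‖) (hle : ‖w - c‖ ≤ r) (hs : 0 ≤ s) (ht : 0 ≤ t)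
    (hst : s + t = 1) : ∃ l : ℝ, 1 ≤ l ∧ l * ‖w - c‖ ≤ r ∧
      s • (c + (r / ‖w - c‖) • (w - c)) + t • w = c + l • (w - c) := by
  have h1 : 1 ≤ r / ‖w - c‖ := (one_le_div hd).2 hle
  refine ⟨s * (r / ‖w - c‖) + t, by nlinarith, ?_, ?_⟩
  · have h2 : (s * (r / ‖w - c‖) + t) * ‖w - c‖ = s * r + t * ‖w - c‖ := by
      field_simp
    rw [h2]
    have e : r = s * r + t * r := by rw [← add_mul, hst, one_mul]
    nlinarith
  · have e : t = 1 - s := by linarith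
    subst e
    simp only [Complex.real_smul]
    push_cast
    ring

/-- a point further out on a ray from a point of a disc, which starts outside the disc, is outside the disc -/
theorem LH2_out {c w p : ℂ} {r l : ℝ} (hc : ‖c - p‖ ≤ r) (hw : r < ‖w - p‖) (hl : 1 ≤ l) :
    r < ‖c + l • (w - c) - p‖ := by
  by_contra hcon
  rw [not_lt] at hcon
  have hl0 : 0 < l := by linarith
  have h1 : w - p = (1 - 1 / l) • (c - p) + (1 / l) • (c + l • (w - c) - p) := by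
    have hlc : (l : ℂ) ≠ 0 := by exact_mod_cast hl0.ne'
    simp only [Complex.real_smul]
    push_cast
    field_simp
    ring
  have h2 : 0 ≤ 1 - 1 / l := by
    rw [sub_nonneg, div_le_one hl0]
    exact hl
  have h3 : 0 ≤ 1 / l := by positivity
  have h4 : ‖w - p‖ ≤ (1 - 1 / l) * ‖c - p‖ + (1 / l) * ‖c + l • (w - c) - p‖ := by
    rw [h1]
    refine (norm_add_le _ _).trans ?_
    rw [norm_smul, norm_smul, Real.norm_of_nonneg h2, Real.norm_of_nonneg h3]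
  have h5 : (1 - 1 / l) * ‖c - p‖ ≤ (1 - 1 / l) * r := mul_le_mul_of_nonneg_left hc h2
  have h6 : (1 / l) * ‖c + l • (w - c) - p‖ ≤ (1 / l) * r := mul_le_mul_of_nonneg_left hcon h3
  have h7 : (1 - 1 / l) * r + (1 / l) * r = r := by ring
  linarith

theorem LH_step2 {X : Set (H × ℂ)} (hX : IsOpen X) {P : H × ℂ → H × ℂ → (M ≃ₗ[K] M)} (hP : IsLocSys X P)
    {g : H × ℂ → ℂ} {ρ r0 : ℝ} {N : Set H} {Z : Finset ℂ} {z : ℂ → H → ℂ} (hr0 : 0 < r0)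
    (hsep : ∀ p ∈ Z, ∀ q ∈ Z, p ≠ q → 8 * r0 < ‖p - q‖) (hbd : ∀ p ∈ Z, ‖p‖ + 8 * r0 < ρ / 2)
    (hzc : ∀ p ∈ Z, ContinuousOn (z p) N) (hz : ∀ p ∈ Z, ∀ h ∈ N, ‖z p h - p‖ < r0)
    (hg : ∀ h ∈ N, ∀ w : ℂ, ‖w‖ ≤ ρ → (g (h, w) = 0 ↔ ∃ p ∈ Z, w = z p h))
    (hO2 : IsOpen {q : H × ℂ | q.1 ∈ N ∧ ‖q.2‖ < ρ ∧ g q ≠ 0})
    (hO2X : {q : H × ℂ | q.1 ∈ N ∧ ‖q.2‖ < ρ ∧ g q ≠ 0} ⊆ X) {s : H × ℂ → M}
    (hs : IsSec P {q : H × ℂ | q.1 ∈ N ∧ ‖q.2‖ < ρ ∧ ∀ p ∈ Z, 2 * r0 < ‖q.2 - p‖} s) :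
    ∃ s' : H × ℂ → M, IsSec P {q : H × ℂ | q.1 ∈ N ∧ ‖q.2‖ < ρ ∧ g q ≠ 0} s' ∧
      ∀ q : H × ℂ, q.1 ∈ N → ‖q.2‖ < ρ → (∀ p ∈ Z, 2 * r0 < ‖q.2 - p‖) → s' q = s q := by
  obtain ⟨O, hO⟩ : ∃ O, O = {q : H × ℂ | q.1 ∈ N ∧ ‖q.2‖ < ρ ∧ g q ≠ 0} := ⟨_, rfl⟩
  obtain ⟨A, hA⟩ : ∃ A, A = {q : H × ℂ | q.1 ∈ N ∧ ‖q.2‖ < ρ ∧ ∀ p ∈ Z, 2 * r0 < ‖q.2 - p‖} := ⟨_, rfl⟩
  rw [← hO] at hO2 hO2X ⊢
  rw [← hA] at hs
  have hOm : ∀ q : H × ℂ, q ∈ O ↔ q.1 ∈ N ∧ ‖q.2‖ < ρ ∧ ∀ p ∈ Z, q.2 ≠ z p q.1 := by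
    intro q
    rw [hO]
    show (q.1 ∈ N ∧ ‖q.2‖ < ρ ∧ g q ≠ 0) ↔ _
    constructor
    · rintro ⟨h1, h2, h3⟩
      exact ⟨h1, h2, fun p hp h4 => h3 ((hg q.1 h1 q.2 h2.le).2 ⟨p, hp, h4⟩)⟩
    · rintro ⟨h1, h2, h3⟩
      refine ⟨h1, h2, fun h4 => ?_⟩
      obtain ⟨p, hp, h5⟩ := (hg q.1 h1 q.2 h2.le).1 h4
      exact h3 p hp h5
  have hAm : ∀ q : H × ℂ, q ∈ A ↔ q.1 ∈ N ∧ ‖q.2‖ < ρ ∧ ∀ p ∈ Z, 2 * r0 < ‖q.2 - p‖ := by
    intro q
    rw [hA]
    exact Iff.rfl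
  obtain ⟨W, hW⟩ : ∃ W : ℂ → H × ℂ → ℂ, W = fun p q =>
    (max 1 (3 * r0 / ‖q.2 - z p q.1‖) - 1 : ℝ) • (q.2 - z p q.1) := ⟨_, rfl⟩
  obtain ⟨e, he⟩ : ∃ e : H × ℂ → H × ℂ, e = fun q => (q.1, q.2 + ∑ p ∈ Z, W p q) := ⟨_, rfl⟩
  have hAO : A ⊆ O := by
    intro q hq
    rw [hAm] at hq
    rw [hOm]
    refine ⟨hq.1, hq.2.1, fun p hp h1 => ?_⟩
    have h2 := hq.2.2 p hp
    have h3 := hz p hp q.1 hq.1
    rw [h1] at h2
    linarith
  have hW0 : ∀ p (q : H × ℂ), 3 * r0 ≤ ‖q.2 - z p q.1‖ → W p q = 0 := by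
    intro p q h1
    have h2 : 3 * r0 / ‖q.2 - z p q.1‖ ≤ 1 := (div_le_one (by linarith)).2 h1
    rw [hW]
    simp only
    rw [max_eq_left h2, sub_self, zero_smul]
  -- distances of the zeros
  have hzz : ∀ p ∈ Z, ∀ p' ∈ Z, p ≠ p' → ∀ h ∈ N, 6 * r0 < ‖z p h - z p' h‖ := by
    intro p hp p' hp' hne h hh
    have h1 := hsep p hp p' hp' hne
    have h2 := hz p hp h hh
    have h3 := hz p' hp' h hh
    have h4 : p - p' = (z p h - z p' h) - (z p h - p) + (z p' h - p') := by ring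
    have h5 := norm_add_le ((z p h - z p' h) - (z p h - p)) (z p' h - p')
    have h6 := norm_sub_le (z p h - z p' h) (z p h - p)
    rw [← h4] at h5
    linarith
  have hdich : ∀ q ∈ O, e q = q ∧ (∀ p ∈ Z, 3 * r0 ≤ ‖q.2 - z p q.1‖) ∨
      ∃ p ∈ Z, 0 < ‖q.2 - z p q.1‖ ∧ ‖q.2 - z p q.1‖ ≤ 3 * r0 ∧
        e q = (q.1, z p q.1 + (3 * r0 / ‖q.2 - z p q.1‖) • (q.2 - z p q.1)) := by
    intro q hq
    rw [hOm] at hq
    by_cases hex : ∃ p ∈ Z, ‖q.2 - z p q.1‖ < 3 * r0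
    · right
      obtain ⟨p, hp, h1⟩ := hex
      have h2 : 0 < ‖q.2 - z p q.1‖ := norm_pos_iff.2 (sub_ne_zero.2 (hq.2.2 p hp))
      refine ⟨p, hp, h2, h1.le, ?_⟩
      have h3 : ∑ p' ∈ Z, W p' q = W p q := by
        refine Finset.sum_eq_single_of_mem p hp fun p' hp' hne => hW0 p' q ?_
        have h4 := hzz p hp p' hp' hne.symm q.1 hq.1
        have h5 : z p q.1 - z p' q.1 = (q.2 - z p' q.1) - (q.2 - z p q.1) := by ring
        have h6 := norm_sub_le (q.2 - z p' q.1) (q.2 - z p q.1)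
        rw [← h5] at h6
        linarith
      have h7 : 1 ≤ 3 * r0 / ‖q.2 - z p q.1‖ := (one_le_div h2).2 h1.le
      rw [he]
      simp only
      rw [h3, hW]
      simp only
      rw [max_eq_right h7]
      congr 1
      simp only [Complex.real_smul]
      push_cast
      ring
    · left
      push Not at hex
      refine ⟨?_, hex⟩
      have h3 : ∑ p' ∈ Z, W p' q = 0 := Finset.sum_eq_zero fun p' hp' => hW0 p' q (hex p' hp')
      rw [he]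
      simp only
      rw [h3, add_zero]
  -- points of the segments
  have hseg : ∀ (h : H) (a b : ℂ) (x : H × ℂ), x ∈ segment ℝ ((h, a) : H × ℂ) (h, b) →
      ∃ s t : ℝ, 0 ≤ s ∧ 0 ≤ t ∧ s + t = 1 ∧ x = (h, s • a + t • b) := by
    rintro h a b x ⟨s, t, hs0, ht0, hst, rfl⟩
    refine ⟨s, t, hs0, ht0, hst, ?_⟩
    have h1 : s • h + t • h = h := by rw [← add_smul, hst, one_smul]
    ext1
    · exact h1
    · rfl
  -- facts on a ray
  have hray : ∀ h ∈ N, ∀ p ∈ Z, ∀ w : ℂ, 0 < ‖w - z p h‖ → ∀ l : ℝ, 1 ≤ l → l * ‖w - z p h‖ ≤ 3 * r0 →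
      ‖z p h + l • (w - z p h)‖ < ρ ∧ (∀ p' ∈ Z, z p h + l • (w - z p h) ≠ z p' h) ∧
      ∀ p' ∈ Z, p' ≠ p → 2 * r0 < ‖z p h + l • (w - z p h) - p'‖ := by
    intro h hh p hp w hd l hl hle
    obtain ⟨x, hx⟩ : ∃ x, x = z p h + l • (w - z p h) := ⟨_, rfl⟩
    rw [← hx]
    have hxn : ‖x - z p h‖ = l * ‖w - z p h‖ := by
      rw [hx, add_sub_cancel_left, norm_smul, Real.norm_of_nonneg (by linarith)]
    have hx0 : 0 < ‖x - z p h‖ := by
      rw [hxn]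
      exact mul_pos (by linarith) hd
    have hx3 : ‖x - z p h‖ ≤ 3 * r0 := by
      rw [hxn]
      exact hle
    have hzp := hz p hp h hh
    have hxp : ‖x - p‖ ≤ 4 * r0 := by
      have h1 : x - p = (x - z p h) + (z p h - p) := by ring
      have h2 := norm_add_le (x - z p h) (z p h - p)
      rw [← h1] at h2
      linarith
    refine ⟨?_, fun p' hp' h1 => ?_, fun p' hp' hne => ?_⟩
    · have h1 : x = (x - p) + p := by ring
      have h2 := norm_add_le (x - p) p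
      rw [← h1] at h2
      have h3 := hbd p hp
      have h4 := norm_nonneg p
      linarith
    · by_cases hne : p' = p
      · rw [hne] at h1
        rw [h1, sub_self, norm_zero] at hx0
        exact lt_irrefl _ hx0
      · have h2 := hzz p hp p' hp' (Ne.symm hne) h hh
        rw [← h1, norm_sub_rev] at h2
        linarith
    · have h2 := hsep p hp p' hp' (Ne.symm hne)
      have h3 : p - p' = (x - p') - (x - p) := by ring
      have h4 := norm_sub_le (x - p') (x - p)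
      rw [← h3] at h4
      linarith
  have hm : MapsTo e O A := by
    intro q hq
    have hq' := (hOm q).1 hq
    rcases hdich q hq with ⟨h1, h2⟩ | ⟨p, hp, h1, h2, h3⟩
    · rw [h1, hAm]
      refine ⟨hq'.1, hq'.2.1, fun p hp => ?_⟩
      have h3 := h2 p hp
      have h4 := hz p hp q.1 hq'.1
      have h5 : q.2 - z p q.1 = (q.2 - p) - (z p q.1 - p) := by ring
      have h6 := norm_sub_le (q.2 - p) (z p q.1 - p)
      rw [← h5] at h6
      linarith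
    · have h4 : 1 ≤ 3 * r0 / ‖q.2 - z p q.1‖ := (one_le_div h1).2 h2
      have h5 : 3 * r0 / ‖q.2 - z p q.1‖ * ‖q.2 - z p q.1‖ = 3 * r0 := div_mul_cancel₀ _ h1.ne'
      obtain ⟨g1, -, g3⟩ := hray q.1 hq'.1 p hp q.2 h1 _ h4 h5.le
      rw [h3, hAm]
      refine ⟨hq'.1, g1, fun p' hp' => ?_⟩
      by_cases hne : p' = p
      · rw [hne]
        show 2 * r0 < ‖z p q.1 + (3 * r0 / ‖q.2 - z p q.1‖) • (q.2 - z p q.1) - p‖
        have h6 := hz p hp q.1 hq'.1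
        have h7 : ‖(3 * r0 / ‖q.2 - z p q.1‖) • (q.2 - z p q.1)‖ = 3 * r0 := by
          rw [norm_smul, Real.norm_of_nonneg (by linarith), h5]
        have h8 : (3 * r0 / ‖q.2 - z p q.1‖) • (q.2 - z p q.1) =
            (z p q.1 + (3 * r0 / ‖q.2 - z p q.1‖) • (q.2 - z p q.1) - p) - (z p q.1 - p) := by ring
        have h9 := norm_sub_le (z p q.1 + (3 * r0 / ‖q.2 - z p q.1‖) • (q.2 - z p q.1) - p)
          (z p q.1 - p)
        rw [← h8, h7] at h9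
        linarith
      · exact g3 p' hp' hne
  have hc : ContinuousOn e O := by
    rw [he]
    have hfst : MapsTo (fun q : H × ℂ => q.1) O N := fun q hq => ((hOm q).1 hq).1
    have hzc' : ∀ p ∈ Z, ContinuousOn (fun q : H × ℂ => q.2 - z p q.1) O := fun p hp =>
      continuousOn_snd.sub ((hzc p hp).comp continuousOn_fst hfst)
    refine continuousOn_fst.prodMk (continuousOn_snd.add (continuousOn_finsetSum _ fun p hp => ?_))
    rw [hW]
    have h1 : ContinuousOn (fun q : H × ℂ => 3 * r0 / ‖q.2 - z p q.1‖) O :=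
      continuousOn_const.div (hzc' p hp).norm fun q hq =>
        norm_ne_zero_iff.2 (sub_ne_zero.2 (((hOm q).1 hq).2.2 p hp))
    exact ((ContinuousOn.sup continuousOn_const h1).sub continuousOn_const).smul (hzc' p hp)
  have hsg1 : ∀ q ∈ O, segment ℝ (e q) q ⊆ O := by
    intro q hq
    have hq' := (hOm q).1 hq
    rcases hdich q hq with ⟨h1, -⟩ | ⟨p, hp, h1, h2, h3⟩
    · rw [h1, segment_same, singleton_subset_iff]
      exact hq
    · intro x hx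
      rw [h3] at hx
      obtain ⟨σ, τ, hσ, hτ, hστ, rfl⟩ := hseg q.1 _ q.2 x hx
      obtain ⟨l, hl1, hl2, hl3⟩ := LH2_ray h1 h2 hσ hτ hστ
      rw [hl3, hOm]
      obtain ⟨g1, g2, -⟩ := hray q.1 hq'.1 p hp q.2 h1 l hl1 hl2
      exact ⟨hq'.1, g1, g2⟩
  have hsg2 : ∀ q ∈ A, segment ℝ (e q) q ⊆ A := by
    intro q hq
    have hq' := (hAm q).1 hq
    rcases hdich q (hAO hq) with ⟨h1, -⟩ | ⟨p, hp, h1, h2, h3⟩
    · rw [h1, segment_same, singleton_subset_iff]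
      exact hq
    · intro x hx
      rw [h3] at hx
      obtain ⟨σ, τ, hσ, hτ, hστ, rfl⟩ := hseg q.1 _ q.2 x hx
      obtain ⟨l, hl1, hl2, hl3⟩ := LH2_ray h1 h2 hσ hτ hστ
      rw [hl3, hAm]
      obtain ⟨g1, -, g3⟩ := hray q.1 hq'.1 p hp q.2 h1 l hl1 hl2
      refine ⟨hq'.1, g1, fun p' hp' => ?_⟩
      by_cases hne : p' = p
      · rw [hne]
        have h6 := hz p hp q.1 hq'.1
        exact LH2_out (by linarith) (hq'.2.2 p hp) hl1
      · exact g3 p' hp' hne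
  obtain ⟨s', hs', hss⟩ := retract hX hP hO2 hO2X hAO hc hm hsg1 hsg2 hs
  exact ⟨s', hs', fun q h1 h2 h3 => hss q ((hAm q).2 ⟨h1, h2, h3⟩)⟩

end ZrL
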