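import Pool.Agent.helper60.ZrL.T1

set_option autoImplicit false

/-!
# ZrL, module T2: extension of flat sections along a straight-line retraction

`retract`: for `y ∈ O` choose (T1, `tube`, with `a = e y`, `b = y`, `u = s (e y)`) a tube section `σ_y` around `segment (e y) y` and put `s' y := σ_y y`. By uniqueness
(`IsSec.unique` on the segment, which is convex, hence preconnected) `s' y` is the value at `y` of ANY flat section on a set containing `segment (e y) y` whose value at `e y` is `s (e y)`.
For `y ∈ A`: `segment (e y) y ⊆ A` and `s` itself is such a section, so `s' y = s y`. Local constancy at `y ∈ O`: for `y'` near `y` (in `O`, `O` open) `e y'` is near `e y`, so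
`segment (e y') y'` lies in the tube of `σ_y` (a tube around a convex set is convex: `Convex.thickening`, `Convex.segment_subset`; both end points are in it), and `σ_y (e y') = s (e y')` for `y'` near `y`, because both
equal `P (e y) (e y') (s (e y))` (`hs` at `e y`, within `A`: `e y' ∈ A` and `e y' → e y`; and `σ_y` is a section on the open tube). Hence `s' y' = σ_y y'` for `y'` near `y`, and `s' y' = σ_y y' = P y y' (σ_y y) = P y y' (s' y)`.

`convex_sec`: `retract` with `A = {x}`, `s = fun _ => u`, `e = fun _ => x` (`IsSec P {x} (fun _ => u)` by `IsLocSys.self`).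
-/

noncomputable section

namespace ZrL

open Filter Topology Set

variable {K M : Type*} [Field K] [AddCommGroup M] [Module K M]
variable {E : Type*} [NormedAddCommGroup E] [NormedSpace ℝ E]

theorem retract {X O A : Set E} (hX : IsOpen X) {P : E → E → (M ≃ₗ[K] M)} (hP : IsLocSys X P) (hO : IsOpen O)
    (hOX : O ⊆ X) (hAO : A ⊆ O) {e : E → E} (he : ContinuousOn e O) (hm : MapsTo e O A)
    (h1 : ∀ y ∈ O, segment ℝ (e y) y ⊆ O) (h2 : ∀ y ∈ A, segment ℝ (e y) y ⊆ A) {s : E → M} (hs : IsSec P A s) :
    ∃ s' : E → M, IsSec P O s' ∧ ∀ y ∈ A, s' y = s y := by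
  choose! ε hε hXε σ hσ0 hσ using fun y (hy : y ∈ O) => tube hX hP ((h1 y hy).trans hOX) (s (e y))
  have hseg : ∀ y ∈ O, segment ℝ (e y) y ⊆ Metric.thickening (ε y) (segment ℝ (e y) y) :=
    fun y hy => Metric.self_subset_thickening (hε y hy) _
  have hU : ∀ y ∈ O, ∀ (B : Set E) (τ : E → M), segment ℝ (e y) y ⊆ B → IsSec P B τ →
      τ (e y) = s (e y) → τ y = σ y y := by
    intro y hy B τ hB hτ h0
    exact (hτ.mono hB).unique ((hσ y hy).mono (hseg y hy)) (convex_segment _ _).isPreconnected
      (left_mem_segment ℝ (e y) y) (h0.trans (hσ0 y hy).symm) (right_mem_segment ℝ (e y) y)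
  refine ⟨fun y => σ y y, fun y hy => ?_, fun y hy => ?_⟩
  · obtain ⟨Th, hTh⟩ : ∃ Th, Th = Metric.thickening (ε y) (segment ℝ (e y) y) := ⟨_, rfl⟩
    have hTo : IsOpen Th := by
      rw [hTh]
      exact Metric.isOpen_thickening
    have hTc : Convex ℝ Th := by
      rw [hTh]
      exact (convex_segment _ _).thickening _
    have hyT : y ∈ Th := by
      rw [hTh]
      exact hseg y hy (right_mem_segment ℝ (e y) y)
    have heT : e y ∈ Th := by
      rw [hTh]
      exact hseg y hy (left_mem_segment ℝ (e y) y)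
    have hσT : IsSec P Th (σ y) := by
      rw [hTh]
      exact hσ y hy
    have ht : Tendsto e (𝓝[O] y) (𝓝 (e y)) := he y hy
    have htA : Tendsto e (𝓝[O] y) (𝓝[A] (e y)) :=
      tendsto_nhdsWithin_iff.2 ⟨ht, eventually_mem_nhdsWithin.mono fun z hz => hm hz⟩
    have hσe := hσT (e y) heT
    rw [hTo.nhdsWithin_eq heT] at hσe
    have hσy := hσT y hyT
    rw [hTo.nhdsWithin_eq hyT] at hσy
    filter_upwards [eventually_mem_nhdsWithin, nhdsWithin_le_nhds (hTo.mem_nhds hyT),
      ht (hTo.mem_nhds heT), htA (hs (e y) (hm hy)), ht hσe, nhdsWithin_le_nhds hσy]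
      with y' g1 g2 g3 g4 g5 g6
    have g3' : e y' ∈ Th := g3
    have g4' : s (e y') = P (e y) (e y') (s (e y)) := g4
    have g5' : σ y (e y') = P (e y) (e y') (σ y (e y)) := g5
    have g6' : σ y y' = P y y' (σ y y) := g6
    have g7 : σ y y' = σ y' y' := hU y' g1 Th (σ y) (hTc.segment_subset g3' g2) hσT (by
      rw [g5', g4', hσ0 y hy])
    show σ y' y' = P y y' (σ y y)
    rw [← g7, g6']
  · exact (hU y (hAO hy) A s (h2 y hy) hs rfl).symm

theorem convex_sec {X O : Set E} (hX : IsOpen X) {P : E → E → (M ≃ₗ[K] M)} (hP : IsLocSys X P) (hO : IsOpen O)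
    (hc : Convex ℝ O) (hOX : O ⊆ X) {x : E} (hx : x ∈ O) (u : M) : ∃ s : E → M, IsSec P O s ∧ s x = u := by
  have hsec : IsSec P {x} (fun _ => u) := by
    intro y hy
    rw [mem_singleton_iff] at hy
    subst hy
    rw [nhdsWithin_singleton]
    exact (hP.self (hOX hx) u).symm
  obtain ⟨s', h1, h2⟩ := retract hX hP hO hOX (A := {x}) (singleton_subset_iff.2 hx)
    (e := fun _ => x) continuousOn_const (fun _ _ => mem_singleton x)
    (fun y hy => hc.segment_subset hx hy) (fun y hy => by
      rw [mem_singleton_iff] at hy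
      subst hy
      rw [segment_same]) hsec
  exact ⟨s', h1, h2 x (mem_singleton x)⟩

end ZrL
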