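import Pool.Agent.helper60.ZrL.RT
import Pool.Agent.helper60.ZrL.T2
import Pool.Agent.helper60.ZrL.LH2

set_option autoImplicit false

/-!
# ZrL, module LH: local triviality over a point with simple zeros

Let `r0, ε, Z, z` be as in `roots` (RT), `N = ball b ε`. `X := Reg g R ρ` (open, `Box.reg_open`). Given `b' ∈ N` and `s` over the fibre `Fib g ρ b'`:
Step 1. `K = {w | ‖w‖ < ρ ∧ ∀ p ∈ Z, 2 * r0 < ‖w - p‖}` (open). `N × K ⊆ X` (a zero over `h ∈ N` is some `z p h`, within `r0` of `p`). `retract` (T2) with `O₁ = {q | q.1 ∈ N ∧ q.2 ∈ K}`, `A = {q | q.1 = b' ∧ q.2 ∈ K} ⊆ Fib g ρ b'`, `e q = (b', q.2)`: segments `segment ((b', w)) ((h, w))` lie in `N × {w}` (`N` convex), and for `q ∈ A`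
`e q = q`. This gives a flat section `s₁` over `O₁` with `s₁ (b', w) = s (b', w)` for `w ∈ K`.
Step 2. `O₂ = {q | q.1 ∈ N ∧ ‖q.2‖ < ρ ∧ g q ≠ 0}` (open), `A₂ = O₁`, `e (h, w) = (h, w')` with `w' = z p h + 3 * r0 / ‖w - z p h‖ * (w - z p h)` if `‖w - z p h‖ ≤ 3 * r0` for some `p ∈ Z`, and `w' = w` otherwise. (The closed discs of radius `3 * r0` around the `z p h`, `p ∈ Z`, are disjoint and inside `‖w‖ < ρ / 2`. One formula:
`w' = w + ∑ p ∈ Z, (max 1 (3 * r0 / ‖w - z p h‖) - 1) * (w - z p h)`; continuous on `O₂`.) `‖w' - z p h‖ ≥ 3 * r0` for all `p`, so `‖w' - p‖ > 2 * r0`, `‖w'‖ < ρ`: `e` maps `O₂` to `O₁`. The segment from `e (h, w)` to `(h, w)` lies on the ray from `z p h` through `w`, inside the punctured disc of radius `3 * r0` around `z p h`: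
in `O₂`. For `(h, w) ∈ O₁` and `‖w - z p h‖ ≤ 3 * r0` the segment stays outside the closed disc `{‖· - p‖ ≤ 2 * r0}`: this disc is convex and contains `z p h`, so if a point further out on the ray were in it then `w` would be, too; it stays outside the discs around the other `q ∈ Z` (distance). `retract` gives `s'` over `O₂` with `s' = s₁` on `O₁`.
For `ρ / 2 ≤ ‖w‖ < ρ`: `w ∈ K` (`‖p‖ + 8 * r0 < ρ / 2`), so `s' (b', w) = s₁ (b', w) = s (b', w)`.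
-/

noncomputable section

namespace ZrL

open Filter Topology Set

variable {K M : Type*} [Field K] [AddCommGroup M] [Module K M]
variable {H : Type*} [NormedAddCommGroup H] [NormedSpace ℂ H] [FiniteDimensional ℂ H]

theorem loc_triv {g : H × ℂ → ℂ} {R ρ : ℝ} (hB : Box g R ρ) {P : H × ℂ → H × ℂ → (M ≃ₗ[K] M)}
    (hP : IsLocSys (Reg g R ρ) P) {b : H} (hb : ‖b‖ < R) (hs : Simp g ρ b) :
    ∃ ε : ℝ, 0 < ε ∧ Metric.ball b ε ⊆ Metric.ball 0 R ∧ ∀ b' ∈ Metric.ball b ε, ∀ s : H × ℂ → M,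
      IsSec P (Fib g ρ b') s → ∃ s' : H × ℂ → M,
        IsSec P {q | q.1 ∈ Metric.ball b ε ∧ ‖q.2‖ < ρ ∧ g q ≠ 0} s' ∧
          ∀ w : ℂ, ρ / 2 ≤ ‖w‖ → ‖w‖ < ρ → s' (b', w) = s (b', w) := by
  obtain ⟨r0, ε, Z, z, hr0, hε, hsub, hZ, hsep, hin, hcont, hnear, hzero⟩ := roots hB hb hs
  refine ⟨ε, hε, hsub, fun b' hb' s hsec => ?_⟩
  set O2 : Set (H × ℂ) := {q | q.1 ∈ Metric.ball b ε ∧ ‖q.2‖ < ρ ∧ g q ≠ 0} with hO2def
  set O1 : Set (H × ℂ) := {q | q.1 ∈ Metric.ball b ε ∧ ‖q.2‖ < ρ ∧ ∀ p ∈ Z, 2 * r0 < ‖q.2 - p‖} with hO1def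
  set A : Set (H × ℂ) := {q | q.1 = b' ∧ ‖q.2‖ < ρ ∧ ∀ p ∈ Z, 2 * r0 < ‖q.2 - p‖} with hAdef
  have hball : IsOpen {q : H × ℂ | q.1 ∈ Metric.ball b ε} := Metric.isOpen_ball.preimage continuous_fst
  have hR : ∀ h ∈ Metric.ball b ε, ‖h‖ < R := fun h hh => by simpa using hsub hh
  have hO2X : O2 ⊆ Reg g R ρ := fun q hq => ⟨hR _ hq.1, hq.2.1, hq.2.2⟩
  have hO2 : IsOpen O2 := by
    have h1 : O2 = {q : H × ℂ | q.1 ∈ Metric.ball b ε} ∩ Reg g R ρ := by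
      ext q
      exact ⟨fun hq => ⟨hq.1, hO2X hq⟩, fun hq => ⟨hq.1, hq.2.2.1, hq.2.2.2⟩⟩
    rw [h1]
    exact hball.inter hB.reg_open
  have hO1O2 : O1 ⊆ O2 := by
    rintro q ⟨h1, h2, h3⟩
    refine ⟨h1, h2, fun h4 => ?_⟩
    obtain ⟨p, hp, h5⟩ := (hzero q.1 h1 q.2 h2.le).1 h4
    have h6 := hnear p hp q.1 h1
    have h7 := h3 p hp
    rw [← h5] at h6
    linarith
  have hO1 : IsOpen O1 := by
    have h2 : IsOpen {q : H × ℂ | ‖q.2‖ < ρ} := isOpen_lt continuous_snd.norm continuous_const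
    have h3 : IsOpen {q : H × ℂ | ∀ p ∈ Z, 2 * r0 < ‖q.2 - p‖} := by
      have h4 : {q : H × ℂ | ∀ p ∈ Z, 2 * r0 < ‖q.2 - p‖} = ⋂ p ∈ Z, {q : H × ℂ | 2 * r0 < ‖q.2 - p‖} := by
        ext q
        simp
      rw [h4]
      exact isOpen_biInter_finset fun p _ => isOpen_lt continuous_const (continuous_snd.sub continuous_const).norm
    exact hball.inter (h2.inter h3)
  have hAO1 : A ⊆ O1 := fun q hq => ⟨by rw [hq.1]; exact hb', hq.2.1, hq.2.2⟩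
  have hAF : A ⊆ Fib g ρ b' := fun q hq => ⟨hq.1, hq.2.1, (hO1O2 (hAO1 hq)).2.2⟩
  obtain ⟨s₁, hs₁, hs₁A⟩ := retract hB.reg_open hP hO1 (hO1O2.trans hO2X) hAO1 (e := fun q => (b', q.2))
    (Continuous.continuousOn (by fun_prop)) (fun q hq => ⟨rfl, hq.2.1, hq.2.2⟩)
    (fun y hy x hx => by
      have h1 : Convex ℝ (Metric.ball b ε ×ˢ ({y.2} : Set ℂ)) := (convex_ball b ε).prod (convex_singleton y.2)
      have h2 := h1.segment_subset (x := (b', y.2)) (y := y) ⟨hb', rfl⟩ ⟨hy.1, rfl⟩ hx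
      have h3 : x.2 = y.2 := h2.2
      exact ⟨h2.1, by rw [h3]; exact hy.2.1, fun p hp => by rw [h3]; exact hy.2.2 p hp⟩)
    (fun y hy x hx => by
      have h1 : ((b', y.2) : H × ℂ) = y := Prod.ext hy.1.symm rfl
      simp only [h1, segment_same, mem_singleton_iff] at hx
      rw [hx]
      exact hy)
    (hsec.mono hAF)
  obtain ⟨s', hs', hs'1⟩ := LH_step2 hB.reg_open hP hr0 hsep hin hcont hnear hzero hO2 hO2X hs₁
  refine ⟨s', hs', fun w hw1 hw2 => ?_⟩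
  have hwA : ((b', w) : H × ℂ) ∈ A := by
    refine ⟨rfl, hw2, fun p hp => ?_⟩
    have h1 := hin p hp
    have h2 : ‖w‖ ≤ ‖w - p‖ + ‖p‖ := by
      calc ‖w‖ = ‖(w - p) + p‖ := by rw [sub_add_cancel]
        _ ≤ ‖w - p‖ + ‖p‖ := norm_add_le _ _
    show 2 * r0 < ‖w - p‖
    linarith
  rw [hs'1 _ (hAO1 hwA).1 (hAO1 hwA).2.1 (hAO1 hwA).2.2, hs₁A _ hwA]

end ZrL
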