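import Pool.Agent.helper60.ZrL.C1
import Pool.Agent.helper60.ZrL.T2

set_option autoImplicit false

/-!
# ZrL, module PL: flat sections over a convex plane domain minus a finite set

`val_le`: the flat sections `s` over `A` with `s x ∈ V`; if `u_1, …, u_r` is a basis of `Val P A x` with sections `s_i`, the vectors `s_i y` are linearly independent in `Val P A y`: a relation `∑ c_i s_i y = 0` gives (`IsSec.zero` for the section `∑ c_i s_i`) `∑ c_i u_i = 0`.
(Or: choose a linear map `L : Val P A x →ₗ Val P A y`, `u ↦ s_u y`; it is well defined and linear by `IsSec.unique` and injective by `IsSec.zero`; `LinearMap.finrank_le_finrank_of_injective`.)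

`planar`: induction on `S.card`. `S = ∅`: `convex_sec` (T2) gives `Val P C w0 = ⊤`. `S = {p}`: let `O ∈ 𝓝 p` be as in `hd`, `r > 0` with `ball p r ⊆ O ∩ C`. The flat sections over `O \ {p}` restrict to `ball p r \ {p}`; these extend to `C \ {p}` by `retract` (T2) with `A = ball p r \ {p}`,
`e w = p + (min 1 (r / 2 / ‖w - p‖) : ℝ) • (w - p)` (`segment (e w) w` lies on the ray from `p` through `w`, between `e w ≠ p` and `w`). So at `x ∈ ball p r \ {p}`: `Val P (O \ {p}) x ≤ Val P (C \ {p}) x`; move to `w0` by `val_le` (`C \ {p}` is preconnected, `conn_diff`).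
`2 ≤ S.card`: let `p ∈ S` have maximal norm, `f w = (w * conj p).re` (real linear, continuous): `f p = ‖p‖ ^ 2 > f q` for `q ∈ S`, `q ≠ p` (`p ≠ 0`, because `S` has two elements). Choose `α < β` strictly between `max f (S \ p)` and `f p`. `C₁ = C ∩ {f < β}` and `C₂ = C ∩ {f > α}` are open and convex, `C₁ ∩ S = S \ p`,
`C₂ ∩ S = {p}`, and `C₁ ∩ C₂` is convex, open, meets no point of `S` and is not empty (a point of the segment from `p` to `q`). Let `x ∈ C₁ ∩ C₂`. By induction `d ≤ finrank (Val P (C₁ \ S) x) + e * (S.card - 1)`, `d ≤ finrank (Val P (C₂ \ S) x) + e`, so the intersection `I` of both subspaces of `M` has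
`d ≤ finrank I + e * S.card` (`Submodule.finrank_sup_add_finrank_inf_eq`, `Submodule.finrank_le`), and `I ≤ Val P (C \ S) x` by gluing (`IsSec.unique` on `C₁ ∩ C₂`, `IsSec.glue`). Move from `x` to `w0` by `val_le`.
-/

noncomputable section

namespace ZrL

open Filter Topology Set

variable {K M : Type*} [Field K] [AddCommGroup M] [Module K M] [FiniteDimensional K M]

omit [FiniteDimensional K M] in
theorem IsSec.add' {T : Type*} [TopologicalSpace T] {P : T → T → (M ≃ₗ[K] M)} {A : Set T} {s s' : T → M}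
    (hs : IsSec P A s) (hs' : IsSec P A s') : IsSec P A fun y => s y + s' y := by
  intro y hy
  filter_upwards [hs y hy, hs' y hy] with w h1 h2
  rw [h1, h2, map_add]

omit [FiniteDimensional K M] in
theorem IsSec.smul' {T : Type*} [TopologicalSpace T] {P : T → T → (M ≃ₗ[K] M)} {A : Set T} {s : T → M}
    (hs : IsSec P A s) (c : K) : IsSec P A fun y => c • s y := by
  intro y hy
  filter_upwards [hs y hy] with w h1
  rw [h1, map_smul]

theorem val_le {T : Type*} [TopologicalSpace T] {P : T → T → (M ≃ₗ[K] M)} {A : Set T} (hA : IsPreconnected A) {x y : T}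
    (hx : x ∈ A) (hy : y ∈ A) : Module.finrank K (Val P A x) ≤ Module.finrank K (Val P A y) := by
  have hs : ∀ u : Val P A x, ∃ s : T → M, IsSec P A s ∧ s x = u.1 := fun u => u.2
  choose s hs1 hs2 using hs
  let L : Val P A x →ₗ[K] Val P A y :=
    { toFun := fun u => ⟨s u y, s u, hs1 u, rfl⟩
      map_add' := fun u v => by
        apply Subtype.ext
        show s (u + v) y = s u y + s v y
        refine (hs1 (u + v)).unique ((hs1 u).add' (hs1 v)) hA hx ?_ hy
        rw [hs2, hs2, hs2]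
        rfl
      map_smul' := fun c u => by
        apply Subtype.ext
        show s (c • u) y = c • s u y
        refine (hs1 (c • u)).unique ((hs1 u).smul' c) hA hx ?_ hy
        rw [hs2, hs2]
        rfl }
  have hL : Function.Injective L := by
    rw [← LinearMap.ker_eq_bot, LinearMap.ker_eq_bot']
    intro u hu
    have h1 : s u y = 0 := congrArg Subtype.val hu
    have h2 := (hs1 u).zero hA hy h1 hx
    rw [hs2] at h2
    exact Subtype.ext h2
  exact LinearMap.finrank_le_finrank_of_injective hL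

omit [FiniteDimensional K M] in
theorem planar_zero {X : Set ℂ} (hX : IsOpen X) {P : ℂ → ℂ → (M ≃ₗ[K] M)} (hP : IsLocSys X P) {C : Set ℂ}
    (hC : IsOpen C) (hc : Convex ℝ C) (hCX : C ⊆ X) {w0 : ℂ} (hw0 : w0 ∈ C) :
    Module.finrank K M ≤ Module.finrank K (Val P C w0) := by
  have h1 : Val P C w0 = ⊤ := by
    rw [eq_top_iff]
    intro u _
    obtain ⟨s, hs, hu⟩ := convex_sec hX hP hC hc hCX hw0 u
    exact ⟨s, hs, hu⟩
  rw [h1, finrank_top]

theorem planar_one {X : Set ℂ} (hX : IsOpen X) {P : ℂ → ℂ → (M ≃ₗ[K] M)} (hP : IsLocSys X P) {e : ℕ} {C : Set ℂ}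
    (hC : IsOpen C) (hc : Convex ℝ C) {p : ℂ} (hp : p ∈ C) (hCX : C \ {p} ⊆ X)
    (hd : ∃ O ∈ 𝓝 p, ∀ x ∈ O \ {p}, Module.finrank K M ≤ Module.finrank K (Val P (O \ {p}) x) + e) {w0 : ℂ}
    (hw0 : w0 ∈ C \ {p}) : Module.finrank K M ≤ Module.finrank K (Val P (C \ {p}) w0) + e := by
  obtain ⟨O, hO, hd⟩ := hd
  obtain ⟨r, hr, hball⟩ := Metric.mem_nhds_iff.mp (inter_mem hO (hC.mem_nhds hp))
  have hop : IsOpen (C \ {p}) := hC.sdiff isClosed_singleton
  have hpos : ∀ w : ℂ, w ≠ p → 0 < ‖w - p‖ := fun w hw => norm_pos_iff.mpr (sub_ne_zero.mpr hw)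
  obtain ⟨c, hcdef⟩ : ∃ c : ℂ → ℝ, c = fun w => min 1 (r / 2 / ‖w - p‖) := ⟨_, rfl⟩
  have hc0 : ∀ w : ℂ, w ≠ p → 0 < c w := by
    intro w hw
    have := hpos w hw
    rw [hcdef]
    exact lt_min one_pos (by positivity)
  have hcle : ∀ w : ℂ, w ≠ p → c w * ‖w - p‖ ≤ r / 2 := by
    intro w hw
    have h1 := hpos w hw
    have h2 : c w ≤ r / 2 / ‖w - p‖ := by rw [hcdef]; exact min_le_right _ _
    calc c w * ‖w - p‖ ≤ r / 2 / ‖w - p‖ * ‖w - p‖ := mul_le_mul_of_nonneg_right h2 h1.le
      _ = r / 2 := div_mul_cancel₀ _ h1.ne'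
  have hray : ∀ w : ℂ, w ≠ p → ∀ z ∈ segment ℝ (p + c w • (w - p)) w, z ≠ p := by
    intro w hw z hz hzp
    obtain ⟨a, b, ha, hb, hab, h1⟩ := hz
    have h2 : (a * c w + b) • (w - p) = 0 := by
      have h3 : a • (p + c w • (w - p)) + b • w - (a + b) • p = (a * c w + b) • (w - p) := by
        simp only [Complex.real_smul]
        push_cast
        ring
      rw [← h3, h1, hab, one_smul, hzp, sub_self]
    rcases smul_eq_zero.mp h2 with h4 | h4
    · have h5 := hc0 w hw
      rcases eq_or_lt_of_le ha with h6 | h6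
      · rw [← h6, zero_add] at hab
        rw [← h6, hab] at h4
        norm_num at h4
      · have h7 : 0 < a * c w := mul_pos h6 h5
        linarith
    · exact hw (sub_eq_zero.mp h4)
  have hmem : ∀ w : ℂ, w ≠ p → p + c w • (w - p) ∈ Metric.ball p r := by
    intro w hw
    rw [mem_ball_iff_norm, add_sub_cancel_left, norm_smul, Real.norm_of_nonneg (hc0 w hw).le]
    exact lt_of_le_of_lt (hcle w hw) (half_lt_self hr)
  have hAO : Metric.ball p r \ {p} ⊆ C \ {p} := fun z hz => ⟨(hball hz.1).2, hz.2⟩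
  have hext : ∀ x ∈ Metric.ball p r \ {p}, Val P (O \ {p}) x ≤ Val P (C \ {p}) x := by
    rintro x hx u ⟨s, hs, hu⟩
    have hs2 : IsSec P (Metric.ball p r \ {p}) s := hs.mono fun z hz => ⟨(hball hz.1).1, hz.2⟩
    obtain ⟨s', hs', h2⟩ := retract (e := fun w => p + c w • (w - p)) hX hP hop hCX hAO (by
        have h3 : ContinuousOn c (C \ {p}) := by
          rw [hcdef]
          refine ContinuousOn.inf continuousOn_const (ContinuousOn.div continuousOn_const
            (continuous_id.sub continuous_const).norm.continuousOn fun z hz => ?_)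
          exact (hpos z hz.2).ne'
        exact continuousOn_const.add (h3.smul (continuous_id.sub continuous_const).continuousOn))
      (fun w hw => ⟨hmem w hw.2, hray w hw.2 _ (left_mem_segment _ _ _)⟩)
      (fun w hw z hz => ⟨hc.segment_subset (hball (hmem w hw.2)).2 hw.1 hz, hray w hw.2 z hz⟩)
      (fun w hw z hz => ⟨(convex_ball p r).segment_subset (hmem w hw.2) hw.1 hz, hray w hw.2 z hz⟩) hs2
    exact ⟨s', hs', (h2 x hx).trans hu⟩
  have hx : p + ((r / 2 : ℝ) : ℂ) ∈ Metric.ball p r \ {p} := by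
    constructor
    · rw [mem_ball_iff_norm, add_sub_cancel_left, Complex.norm_real, Real.norm_of_nonneg (by positivity)]
      exact half_lt_self hr
    · intro h
      have h1 : ((r / 2 : ℝ) : ℂ) = 0 := by
        have h2 : p + ((r / 2 : ℝ) : ℂ) = p := h
        exact left_eq_add.mp h2.symm
      have h2 : r / 2 = 0 := Complex.ofReal_eq_zero.mp h1
      linarith
  have h1 := hd _ ⟨(hball hx.1).1, hx.2⟩
  have h2 := Submodule.finrank_mono (hext _ hx)
  have h3 := val_le (P := P) (conn_diff hC hc (countable_singleton p)) (hAO hx) hw0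
  omega

theorem planar {X : Set ℂ} (hX : IsOpen X) {P : ℂ → ℂ → (M ≃ₗ[K] M)} (hP : IsLocSys X P) {e : ℕ} {C : Set ℂ}
    (hC : IsOpen C) (hc : Convex ℝ C) {S : Finset ℂ} (hSC : ∀ p ∈ S, p ∈ C) (hCX : C \ S ⊆ X)
    (hd : ∀ p ∈ S, ∃ O ∈ 𝓝 p, ∀ x ∈ O \ {p}, Module.finrank K M ≤ Module.finrank K (Val P (O \ {p}) x) + e) {w0 : ℂ}
    (hw0 : w0 ∈ C \ S) : Module.finrank K M ≤ Module.finrank K (Val P (C \ S) w0) + e * S.card := by
  classical
  obtain ⟨n, hn⟩ : ∃ n, n = S.card := ⟨_, rfl⟩
  induction n generalizing C S w0 with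
  | zero =>
    have hS : S = ∅ := Finset.card_eq_zero.mp hn.symm
    subst hS
    have h1 : C \ ((∅ : Finset ℂ) : Set ℂ) = C := by rw [Finset.coe_empty, sdiff_empty]
    rw [h1] at hCX hw0 ⊢
    exact (planar_zero hX hP hC hc hCX hw0).trans (Nat.le_add_right _ _)
  | succ n ih =>
    have hSne : S.Nonempty := Finset.card_pos.mp (by omega)
    obtain ⟨p, hp, hmax⟩ := S.exists_max_image (fun z => ‖z‖) hSne
    by_cases hE : (S.erase p).Nonempty
    swap
    · rw [Finset.not_nonempty_iff_eq_empty, Finset.erase_eq_empty_iff] at hE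
      have hS : S = {p} := hE.resolve_left hSne.ne_empty
      subst hS
      rw [Finset.coe_singleton] at hCX hw0 ⊢
      rw [Finset.card_singleton, mul_one]
      exact planar_one hX hP hC hc (hSC p hp) hCX (hd p hp) hw0
    -- the linear form
    obtain ⟨f, hf⟩ : ∃ f : ℂ → ℝ, f = fun w => w.re * p.re + w.im * p.im := ⟨_, rfl⟩
    have hfc : Continuous f := by
      rw [hf]
      exact (Complex.continuous_re.mul continuous_const).add (Complex.continuous_im.mul continuous_const)
    have hfl : ∀ (a b : ℝ) (z w : ℂ), f (a • z + b • w) = a * f z + b * f w := by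
      intro a b z w
      simp only [hf, Complex.add_re, Complex.add_im, Complex.real_smul, Complex.re_ofReal_mul,
        Complex.im_ofReal_mul]
      ring
    have hlt : ∀ q ∈ S.erase p, f q < f p := by
      intro q hq
      obtain ⟨hqp, hqS⟩ := Finset.mem_erase.mp hq
      have h1 : ‖q‖ ≤ ‖p‖ := hmax q hqS
      have h2 : ‖q‖ ^ 2 ≤ ‖p‖ ^ 2 := pow_le_pow_left₀ (norm_nonneg _) h1 2
      have h3 : 0 < ‖q - p‖ ^ 2 := by
        have : 0 < ‖q - p‖ := norm_pos_iff.mpr (sub_ne_zero.mpr hqp)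
        positivity
      rw [Complex.sq_norm, Complex.normSq_apply] at h2 h3
      rw [Complex.sq_norm, Complex.normSq_apply] at h2
      rw [Complex.sub_re, Complex.sub_im] at h3
      simp only [hf]
      nlinarith
    obtain ⟨q, hq, hqmax⟩ := (S.erase p).exists_max_image f hE
    obtain ⟨m, hm⟩ : ∃ m, m = f q := ⟨_, rfl⟩
    have hmp : m < f p := hm ▸ hlt q hq
    obtain ⟨α, hα⟩ : ∃ α, α = m + (f p - m) / 4 := ⟨_, rfl⟩
    obtain ⟨β, hβ⟩ : ∃ β, β = m + 3 * (f p - m) / 4 := ⟨_, rfl⟩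
    have hαm : m < α := by rw [hα]; linarith
    have hβp : β < f p := by rw [hβ]; linarith
    have hαβ : α < β := by rw [hα, hβ]; linarith
    have hqm : ∀ z ∈ S.erase p, f z ≤ m := fun z hz => hm ▸ hqmax z hz
    have hconv1 : Convex ℝ {w : ℂ | f w < β} := by
      intro z hz w hw a b ha hb hab
      show f (a • z + b • w) < β
      rw [hfl]
      have hz' : f z < β := hz
      have hw' : f w < β := hw
      rcases eq_or_lt_of_le ha with h6 | h6
      · rw [← h6, zero_add] at hab
        rw [← h6, hab]; linarith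
      · have h7 : a * f z < a * β := mul_lt_mul_of_pos_left hz' h6
        have h8 : b * f w ≤ b * β := mul_le_mul_of_nonneg_left hw'.le hb
        have h9 : a * β + b * β = β := by rw [← add_mul, hab, one_mul]
        linarith
    have hconv2 : Convex ℝ {w : ℂ | α < f w} := by
      intro z hz w hw a b ha hb hab
      show α < f (a • z + b • w)
      rw [hfl]
      have hz' : α < f z := hz
      have hw' : α < f w := hw
      rcases eq_or_lt_of_le ha with h6 | h6
      · rw [← h6, zero_add] at hab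
        rw [← h6, hab]; linarith
      · have h7 : a * α < a * f z := mul_lt_mul_of_pos_left hz' h6
        have h8 : b * α ≤ b * f w := mul_le_mul_of_nonneg_left hw'.le hb
        have h9 : a * α + b * α = α := by rw [← add_mul, hab, one_mul]
        linarith
    obtain ⟨C₁, hC₁⟩ : ∃ C₁ : Set ℂ, C₁ = C ∩ {w | f w < β} := ⟨_, rfl⟩
    obtain ⟨C₂, hC₂⟩ : ∃ C₂ : Set ℂ, C₂ = C ∩ {w | α < f w} := ⟨_, rfl⟩
    have ho1 : IsOpen C₁ := hC₁ ▸ hC.inter (isOpen_lt hfc continuous_const)
    have ho2 : IsOpen C₂ := hC₂ ▸ hC.inter (isOpen_lt continuous_const hfc)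
    have hv1 : Convex ℝ C₁ := hC₁ ▸ hc.inter hconv1
    have hv2 : Convex ℝ C₂ := hC₂ ▸ hc.inter hconv2
    have hsub1 : C₁ \ (S.erase p : Finset ℂ) ⊆ C \ S := by
      rintro z ⟨hz1, hz2⟩
      rw [hC₁] at hz1
      refine ⟨hz1.1, fun hzS => hz2 (Finset.mem_coe.mpr (Finset.mem_erase.mpr ⟨?_, hzS⟩))⟩
      rintro rfl
      have : f z < β := hz1.2
      linarith
    have hsub2 : C₂ \ {p} ⊆ C \ S := by
      rintro z ⟨hz1, hz2⟩
      rw [hC₂] at hz1
      refine ⟨hz1.1, fun hzS => ?_⟩
      have h1 : α < f z := hz1.2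
      have h2 := hqm z (Finset.mem_erase.mpr ⟨hz2, hzS⟩)
      linarith
    have hcover : (C₁ \ (S.erase p : Finset ℂ)) ∪ (C₂ \ {p}) = C \ S := by
      refine Subset.antisymm (union_subset hsub1 hsub2) ?_
      rintro z ⟨hz1, hz2⟩
      by_cases h : f z < β
      · left
        refine ⟨hC₁ ▸ ⟨hz1, h⟩, fun h2 => hz2 ?_⟩
        exact Finset.mem_of_mem_erase (Finset.mem_coe.mp h2)
      · right
        refine ⟨hC₂ ▸ ⟨hz1, ?_⟩, ?_⟩
        · show α < f z
          exact lt_of_lt_of_le hαβ (not_lt.mp h)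
        · rintro rfl
          exact hz2 hp
    -- a common point
    obtain ⟨x, hx1, hx2⟩ : ∃ x, x ∈ C₁ ∧ x ∈ C₂ := by
      have hqS := Finset.mem_of_mem_erase hq
      have hmid : (1 / 2 : ℝ) • q + (1 / 2 : ℝ) • p ∈ C :=
        hc (hSC q hqS) (hSC p hp) (by norm_num) (by norm_num) (by norm_num)
      have hfm : f ((1 / 2 : ℝ) • q + (1 / 2 : ℝ) • p) = m + (f p - m) / 2 := by
        rw [hfl, ← hm]; ring
      refine ⟨(1 / 2 : ℝ) • q + (1 / 2 : ℝ) • p, ?_, ?_⟩
      · rw [hC₁]
        refine ⟨hmid, ?_⟩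
        show f ((1 / 2 : ℝ) • q + (1 / 2 : ℝ) • p) < β
        rw [hfm, hβ]; linarith
      · rw [hC₂]
        refine ⟨hmid, ?_⟩
        show α < f ((1 / 2 : ℝ) • q + (1 / 2 : ℝ) • p)
        rw [hfm, hα]; linarith
    have hxe : x ∉ (S.erase p : Finset ℂ) := by
      intro h
      have h1 := hqm x h
      rw [hC₂] at hx2
      have h2 : α < f x := hx2.2
      linarith
    have hxp : x ≠ p := by
      rintro rfl
      rw [hC₁] at hx1
      have : f x < β := hx1.2
      linarith
    have hx1' : x ∈ C₁ \ (S.erase p : Finset ℂ) := ⟨hx1, hxe⟩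
    have hx2' : x ∈ C₂ \ {p} := ⟨hx2, hxp⟩
    have hpC₂ : p ∈ C₂ := hC₂ ▸ ⟨hSC p hp, show α < f p by linarith⟩
    have k1 := ih ho1 hv1 (S := S.erase p) (fun z hz => hC₁ ▸ ⟨hSC z (Finset.mem_of_mem_erase hz),
        show f z < β by have := hqm z hz; linarith⟩) (hsub1.trans hCX)
      (fun z hz => hd z (Finset.mem_of_mem_erase hz)) hx1' (by rw [Finset.card_erase_of_mem hp]; omega)
    have k2 := planar_one hX hP ho2 hv2 hpC₂ (hsub2.trans hCX) (hd p hp) hx2'
    rw [Finset.card_erase_of_mem hp, ← hn, Nat.add_sub_cancel] at k1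
    have k3 := Submodule.finrank_sup_add_finrank_inf_eq (Val P (C₁ \ (S.erase p : Finset ℂ)) x)
      (Val P (C₂ \ {p}) x)
    have k4 := Submodule.finrank_le (Val P (C₁ \ (S.erase p : Finset ℂ)) x ⊔ Val P (C₂ \ {p}) x)
    have k5 : Val P (C₁ \ (S.erase p : Finset ℂ)) x ⊓ Val P (C₂ \ {p}) x ≤ Val P (C \ S) x := by
      rintro u ⟨⟨s, hs, hu⟩, ⟨s', hs', hu'⟩⟩
      have hpre : IsPreconnected (C₁ ∩ C₂) := (hv1.inter hv2).isPreconnected
      have hi : ∀ z ∈ C₁ ∩ C₂, z ∈ C₁ \ (S.erase p : Finset ℂ) ∧ z ∈ C₂ \ {p} := by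
        rintro z ⟨hz1, hz2⟩
        refine ⟨⟨hz1, fun h => ?_⟩, ⟨hz2, ?_⟩⟩
        · have h1 := hqm z h
          rw [hC₂] at hz2
          have h2 : α < f z := hz2.2
          linarith
        · rintro rfl
          rw [hC₁] at hz1
          have : f z < β := hz1.2
          linarith
      obtain ⟨t, ht, ht1, ht2⟩ := hs.glue hs' (ho1.sdiff (S.erase p).finite_toSet.isClosed)
        (ho2.sdiff isClosed_singleton) (fun z hz => by
          refine (hs.mono fun w hw => (hi w hw).1).unique (hs'.mono fun w hw => (hi w hw).2) hpre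
            ⟨hx1, hx2⟩ (hu.trans hu'.symm) ⟨hz.1.1, hz.2.1⟩)
      rw [hcover] at ht
      exact ⟨t, ht, (ht1 x hx1').trans hu⟩
    have k6 := Submodule.finrank_mono k5
    have k7 := val_le (P := P) (conn_diff hC hc S.finite_toSet.countable) (hsub1 hx1') hw0
    rw [← hn, Nat.mul_succ]
    omega

end ZrL
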