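import Pool.Agent.helper60.ZrL.Box

set_option autoImplicit false

/-!
# ZrL, module RT: the zeros over a neighbourhood of a point with simple zeros

Let `Z` be the finite set of zeros over `b` (`Box.fib_fin`), all with `‖p‖ < ρ / 2` (`Box.ne`). Choose `r0 > 0` with `8 * r0 < ‖p - q‖` for `p ≠ q` in `Z`, `‖p‖ + 8 * r0 < ρ / 2` for `p ∈ Z`, and small for (1).
(1) (uniqueness) near `(b, p)`, `p ∈ Z`, `g` is strictly differentiable with `c := fderiv ℂ g (b, p) (0, 1) ≠ 0` (`Simp`): `AnalyticAt.hasStrictFDerivAt`; so for `h` near `b` and `w1, w2` in the disc of radius `r0` around `p`: `‖g (h, w1) - g (h, w2) - (w1 - w2) * c‖ ≤ ‖c‖ / 2 * ‖w1 - w2‖`, so `g (h, ·)` is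
injective on this disc. (2) (existence) for `h` near `b` there is a zero in each disc (`M7_persist`, M7, with `E := H × ℂ`, `B` := the open set `{‖h‖ < R, ‖w‖ < ρ}`, `v := (0, 3 / 4 * ρ)`, centre `(b, 0)`; `U` a small disc). (3) `g (h, w) ≠ 0` for `h` near `b` and `w` in the compact set
`{‖w‖ ≤ ρ, r0 / 2 ≤ ‖w - p‖ ∀ p ∈ Z}` (compactness: `IsCompact.eventually_forall_of_forall_eventually`; compare `RD_cpt`, M7_simple). Take `ε` with all this on `ball b ε ⊆ ball 0 R`, and let `z p h` be the unique zero of `g (h, ·)` in the disc of radius `r0` around `p` (`Classical.choose`; junk outside `ball b ε`).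
Continuity of `z p` at `h1 ∈ ball b ε`: for small `η`, apply `M7_persist` at `h1` and the zero `z p h1` with `U` the disc of radius `η` (inside the disc of radius `r0` around `p`): for `h` near `h1` there is a zero within `η` of `z p h1`, by uniqueness it is `z p h`.
-/

noncomputable section

namespace ZrL

open Filter Topology Set

variable {H : Type*} [NormedAddCommGroup H] [NormedSpace ℂ H] [FiniteDimensional ℂ H]

theorem RT_persist {g : H × ℂ → ℂ} {R ρ : ℝ} (hB : Box g R ρ) {h1 : H} (hh : ‖h1‖ < R) {w1 : ℂ} (hw : ‖w1‖ ≤ ρ)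
    (hz : g (h1, w1) = 0) {U : Set ℂ} (hU : U ∈ 𝓝 w1) : ∀ᶠ h in 𝓝 h1, ∃ w ∈ U, g (h, w) = 0 := by
  have hρ := hB.hρ
  have hw2 : ‖w1‖ < ρ / 2 := by
    by_contra hc
    exact hB.ne h1 hh w1 (not_lt.1 hc) hw hz
  have hc0 : ((3 / 4 * ρ : ℝ) : ℂ) ≠ 0 := by
    have h3 : (3 / 4 * ρ : ℝ) ≠ 0 := by positivity
    exact_mod_cast h3
  have hcn : ‖((3 / 4 * ρ : ℝ) : ℂ)‖ = 3 / 4 * ρ := by
    rw [Complex.norm_real, Real.norm_eq_abs, abs_of_pos (by positivity)]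
  have hpt : ∀ (h : H) (w : ℂ), ((h, (0 : ℂ)) : H × ℂ) + w • ((0 : H), ((3 / 4 * ρ : ℝ) : ℂ)) = (h, w * ((3 / 4 * ρ : ℝ) : ℂ)) := by
    intro h w
    ext <;> simp
  have hopen : IsOpen {q : H × ℂ | ‖q.1‖ < R ∧ ‖q.2‖ < ρ} :=
    (isOpen_lt (continuous_norm.comp continuous_fst) continuous_const).inter
      (isOpen_lt (continuous_norm.comp continuous_snd) continuous_const)
  have hnorm : ∀ w : ℂ, ‖w * ((3 / 4 * ρ : ℝ) : ℂ)‖ = ‖w‖ * (3 / 4 * ρ) := by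
    intro w
    rw [norm_mul, hcn]
  have key := Zr.M7_persist (E := H × ℂ) (g := g) (B := {q : H × ℂ | ‖q.1‖ < R ∧ ‖q.2‖ < ρ}) hopen
    (fun y hy => hB.an y.1 hy.1 y.2 hy.2.le) (b := (h1, 0)) (v := ((0 : H), ((3 / 4 * ρ : ℝ) : ℂ)))
    (fun w hw1 => by
      rw [hpt]
      refine ⟨hh, ?_⟩
      show ‖w * ((3 / 4 * ρ : ℝ) : ℂ)‖ < ρ
      rw [hnorm]
      nlinarith)
    (fun w hw1 => by
      rw [hpt]
      refine hB.ne h1 hh _ ?_ ?_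
      · rw [hnorm, hw1]
        linarith
      · rw [hnorm, hw1]
        linarith)
    (w0 := w1 / ((3 / 4 * ρ : ℝ) : ℂ))
    (by
      rw [norm_div, hcn, div_le_one (by positivity)]
      linarith)
    (by
      rw [hpt, div_mul_cancel₀ _ hc0]
      exact hz)
    (U := (fun w : ℂ => w * ((3 / 4 * ρ : ℝ) : ℂ)) ⁻¹' U)
    (by
      have h5 : ContinuousAt (fun w : ℂ => w * ((3 / 4 * ρ : ℝ) : ℂ)) (w1 / ((3 / 4 * ρ : ℝ) : ℂ)) :=
        (continuous_id.mul continuous_const).continuousAt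
      apply h5
      show U ∈ 𝓝 (w1 / ((3 / 4 * ρ : ℝ) : ℂ) * ((3 / 4 * ρ : ℝ) : ℂ))
      rw [div_mul_cancel₀ _ hc0]
      exact hU)
  have hcont : Tendsto (fun h : H => (h, (0 : ℂ))) (𝓝 h1) (𝓝 (h1, 0)) :=
    (continuous_id.prodMk continuous_const).tendsto h1
  filter_upwards [hcont.eventually key] with h hex
  obtain ⟨w', hw'U, -, hw'z⟩ := hex
  rw [hpt] at hw'z
  exact ⟨_, hw'U, hw'z⟩

theorem RT_inj {g : H × ℂ → ℂ} {b : H} {p : ℂ} (ha : AnalyticAt ℂ g (b, p)) (hc : fderiv ℂ g (b, p) (0, 1) ≠ 0) :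
    ∃ δ : ℝ, 0 < δ ∧ ∀ h : H, ‖h - b‖ < δ → ∀ w1 w2 : ℂ, ‖w1 - p‖ < δ → ‖w2 - p‖ < δ →
      g (h, w1) = g (h, w2) → w1 = w2 := by
  have hs := ha.hasStrictFDerivAt
  have hcpos : 0 < ‖fderiv ℂ g (b, p) (0, 1)‖ / 2 := by
    have h1 := norm_pos_iff.2 hc
    linarith
  have h1 := hs.isLittleO.def hcpos
  rw [Metric.eventually_nhds_iff_ball] at h1
  obtain ⟨δ, hδ, h2⟩ := h1
  refine ⟨δ, hδ, fun h hh w1 w2 hw1 hw2 he => ?_⟩
  have hmem : ((h, w1), (h, w2)) ∈ Metric.ball ((b, p), (b, p)) δ := by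
    rw [Metric.mem_ball, Prod.dist_eq, Prod.dist_eq, Prod.dist_eq]
    simp only [dist_eq_norm]
    exact max_lt (max_lt hh hw1) (max_lt hh hw2)
  have h3 := h2 _ hmem
  have hsub : ((h, w1) : H × ℂ) - (h, w2) = (w1 - w2) • ((0 : H), (1 : ℂ)) := by
    ext <;> simp
  simp only [he, sub_self, zero_sub, norm_neg] at h3
  rw [hsub, map_smul, norm_smul, norm_smul] at h3
  have h01 : ‖((0 : H), (1 : ℂ))‖ = 1 := by
    rw [Prod.norm_def]
    simp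
  rw [h01, mul_one] at h3
  by_contra hne
  have h4 : 0 < ‖w1 - w2‖ := norm_pos_iff.2 (sub_ne_zero.2 hne)
  have h5 : 0 < ‖fderiv ℂ g (b, p) (0, 1)‖ := norm_pos_iff.2 hc
  nlinarith [mul_pos h4 h5]

theorem RT_far {g : H × ℂ → ℂ} {R ρ : ℝ} (hB : Box g R ρ) {b : H} (hb : ‖b‖ < R) {K : Set ℂ} (hK : IsCompact K)
    (h1 : ∀ w ∈ K, ‖w‖ ≤ ρ) (h2 : ∀ w ∈ K, g (b, w) ≠ 0) : ∀ᶠ h in 𝓝 b, ∀ w ∈ K, g (h, w) ≠ 0 := by
  refine hK.eventually_forall_of_forall_eventually (P := fun (h : H) (w : ℂ) => g (h, w) ≠ 0) ?_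
  intro w hw
  have h3 : ContinuousAt g (b, w) := (hB.an b hb w (h1 w hw)).continuousAt
  exact h3.eventually_ne (h2 w hw)

theorem roots {g : H × ℂ → ℂ} {R ρ : ℝ} (hB : Box g R ρ) {b : H} (hb : ‖b‖ < R) (hs : Simp g ρ b) :
    ∃ (r0 ε : ℝ) (Z : Finset ℂ) (z : ℂ → H → ℂ), 0 < r0 ∧ 0 < ε ∧ Metric.ball b ε ⊆ Metric.ball 0 R ∧
      (∀ w, w ∈ Z ↔ ‖w‖ ≤ ρ ∧ g (b, w) = 0) ∧ (∀ p ∈ Z, ∀ q ∈ Z, p ≠ q → 8 * r0 < ‖p - q‖) ∧
      (∀ p ∈ Z, ‖p‖ + 8 * r0 < ρ / 2) ∧ (∀ p ∈ Z, ContinuousOn (z p) (Metric.ball b ε)) ∧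
      (∀ p ∈ Z, ∀ h ∈ Metric.ball b ε, ‖z p h - p‖ < r0) ∧
      ∀ h ∈ Metric.ball b ε, ∀ w : ℂ, ‖w‖ ≤ ρ → (g (h, w) = 0 ↔ ∃ p ∈ Z, w = z p h) := by
  classical
  have hρ := hB.hρ
  have hfin := hB.fib_fin hb
  have hZm : ∀ w, w ∈ hfin.toFinset ↔ ‖w‖ ≤ ρ ∧ g (b, w) = 0 := fun w => by
    rw [Set.Finite.mem_toFinset]
    rfl
  have hhalf : ∀ w ∈ hfin.toFinset, ‖w‖ < ρ / 2 := by
    intro w hw
    by_contra hc
    exact hB.ne b hb w (not_lt.1 hc) ((hZm w).1 hw).1 ((hZm w).1 hw).2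
  have hinj0 : ∀ p ∈ hfin.toFinset, ∃ δ : ℝ, 0 < δ ∧ ∀ h : H, ‖h - b‖ < δ → ∀ w1 w2 : ℂ, ‖w1 - p‖ < δ → ‖w2 - p‖ < δ →
      g (h, w1) = g (h, w2) → w1 = w2 := by
    intro p hp
    have h1 := (hZm p).1 hp
    exact RT_inj (hB.an b hb p h1.1) (hs p h1.1 h1.2)
  have hlt : ∀ c : ℝ, 0 < c → ∀ᶠ r in 𝓝[>] (0 : ℝ), 8 * r < c := by
    intro c hc
    have h1 : ∀ᶠ r in 𝓝 (0 : ℝ), 8 * r < c := by
      have h2 : Tendsto (fun r : ℝ => 8 * r) (𝓝 0) (𝓝 (8 * 0)) := (continuous_const.mul continuous_id).tendsto 0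
      rw [mul_zero] at h2
      exact h2.eventually (gt_mem_nhds hc)
    exact h1.filter_mono nhdsWithin_le_nhds
  have hA : ∀ᶠ r in 𝓝[>] (0 : ℝ), ∀ p ∈ hfin.toFinset, ∀ q ∈ hfin.toFinset, p ≠ q → 8 * r < ‖p - q‖ := by
    rw [Finset.eventually_all]
    intro p _
    rw [Finset.eventually_all]
    intro q _
    by_cases hpq : p = q
    · exact Eventually.of_forall fun r hne => absurd hpq hne
    · filter_upwards [hlt _ (norm_pos_iff.2 (sub_ne_zero.2 hpq))] with r hr _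
      exact hr
  have hA2 : ∀ᶠ r in 𝓝[>] (0 : ℝ), ∀ p ∈ hfin.toFinset, ‖p‖ + 8 * r < ρ / 2 := by
    rw [Finset.eventually_all]
    intro p hp
    filter_upwards [hlt (ρ / 2 - ‖p‖) (by linarith [hhalf p hp])] with r hr
    linarith
  have hA3 : ∀ᶠ r in 𝓝[>] (0 : ℝ), ∀ p ∈ hfin.toFinset, ∀ᶠ h in 𝓝 b, ∀ w1 w2 : ℂ, ‖w1 - p‖ < r → ‖w2 - p‖ < r →
      g (h, w1) = g (h, w2) → w1 = w2 := by
    rw [Finset.eventually_all]
    intro p hp
    obtain ⟨δ, hδ, h1⟩ := hinj0 p hp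
    filter_upwards [hlt δ hδ, self_mem_nhdsWithin] with r hr hr0
    filter_upwards [Metric.ball_mem_nhds b hδ] with h hh w1 w2 hw1 hw2 he
    have hr0' : 0 < r := hr0
    rw [Metric.mem_ball, dist_eq_norm] at hh
    exact h1 h hh w1 w2 (by linarith) (by linarith) he
  obtain ⟨r0, ⟨⟨hr1, hr2⟩, hr3⟩, hr0⟩ := (((hA.and hA2).and hA3).and self_mem_nhdsWithin).exists
  have hr0 : 0 < r0 := hr0
  have hex : ∀ᶠ h in 𝓝 b, ∀ p ∈ hfin.toFinset, ∃ w : ℂ, ‖w - p‖ < r0 ∧ g (h, w) = 0 := by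
    rw [Finset.eventually_all]
    intro p hp
    have h1 := (hZm p).1 hp
    filter_upwards [RT_persist hB hb h1.1 h1.2 (Metric.ball_mem_nhds p hr0)] with h hh
    obtain ⟨w, hw, hw0⟩ := hh
    rw [Metric.mem_ball, dist_eq_norm] at hw
    exact ⟨w, hw, hw0⟩
  have huni : ∀ᶠ h in 𝓝 b, ∀ p ∈ hfin.toFinset, ∀ w1 w2 : ℂ, ‖w1 - p‖ < r0 → ‖w2 - p‖ < r0 →
      g (h, w1) = g (h, w2) → w1 = w2 := by
    rw [Finset.eventually_all]
    exact hr3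
  have hKc : IsCompact {w : ℂ | ‖w‖ ≤ ρ ∧ ∀ p ∈ hfin.toFinset, r0 ≤ ‖w - p‖} := by
    have hcl : IsClosed {w : ℂ | ‖w‖ ≤ ρ ∧ ∀ p ∈ hfin.toFinset, r0 ≤ ‖w - p‖} := by
      have h2 : {w : ℂ | ‖w‖ ≤ ρ ∧ ∀ p ∈ hfin.toFinset, r0 ≤ ‖w - p‖} =
          {w : ℂ | ‖w‖ ≤ ρ} ∩ ⋂ p ∈ hfin.toFinset, {w : ℂ | r0 ≤ ‖w - p‖} := by
        ext w
        simp only [Set.mem_inter_iff, Set.mem_iInter, Set.mem_setOf_eq]
      rw [h2]
      refine (isClosed_le continuous_norm continuous_const).inter ?_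
      exact isClosed_biInter fun p _ => isClosed_le continuous_const (continuous_norm.comp (continuous_id.sub continuous_const))
    refine (isCompact_closedBall (0 : ℂ) ρ).of_isClosed_subset hcl ?_
    intro w hw
    rw [Metric.mem_closedBall, dist_zero_right]
    exact hw.1
  have hfar : ∀ᶠ h in 𝓝 b, ∀ w ∈ {w : ℂ | ‖w‖ ≤ ρ ∧ ∀ p ∈ hfin.toFinset, r0 ≤ ‖w - p‖}, g (h, w) ≠ 0 := by
    refine RT_far hB hb hKc (fun w hw => hw.1) ?_
    intro w hw h0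
    have h1 := hw.2 w ((hZm w).2 ⟨hw.1, h0⟩)
    rw [sub_self, norm_zero] at h1
    linarith
  have hball : ∀ᶠ h in 𝓝 b, h ∈ Metric.ball (0 : H) R :=
    Metric.isOpen_ball.mem_nhds (by rw [Metric.mem_ball, dist_zero_right]; exact hb)
  obtain ⟨ε, hε, hall⟩ := Metric.eventually_nhds_iff_ball.1 (((hex.and huni).and hfar).and hball)
  have hspec : ∀ p ∈ hfin.toFinset, ∀ h ∈ Metric.ball b ε,
      ‖Classical.epsilon (fun w : ℂ => ‖w - p‖ < r0 ∧ g (h, w) = 0) - p‖ < r0 ∧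
        g (h, Classical.epsilon (fun w : ℂ => ‖w - p‖ < r0 ∧ g (h, w) = 0)) = 0 := by
    intro p hp h hh
    exact Classical.epsilon_spec ((hall h hh).1.1.1 p hp)
  refine ⟨r0, ε, hfin.toFinset, fun p h => Classical.epsilon (fun w : ℂ => ‖w - p‖ < r0 ∧ g (h, w) = 0), hr0, hε,
    fun h hh => (hall h hh).2, hZm, hr1, hr2, ?_, fun p hp h hh => (hspec p hp h hh).1, ?_⟩
  · intro p hp h1 hh1
    apply ContinuousAt.continuousWithinAt
    have hp1 := hspec p hp h1 hh1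
    have hR1 : ‖h1‖ < R := by
      have h5 := (hall h1 hh1).2
      rwa [Metric.mem_ball, dist_zero_right] at h5
    have hle : ‖Classical.epsilon (fun w : ℂ => ‖w - p‖ < r0 ∧ g (h1, w) = 0)‖ ≤ ρ := by
      have h6 := hr2 p hp
      have h7 := norm_le_insert' (Classical.epsilon (fun w : ℂ => ‖w - p‖ < r0 ∧ g (h1, w) = 0)) p
      linarith [hp1.1]
    intro U hU
    have hU2 : U ∩ Metric.ball p r0 ∈ 𝓝 (Classical.epsilon (fun w : ℂ => ‖w - p‖ < r0 ∧ g (h1, w) = 0)) :=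
      Filter.inter_mem hU (Metric.isOpen_ball.mem_nhds (by rw [Metric.mem_ball, dist_eq_norm]; exact hp1.1))
    have h8 := RT_persist hB hR1 hle hp1.2 hU2
    have h9 : ∀ᶠ h in 𝓝 h1, h ∈ Metric.ball b ε := Metric.isOpen_ball.mem_nhds hh1
    show ∀ᶠ h in 𝓝 h1, Classical.epsilon (fun w : ℂ => ‖w - p‖ < r0 ∧ g (h, w) = 0) ∈ U
    filter_upwards [h8, h9] with h hh hhb
    obtain ⟨w, ⟨hwU, hwb⟩, hw0⟩ := hh
    rw [Metric.mem_ball, dist_eq_norm] at hwb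
    have h10 := hspec p hp h hhb
    have h11 := (hall h hhb).1.1.2 p hp _ _ h10.1 hwb (h10.2.trans hw0.symm)
    rw [h11]
    exact hwU
  · intro h hh w hw
    constructor
    · intro h0
      by_contra hcon
      apply (hall h hh).1.2 w ⟨hw, ?_⟩ h0
      intro p hp
      by_contra hlt2
      apply hcon
      have h10 := hspec p hp h hh
      exact ⟨p, hp, (hall h hh).1.1.2 p hp _ _ (not_le.1 hlt2) h10.1 (h0.trans h10.2.symm)⟩
    · rintro ⟨p, hp, rfl⟩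
      exact (hspec p hp h hh).2

end ZrL
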