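import Pool.Agent.helper60.ZrL.Defs

set_option autoImplicit false

/-!
# ZrL: local systems near the origin off a set `Z`
-/

noncomputable section

namespace ZrL

open Filter Topology Set

/-- near `0` and off `Z` there is a local system with fibre `M` (a vector space over `K`) which has defect at most `e` at a dense set of
points of `Z` near `0` and no nonzero germ of flat sections at `0` -/
def HasSys (K M : Type*) [Field K] [AddCommGroup M] [Module K M] {E : Type*} [NormedAddCommGroup E] (Z : Set E) (e : ℕ) :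
    Prop :=
  ∃ (N : Set E) (P : E → E → (M ≃ₗ[K] M)), N ∈ 𝓝 (0 : E) ∧ IsLocSys (N \ Z) P ∧
    (∀ᶠ x in 𝓝 (0 : E), x ∈ Z → x ∈ closure {q | q ∈ Z ∧ Defect P Z e q}) ∧
    ∀ O ∈ 𝓝 (0 : E), ∀ s : E → M, IsSec P (O \ Z) s → ∀ᶠ x in 𝓝 (0 : E), x ∉ Z → s x = 0

end ZrL
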