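import Pool.Agent.helper60.ZrL.Defs

set_option autoImplicit false

/-!
# ZrL, module T1: a flat section along a segment extends to a tube around the segment

Proof. By compactness there is `δ > 0` such that over the ball of radius `δ` around every point of the segment there are flat sections with any value at any point
(Lebesgue number for the charts). Induction on `n`: for `c` on the segment with `dist a c ≤ n δ / 2` there is a tube around `segment a c`. Step: `c'` on `segment a c`
with `dist a c' ≤ n δ / 2` and `dist c' c ≤ δ / 2`, the section of the tube around `segment a c'` is glued with a section over the ball around `c'`.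
-/

noncomputable section

namespace ZrL

open Filter Topology Set

variable {K M : Type*} [Field K] [AddCommGroup M] [Module K M]

/-- there is a tube around the segment -/
private def T1_tube {E : Type*} [NormedAddCommGroup E] [NormedSpace ℝ E] (X : Set E) (P : E → E → (M ≃ₗ[K] M)) (a : E)
    (u : M) (c : E) : Prop :=
  ∃ ε : ℝ, 0 < ε ∧ Metric.thickening ε (segment ℝ a c) ⊆ X ∧
      ∃ s : E → M, s a = u ∧ IsSec P (Metric.thickening ε (segment ℝ a c)) s

/-- the segment is cut at a point -/
private theorem T1_cut {E : Type*} [NormedAddCommGroup E] [NormedSpace ℝ E] {a c z : E} {t₀ : ℝ} (h0 : 0 ≤ t₀)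
    (h1 : t₀ ≤ 1) (hz : z ∈ segment ℝ a c) :
    z ∈ segment ℝ a (AffineMap.lineMap a c t₀) ∨ z ∈ segment ℝ (AffineMap.lineMap a c t₀) c := by
  rw [segment_eq_image_lineMap] at hz
  obtain ⟨t, ht, rfl⟩ := hz
  rcases le_total t t₀ with h | h
  · left
    have h2 : t ∈ segment ℝ (0 : ℝ) t₀ := by
      rw [segment_eq_Icc h0]
      exact ⟨ht.1, h⟩
    have h3 := mem_image_of_mem (AffineMap.lineMap a c : ℝ →ᵃ[ℝ] E) h2
    rw [image_segment] at h3
    simpa using h3
  · right
    have h2 : t ∈ segment ℝ t₀ (1 : ℝ) := by
      rw [segment_eq_Icc h1]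
      exact ⟨h, ht.2⟩
    have h3 := mem_image_of_mem (AffineMap.lineMap a c : ℝ →ᵃ[ℝ] E) h2
    rw [image_segment] at h3
    simpa using h3

theorem tube {E : Type*} [NormedAddCommGroup E] [NormedSpace ℝ E] {X : Set E} (hX : IsOpen X) {P : E → E → (M ≃ₗ[K] M)}
    (hP : IsLocSys X P) {a b : E} (hab : segment ℝ a b ⊆ X) (u : M) :
    ∃ ε : ℝ, 0 < ε ∧ Metric.thickening ε (segment ℝ a b) ⊆ X ∧
      ∃ s : E → M, s a = u ∧ IsSec P (Metric.thickening ε (segment ℝ a b)) s := by
  -- uniform charts
  obtain ⟨δ, hδ, hch⟩ : ∃ δ > 0, ∀ x ∈ segment ℝ a b, Metric.ball x δ ⊆ X ∧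
      ∀ y ∈ Metric.ball x δ, ∀ v : M, ∃ s : E → M, IsSec P (Metric.ball x δ) s ∧ s y = v := by
    have h1 : ∀ x : segment ℝ a b, ∃ O : Set E, IsOpen O ∧ (x : E) ∈ O ∧
        ∀ u : M, IsSec P (O ∩ X) (fun w => P x w u) := fun x => hP.chart (hab x.2)
    choose O hO hxO hsec using h1
    have hcomp : IsCompact (segment ℝ a b) := by
      rw [segment_eq_image_lineMap]
      exact isCompact_Icc.image (by fun_prop)
    obtain ⟨δ, hδ, hball⟩ := lebesgue_number_lemma_of_metric (c := fun x => O x ∩ X) hcomp
      (fun x => (hO x).inter hX) (fun x hx => mem_iUnion.2 ⟨⟨x, hx⟩, hxO ⟨x, hx⟩, hab hx⟩)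
    refine ⟨δ, hδ, fun x hx => ?_⟩
    obtain ⟨i, hi⟩ := hball x hx
    refine ⟨fun y hy => (hi hy).2, fun y _ v => ?_⟩
    refine ⟨fun w => P i w ((P i y).symm v), (hsec i _).mono hi, ?_⟩
    simp
  have key : ∀ n : ℕ, ∀ c ∈ segment ℝ a b, dist a c ≤ n * (δ / 2) → T1_tube X P a u c := by
    intro n
    induction n with
    | zero =>
      intro c hc hd
      have h1 : a = c := by
        apply dist_le_zero.1
        simpa using hd
      obtain ⟨h2, h3⟩ := hch a (left_mem_segment ℝ a b)
      obtain ⟨s, hs, hsa⟩ := h3 a (Metric.mem_ball_self hδ) u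
      have h4 : Metric.thickening δ (segment ℝ a c) = Metric.ball a δ := by
        rw [← h1, segment_same, Metric.thickening_singleton]
      refine ⟨δ, hδ, ?_, s, hsa, ?_⟩
      · rw [h4]
        exact h2
      · rw [h4]
        exact hs
    | succ n ih =>
      intro c hc hd
      have hn : (0 : ℝ) < (n : ℝ) + 1 := by positivity
      set t₀ : ℝ := n / (n + 1) with ht₀
      have h0 : 0 ≤ t₀ := by positivity
      have h1 : t₀ ≤ 1 := by
        rw [ht₀, div_le_one hn]
        linarith
      set c' : E := AffineMap.lineMap a c t₀ with hc'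
      have hc'S : c' ∈ segment ℝ a b := by
        have h2 : c' ∈ segment ℝ a c := by
          rw [segment_eq_image_lineMap]
          exact ⟨t₀, ⟨h0, h1⟩, rfl⟩
        exact (convex_segment a b).segment_subset (left_mem_segment ℝ a b) hc h2
      have hd1 : dist a c' ≤ n * (δ / 2) := by
        rw [hc', dist_left_lineMap, Real.norm_of_nonneg h0]
        calc t₀ * dist a c ≤ t₀ * (((n + 1 : ℕ) : ℝ) * (δ / 2)) := mul_le_mul_of_nonneg_left hd h0
          _ = n * (δ / 2) := by
            rw [ht₀]
            push_cast
            field_simp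
      have hd2 : dist c' c ≤ δ / 2 := by
        rw [hc', dist_lineMap_right, Real.norm_of_nonneg (by linarith)]
        calc (1 - t₀) * dist a c ≤ (1 - t₀) * (((n + 1 : ℕ) : ℝ) * (δ / 2)) :=
              mul_le_mul_of_nonneg_left hd (by linarith)
          _ = δ / 2 := by
            rw [ht₀]
            push_cast
            field_simp
            ring
      obtain ⟨ε, hε, hεX, s, hsa, hs⟩ := ih c' hc'S hd1
      obtain ⟨hBX, hB⟩ := hch c' hc'S
      obtain ⟨s', hs', hs'c⟩ := hB c' (Metric.mem_ball_self hδ) (s c')
      have hconv : Convex ℝ (Metric.thickening ε (segment ℝ a c') ∩ Metric.ball c' δ) :=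
        ((convex_segment a c').thickening ε).inter (convex_ball c' δ)
      have hcA : c' ∈ Metric.thickening ε (segment ℝ a c') :=
        Metric.self_subset_thickening hε _ (right_mem_segment ℝ a c')
      have hagree : ∀ x ∈ Metric.thickening ε (segment ℝ a c') ∩ Metric.ball c' δ, s x = s' x := by
        intro x hx
        exact (hs.mono inter_subset_left).unique (hs'.mono inter_subset_right) hconv.isPreconnected
          (x := c') ⟨hcA, Metric.mem_ball_self hδ⟩ hs'c.symm hx
      obtain ⟨τ, hτ, hτA, hτB⟩ := hs.glue hs' Metric.isOpen_thickening Metric.isOpen_ball hagree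
      have hsub : Metric.thickening (min ε (δ / 2)) (segment ℝ a c) ⊆
          Metric.thickening ε (segment ℝ a c') ∪ Metric.ball c' δ := by
        intro y hy
        obtain ⟨z, hz, hyz⟩ := Metric.mem_thickening_iff.1 hy
        rcases T1_cut h0 h1 hz with h2 | h2
        · left
          exact Metric.mem_thickening_iff.2 ⟨z, h2, lt_of_lt_of_le hyz (min_le_left _ _)⟩
        · right
          have h3 : dist z c' ≤ δ / 2 := by
            have h4 : segment ℝ c' c ⊆ Metric.closedBall c' (δ / 2) := by
              apply (convex_closedBall c' (δ / 2)).segment_subset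
              · exact Metric.mem_closedBall_self (by positivity)
              · rw [Metric.mem_closedBall, dist_comm]
                exact hd2
            exact Metric.mem_closedBall.1 (h4 h2)
          rw [Metric.mem_ball]
          have h5 := lt_of_lt_of_le hyz (min_le_right _ _)
          have h6 := dist_triangle y z c'
          linarith
      refine ⟨min ε (δ / 2), lt_min hε (by positivity), ?_, τ, ?_, hτ.mono hsub⟩
      · exact hsub.trans (union_subset hεX hBX)
      · rw [hτA a (Metric.self_subset_thickening hε _ (left_mem_segment ℝ a c')), hsa]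
  obtain ⟨n, hn⟩ := exists_nat_ge (dist a b / (δ / 2))
  exact key n b (right_mem_segment ℝ a b) (by
    rw [div_le_iff₀ (by positivity)] at hn
    exact hn)

end ZrL
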